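import Pool.Agent.W110.HV.Basic
import Pool.Agent.W37.RK.BL1

/-!
Second moment over `K` of the sums of a function at the numbers `±(n² - K)`.
-/

set_option autoImplicit false

namespace Pool.Agent.TH892.SW

open Finset
open Pool.Agent.W110.HV (cor cor_sq ES)

/-- the sum of `f` at the values of `s (n² - K)` in `[1,Y]` -/
noncomputable def TT (s : ℤ) (M Y : ℕ) (f : ℤ → ℝ) (K : ℤ) : ℝ :=
  ∑ n ∈ Icc 1 M, if 1 ≤ s * ((n : ℤ) ^ 2 - K) ∧ s * ((n : ℤ) ^ 2 - K) ≤ Y then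
    f (s * ((n : ℤ) ^ 2 - K)) else 0

/-- real correlation -/
noncomputable def rc (Y : ℕ) (f : ℤ → ℝ) (h : ℤ) : ℝ :=
  ∑ u ∈ Icc (1 : ℤ) Y, ∑ v ∈ Icc (1 : ℤ) Y, if u - v = h then f u * f v else 0

lemma rc_cor (Y : ℕ) (f : ℤ → ℝ) (h : ℤ) :
    cor 1 (Y : ℤ) (fun n => (f n : ℂ)) (fun n => (f n : ℂ)) h = (rc Y f h : ℂ) := by
  unfold cor rc
  push_cast
  refine sum_congr rfl fun u _ => sum_congr rfl fun v _ => ?_
  split_ifs
  · rw [Complex.conj_ofReal, Complex.ofReal_mul]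
  · rfl

lemma rc_zero (Y : ℕ) (f : ℤ → ℝ) : rc Y f 0 = ∑ u ∈ Icc (1 : ℤ) Y, f u ^ 2 := by
  unfold rc
  refine sum_congr rfl fun u hu => ?_
  rw [← sum_filter]
  have : (Icc (1 : ℤ) Y).filter (fun v => u - v = 0) = {u} := by
    ext v
    rw [mem_filter, mem_singleton]
    constructor
    · rintro ⟨_, h⟩; omega
    · rintro rfl; exact ⟨hu, by omega⟩
  rw [this, sum_singleton]
  ring

lemma rc_big (Y : ℕ) (f : ℤ → ℝ) (h : ℤ) (hh : h ∉ Icc (-((Y : ℤ) - 1)) ((Y : ℤ) - 1)) :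
    rc Y f h = 0 := by
  unfold rc
  refine sum_eq_zero fun u hu => sum_eq_zero fun v hv => ?_
  rw [if_neg]
  intro e
  rw [mem_Icc] at hu hv hh
  omega

/-- one pair -/
lemma pair_sum (s : ℤ) (hs : s = 1 ∨ s = -1) (M Y n n' : ℕ) (hn : n ∈ Icc 1 M) (f : ℤ → ℝ) :
    ∑ K ∈ Icc (-(Y : ℤ)) ((M : ℤ) ^ 2 + Y),
      (if 1 ≤ s * ((n : ℤ) ^ 2 - K) ∧ s * ((n : ℤ) ^ 2 - K) ≤ Y then f (s * ((n : ℤ) ^ 2 - K)) else 0) *
      (if 1 ≤ s * ((n' : ℤ) ^ 2 - K) ∧ s * ((n' : ℤ) ^ 2 - K) ≤ Y then f (s * ((n' : ℤ) ^ 2 - K)) else 0) =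
    rc Y f (s * ((n' : ℤ) ^ 2 - (n : ℤ) ^ 2)) := by
  unfold rc
  set h := s * ((n' : ℤ) ^ 2 - (n : ℤ) ^ 2) with hh
  have hss : s * s = 1 := by rcases hs with rfl | rfl <;> norm_num
  rw [sum_comm]
  have e1 : ∀ v ∈ Icc (1 : ℤ) Y, (∑ u ∈ Icc (1 : ℤ) Y, if u - v = h then f u * f v else 0) =
      if 1 ≤ v + h ∧ v + h ≤ Y then f v * f (v + h) else 0 := by
    intro v _
    rw [← sum_filter]
    split_ifs with hc
    · have : (Icc (1 : ℤ) Y).filter (fun u => u - v = h) = {v + h} := by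
        ext u
        rw [mem_filter, mem_singleton, mem_Icc]
        constructor
        · rintro ⟨_, h⟩; omega
        · rintro rfl; exact ⟨hc, by omega⟩
      rw [this, sum_singleton]
      ring
    · apply sum_eq_zero
      intro u hu
      rw [mem_filter, mem_Icc] at hu
      exfalso
      apply hc
      omega
  rw [sum_congr rfl e1]
  have e2 : ∀ K : ℤ, (if 1 ≤ s * ((n : ℤ) ^ 2 - K) ∧ s * ((n : ℤ) ^ 2 - K) ≤ Y then f (s * ((n : ℤ) ^ 2 - K)) else 0) *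
      (if 1 ≤ s * ((n' : ℤ) ^ 2 - K) ∧ s * ((n' : ℤ) ^ 2 - K) ≤ Y then f (s * ((n' : ℤ) ^ 2 - K)) else 0) =
      if 1 ≤ s * ((n : ℤ) ^ 2 - K) ∧ s * ((n : ℤ) ^ 2 - K) ≤ Y then
        (if 1 ≤ s * ((n : ℤ) ^ 2 - K) + h ∧ s * ((n : ℤ) ^ 2 - K) + h ≤ Y then
          f (s * ((n : ℤ) ^ 2 - K)) * f (s * ((n : ℤ) ^ 2 - K) + h) else 0) else 0 := by
    intro K
    have e3 : s * ((n' : ℤ) ^ 2 - K) = s * ((n : ℤ) ^ 2 - K) + h := by rw [hh]; ring
    rw [e3]
    split_ifs <;> simp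
  simp_rw [e2]
  rw [← sum_filter]
  refine sum_nbij' (fun K => s * ((n : ℤ) ^ 2 - K)) (fun v => (n : ℤ) ^ 2 - s * v) ?_ ?_ ?_ ?_ ?_
  · intro K hK
    rw [mem_filter] at hK
    exact mem_Icc.2 hK.2
  · intro v hv
    rw [mem_Icc] at hv
    rw [mem_filter, mem_Icc]
    have e4 : s * ((n : ℤ) ^ 2 - ((n : ℤ) ^ 2 - s * v)) = v := by
      calc s * ((n : ℤ) ^ 2 - ((n : ℤ) ^ 2 - s * v)) = (s * s) * v := by ring
        _ = v := by rw [hss, one_mul]
    rw [e4]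
    refine ⟨?_, hv⟩
    have h1 : (n : ℤ) ^ 2 ≤ (M : ℤ) ^ 2 := by
      rw [mem_Icc] at hn
      exact pow_le_pow_left₀ (by positivity) (by exact_mod_cast hn.2) 2
    have h2 : (0 : ℤ) ≤ (n : ℤ) ^ 2 := by positivity
    rcases hs with rfl | rfl <;> constructor <;> linarith
  · intro K _
    calc (n : ℤ) ^ 2 - s * (s * ((n : ℤ) ^ 2 - K)) = (n : ℤ) ^ 2 - (s * s) * ((n : ℤ) ^ 2 - K) := by ring
      _ = K := by rw [hss]; ring
  · intro v _
    calc s * ((n : ℤ) ^ 2 - ((n : ℤ) ^ 2 - s * v)) = (s * s) * v := by ring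
      _ = v := by rw [hss, one_mul]
  · intro K _
    rfl

lemma energy (s : ℤ) (hs : s = 1 ∨ s = -1) (M Y : ℕ) (f : ℤ → ℝ) :
    ∑ K ∈ Icc (-(Y : ℤ)) ((M : ℤ) ^ 2 + Y), TT s M Y f K ^ 2 =
      ∑ n ∈ Icc 1 M, ∑ n' ∈ Icc 1 M, rc Y f (s * ((n' : ℤ) ^ 2 - (n : ℤ) ^ 2)) := by
  have e1 : ∀ K : ℤ, TT s M Y f K ^ 2 = ∑ n ∈ Icc 1 M, ∑ n' ∈ Icc 1 M,
      (if 1 ≤ s * ((n : ℤ) ^ 2 - K) ∧ s * ((n : ℤ) ^ 2 - K) ≤ Y then f (s * ((n : ℤ) ^ 2 - K)) else 0) *
      (if 1 ≤ s * ((n' : ℤ) ^ 2 - K) ∧ s * ((n' : ℤ) ^ 2 - K) ≤ Y then f (s * ((n' : ℤ) ^ 2 - K)) else 0) := by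
    intro K
    unfold TT
    rw [sq, sum_mul_sum]
  simp_rw [e1]
  rw [sum_comm]
  refine sum_congr rfl fun n hn => ?_
  rw [sum_comm]
  refine sum_congr rfl fun n' _ => ?_
  exact pair_sum s hs M Y n n' hn f

/-- the number of representations as a difference of two squares -/
lemma fiber_le (s : ℤ) (hs : s = 1 ∨ s = -1) (M : ℕ) (h : ℤ) (hh : h ≠ 0) :
    (((Icc 1 M) ×ˢ (Icc 1 M)).filter (fun p : ℕ × ℕ => s * ((p.2 : ℤ) ^ 2 - (p.1 : ℤ) ^ 2) = h)).card ≤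
      h.natAbs.divisors.card := by
  have hss : s * s = 1 := by rcases hs with rfl | rfl <;> norm_num
  refine card_le_card_of_injOn (fun p => ((p.2 : ℤ) - p.1).natAbs) ?_ ?_
  · intro p hp
    rw [mem_coe, mem_filter] at hp
    rw [mem_coe, Nat.mem_divisors]
    refine ⟨?_, by omega⟩
    rw [Int.natAbs_dvd_natAbs]
    refine ⟨s * ((p.2 : ℤ) + p.1), ?_⟩
    rw [← hp.2]; ring
  · intro p hp q hq hpq
    rw [mem_coe, mem_filter, mem_product, mem_Icc, mem_Icc] at hp hq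
    obtain ⟨⟨⟨p1, p2⟩, p3, p4⟩, p5⟩ := hp
    obtain ⟨⟨⟨q1, q2⟩, q3, q4⟩, q5⟩ := hq
    simp only at hpq
    have hP : ((p.2 : ℤ) - p.1) * ((p.2 : ℤ) + p.1) = s * h := by
      rw [← p5]
      calc ((p.2 : ℤ) - p.1) * ((p.2 : ℤ) + p.1) = 1 * ((p.2 : ℤ) ^ 2 - (p.1 : ℤ) ^ 2) := by ring
        _ = (s * s) * ((p.2 : ℤ) ^ 2 - (p.1 : ℤ) ^ 2) := by rw [hss]
        _ = _ := by ring
    have hQ : ((q.2 : ℤ) - q.1) * ((q.2 : ℤ) + q.1) = s * h := by
      rw [← q5]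
      calc ((q.2 : ℤ) - q.1) * ((q.2 : ℤ) + q.1) = 1 * ((q.2 : ℤ) ^ 2 - (q.1 : ℤ) ^ 2) := by ring
        _ = (s * s) * ((q.2 : ℤ) ^ 2 - (q.1 : ℤ) ^ 2) := by rw [hss]
        _ = _ := by ring
    have hsh : s * h ≠ 0 := by
      apply mul_ne_zero _ hh
      rcases hs with rfl | rfl <;> norm_num
    have hpp : (0 : ℤ) < (p.2 : ℤ) + p.1 := by omega
    have hqq : (0 : ℤ) < (q.2 : ℤ) + q.1 := by omega
    have hd : (p.2 : ℤ) - p.1 = (q.2 : ℤ) - q.1 := by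
      rcases Int.natAbs_eq_natAbs_iff.1 hpq with h1 | h1
      · exact h1
      · exfalso
        rw [h1] at hP
        have h2 : ((q.2 : ℤ) - q.1) * ((p.2 : ℤ) + p.1 + ((q.2 : ℤ) + q.1)) = 0 := by
          have : -((q.2 : ℤ) - q.1) * ((p.2 : ℤ) + p.1) = ((q.2 : ℤ) - q.1) * ((q.2 : ℤ) + q.1) := by
            rw [hP, hQ]
          linarith
        rcases mul_eq_zero.1 h2 with h3 | h3
        · rw [h3, zero_mul] at hQ
          exact hsh hQ.symm
        · omega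
    have hd0 : (q.2 : ℤ) - q.1 ≠ 0 := by
      intro h3
      rw [h3, zero_mul] at hQ
      exact hsh hQ.symm
    have hsum : (p.2 : ℤ) + p.1 = (q.2 : ℤ) + q.1 := by
      rw [hd, ← hQ] at hP
      exact mul_left_cancel₀ hd0 hP
    apply Prod.ext <;> omega

lemma div_sq (Y : ℕ) : ∑ h ∈ Icc 1 Y, ((h.divisors.card : ℕ) : ℝ) ^ 2 ≤ Y * (1 + Real.log Y) ^ 4 := by
  have h1 := W37.RK.sum_card_pow_div 2 Y
  calc ∑ h ∈ Icc 1 Y, ((h.divisors.card : ℕ) : ℝ) ^ 2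
      ≤ ∑ h ∈ Icc 1 Y, (Y : ℝ) * (((h.divisors.card : ℕ) : ℝ) ^ 2 / h) := by
        refine sum_le_sum fun h hh => ?_
        rw [mem_Icc] at hh
        have h0 : (0 : ℝ) < h := by exact_mod_cast hh.1
        have h2 : (h : ℝ) ≤ Y := by exact_mod_cast hh.2
        rw [mul_div_assoc', le_div_iff₀ h0, mul_comm]
        exact mul_le_mul_of_nonneg_right h2 (by positivity)
    _ = Y * ∑ h ∈ Icc 1 Y, (((h.divisors.card : ℕ) : ℝ) ^ 2 / h) := by rw [mul_sum]
    _ ≤ Y * (1 + Real.log Y) ^ 4 := mul_le_mul_of_nonneg_left h1 (by positivity)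

/-- the second moment -/
theorem second (s : ℤ) (hs : s = 1 ∨ s = -1) (X M Y : ℕ) (hX : X ≤ M ^ 2) (hY : 1 ≤ Y) (f : ℤ → ℝ) (Z Q : ℝ)
    (hZ : 0 ≤ Z) (hsup : ∀ α : ℝ, ‖ES 1 (Y : ℤ) (fun n => (f n : ℂ)) α‖ ≤ Z)
    (hQ : ∑ u ∈ Icc (1 : ℤ) Y, f u ^ 2 ≤ Q) :
    ∑ K ∈ Icc (1 : ℤ) X, TT s M Y f K ^ 2 ≤
      M * Q + √(2 * (Y * (1 + Real.log Y) ^ 4)) * √(Z ^ 2 * Q) := by
  classical
  have hQ0 : 0 ≤ Q := (sum_nonneg fun _ _ => sq_nonneg _).trans hQ
  have h1 : ∑ K ∈ Icc (1 : ℤ) X, TT s M Y f K ^ 2 ≤ ∑ K ∈ Icc (-(Y : ℤ)) ((M : ℤ) ^ 2 + Y), TT s M Y f K ^ 2 := by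
    apply sum_le_sum_of_subset_of_nonneg
    · intro K hK
      rw [mem_Icc] at hK ⊢
      have : (X : ℤ) ≤ (M : ℤ) ^ 2 := by exact_mod_cast hX
      constructor <;> linarith
    · intro _ _ _; positivity
  refine h1.trans ?_
  rw [energy s hs]
  set I := Icc (-((Y : ℤ) - 1)) ((Y : ℤ) - 1) with hI
  set P := (Icc 1 M) ×ˢ (Icc 1 M) with hP
  set hf : ℕ × ℕ → ℤ := fun p => s * ((p.2 : ℤ) ^ 2 - (p.1 : ℤ) ^ 2) with hhf
  have e1 : ∑ n ∈ Icc 1 M, ∑ n' ∈ Icc 1 M, rc Y f (s * ((n' : ℤ) ^ 2 - (n : ℤ) ^ 2)) =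
      ∑ p ∈ P, rc Y f (hf p) := by
    rw [hP, sum_product]
  rw [e1, ← sum_filter_add_sum_filter_not P (fun p => hf p = 0)]
  have hs0 : s ≠ 0 := by rcases hs with rfl | rfl <;> norm_num
  have h2 : ∑ p ∈ P.filter (fun p => hf p = 0), rc Y f (hf p) ≤ M * Q := by
    have e2 : ∀ p ∈ P.filter (fun p => hf p = 0), rc Y f (hf p) = ∑ u ∈ Icc (1 : ℤ) Y, f u ^ 2 := by
      intro p hp
      rw [(mem_filter.1 hp).2, rc_zero]
    rw [sum_congr rfl e2, sum_const, nsmul_eq_mul]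
    have h3 : ((P.filter (fun p => hf p = 0)).card : ℝ) ≤ M := by
      have h4 : (P.filter (fun p => hf p = 0)).card ≤ (Icc 1 M).card := by
        refine card_le_card_of_injOn (fun p => p.1) ?_ ?_
        · intro p hp
          rw [mem_coe, mem_filter, hP, mem_product] at hp
          exact hp.1.1
        · intro p hp q hq hpq
          rw [mem_coe, mem_filter, hP, mem_product, mem_Icc, mem_Icc] at hp hq
          simp only at hpq
          have h5 : ∀ r : ℕ × ℕ, hf r = 0 → r.2 = r.1 := by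
            intro r hr
            rw [hhf] at hr
            simp only at hr
            rcases mul_eq_zero.1 hr with h6 | h6
            · exact absurd h6 hs0
            · have h7 : (r.2 : ℤ) ^ 2 = (r.1 : ℤ) ^ 2 := by linarith
              have h8 : r.2 ^ 2 = r.1 ^ 2 := by exact_mod_cast h7
              exact Nat.pow_left_injective (by norm_num) h8
          have h6 := h5 p hp.2
          have h7 := h5 q hq.2
          apply Prod.ext <;> omega
      rw [Nat.card_Icc, Nat.add_sub_cancel] at h4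
      exact_mod_cast h4
    calc _ ≤ (M : ℝ) * ∑ u ∈ Icc (1 : ℤ) Y, f u ^ 2 :=
          mul_le_mul_of_nonneg_right h3 (sum_nonneg fun _ _ => sq_nonneg _)
      _ ≤ M * Q := mul_le_mul_of_nonneg_left hQ (by positivity)
  have h3 : ∑ p ∈ P.filter (fun p => ¬ hf p = 0), rc Y f (hf p) ≤
      ∑ h ∈ I.filter (fun h => h ≠ 0), (h.natAbs.divisors.card : ℝ) * |rc Y f h| := by
    have h4 : ∑ p ∈ P.filter (fun p => ¬ hf p = 0), rc Y f (hf p) ≤
        ∑ p ∈ P.filter (fun p => hf p ∈ I.filter (fun h => h ≠ 0)), |rc Y f (hf p)| := by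
      calc ∑ p ∈ P.filter (fun p => ¬ hf p = 0), rc Y f (hf p)
          ≤ ∑ p ∈ P.filter (fun p => ¬ hf p = 0), |rc Y f (hf p)| := sum_le_sum fun _ _ => le_abs_self _
        _ = ∑ p ∈ P.filter (fun p => hf p ∈ I.filter (fun h => h ≠ 0)), |rc Y f (hf p)| := by
            symm
            apply sum_subset
            · intro p hp
              rw [mem_filter] at hp ⊢
              exact ⟨hp.1, (mem_filter.1 hp.2).2⟩
            · intro p hp hp2
              rw [mem_filter] at hp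
              rw [rc_big, abs_zero]
              intro h5
              exact hp2 (mem_filter.2 ⟨hp.1, mem_filter.2 ⟨h5, hp.2⟩⟩)
    refine h4.trans ?_
    rw [← sum_fiberwise_of_maps_to (s := P.filter (fun p => hf p ∈ I.filter (fun h => h ≠ 0)))
      (t := I.filter (fun h => h ≠ 0)) (g := hf) (fun p hp => (mem_filter.1 hp).2)]
    refine sum_le_sum fun h hh => ?_
    calc ∑ p ∈ (P.filter (fun p => hf p ∈ I.filter (fun h => h ≠ 0))).filter (fun p => hf p = h), |rc Y f (hf p)|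
        = ∑ p ∈ (P.filter (fun p => hf p ∈ I.filter (fun h => h ≠ 0))).filter (fun p => hf p = h), |rc Y f h| := by
          refine sum_congr rfl fun p hp => ?_
          rw [(mem_filter.1 hp).2]
      _ = (((P.filter (fun p => hf p ∈ I.filter (fun h => h ≠ 0))).filter (fun p => hf p = h)).card : ℝ) * |rc Y f h| := by
          rw [sum_const, nsmul_eq_mul]
      _ ≤ (h.natAbs.divisors.card : ℝ) * |rc Y f h| := by
          apply mul_le_mul_of_nonneg_right _ (abs_nonneg _)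
          have h5 := fiber_le s hs M h (mem_filter.1 hh).2
          have h6 : (P.filter (fun p => hf p ∈ I.filter (fun h => h ≠ 0))).filter (fun p => hf p = h) ⊆
              P.filter (fun p => hf p = h) := by
            intro p hp
            rw [mem_filter, mem_filter] at hp
            exact mem_filter.2 ⟨hp.1.1, hp.2⟩
          exact_mod_cast (card_le_card h6).trans h5
  have h4 : ∑ h ∈ I.filter (fun h => h ≠ 0), (h.natAbs.divisors.card : ℝ) * |rc Y f h| ≤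
      √(2 * (Y * (1 + Real.log Y) ^ 4)) * √(Z ^ 2 * Q) := by
    have h5 := Real.sum_mul_le_sqrt_mul_sqrt (I.filter (fun h => h ≠ 0))
      (fun h : ℤ => (h.natAbs.divisors.card : ℝ)) (fun h => |rc Y f h|)
    refine h5.trans ?_
    apply mul_le_mul _ _ (Real.sqrt_nonneg _) (Real.sqrt_nonneg _)
    · apply Real.sqrt_le_sqrt
      have h6 := div_sq Y
      have h7 : ∑ h ∈ I.filter (fun h => h ≠ 0), (h.natAbs.divisors.card : ℝ) ^ 2 ≤
          ∑ j ∈ ({1, -1} : Finset ℤ) ×ˢ Icc 1 Y, ((j.2.divisors.card : ℕ) : ℝ) ^ 2 := by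
        have h8 : ∀ h ∈ I.filter (fun h => h ≠ 0), (h.natAbs.divisors.card : ℝ) ^ 2 =
            (fun j : ℤ × ℕ => ((j.2.divisors.card : ℕ) : ℝ) ^ 2) (h.sign, h.natAbs) := by
          intro h _; rfl
        rw [sum_congr rfl h8, ← sum_image (s := I.filter (fun h => h ≠ 0)) (g := fun h : ℤ => (h.sign, h.natAbs))
          (f := fun j : ℤ × ℕ => ((j.2.divisors.card : ℕ) : ℝ) ^ 2)]
        · apply sum_le_sum_of_subset_of_nonneg
          · intro j hj
            rw [mem_image] at hj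
            obtain ⟨h, hh, rfl⟩ := hj
            rw [mem_filter, hI, mem_Icc] at hh
            rw [mem_product, mem_insert, mem_singleton, mem_Icc]
            refine ⟨?_, by omega, by omega⟩
            rcases lt_trichotomy h 0 with h9 | h9 | h9
            · right; exact Int.sign_eq_neg_one_of_neg h9
            · exact absurd h9 hh.2
            · left; exact Int.sign_eq_one_of_pos h9
          · intro _ _ _; positivity
        · intro h _ h' _ he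
          rw [Prod.mk.injEq] at he
          rw [← Int.sign_mul_natAbs h, ← Int.sign_mul_natAbs h', he.1, he.2]
      refine h7.trans ?_
      rw [sum_product]
      simp only []
      rw [sum_const, show #({1, -1} : Finset ℤ) = 2 from rfl, nsmul_eq_mul]
      push_cast
      linarith
    · apply Real.sqrt_le_sqrt
      have h6 := cor_sq 1 (Y : ℤ) (fun n => (f n : ℂ)) (fun n => (f n : ℂ)) Z hsup
      have h7 : ∑ h ∈ I.filter (fun h => h ≠ 0), |rc Y f h| ^ 2 ≤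
          ∑ h ∈ Icc (-((Y : ℤ) - 1)) ((Y : ℤ) - 1), ‖cor 1 (Y : ℤ) (fun n => (f n : ℂ)) (fun n => (f n : ℂ)) h‖ ^ 2 := by
        calc ∑ h ∈ I.filter (fun h => h ≠ 0), |rc Y f h| ^ 2 ≤ ∑ h ∈ I, |rc Y f h| ^ 2 :=
              sum_le_sum_of_subset_of_nonneg (filter_subset _ _) (fun _ _ _ => by positivity)
          _ = _ := by
              refine sum_congr rfl fun h _ => ?_
              rw [rc_cor, Complex.norm_real, Real.norm_eq_abs]
      refine h7.trans (h6.trans ?_)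
      apply mul_le_mul_of_nonneg_left _ (sq_nonneg _)
      refine le_trans (le_of_eq ?_) hQ
      refine sum_congr rfl fun u _ => ?_
      rw [Complex.norm_real, Real.norm_eq_abs, sq_abs]
  linarith

end Pool.Agent.TH892.SW
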