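import Pool.Agent.H373R2.T7.SupE2
import Pool.Agent.TH892.SW.S1
import Pool.Agent.H442R2.EHI.PntErr

/-!
The exponential sum of the primes minus their sieve model divided by the logarithm, at every point.
-/

set_option autoImplicit false

namespace Pool.Agent.TH892.SW

open Finset Filter
open Pool.Agent.H373R2.T7 (pz Vz lamz mem_pz sup_diff Vz_inv_small lam1 lam1_le lam1_eq Vz_ge)
open Pool.Agent.W110.HV (ES)

/-- the weight `1 / log n` -/
noncomputable def wt (n : ℕ) : ℝ := 1 / Real.log n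

lemma wt_nonneg (n : ℕ) : 0 ≤ wt n := by
  unfold wt
  exact div_nonneg zero_le_one (Real.log_natCast_nonneg n)

lemma wt_anti {m n : ℕ} (hm : 2 ≤ m) (h : m ≤ n) : wt n ≤ wt m := by
  unfold wt
  have h2 : (2 : ℝ) ≤ m := by exact_mod_cast hm
  apply one_div_le_one_div_of_le (Real.log_pos (by linarith))
  apply Real.log_le_log (by linarith)
  exact_mod_cast h

lemma wt_two : wt 2 ≤ 3 / 2 := by
  unfold wt
  push_cast
  rw [div_le_iff₀ (Real.log_pos (by norm_num))]
  have := Real.log_two_gt_d9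
  linarith

lemma wt_le {n : ℕ} (hn : 2 ≤ n) : wt n ≤ 3 / 2 := (wt_anti le_rfl hn).trans wt_two

/-- partial summation with the weight `1 / log n` -/
lemma abel_w (a : ℕ → ℂ) (M0 : ℝ) (Y : ℕ) (hY : 2 ≤ Y)
    (hA : ∀ y : ℕ, y ≤ Y → ‖∑ n ∈ Icc 1 y, a n‖ ≤ M0) :
    ‖∑ n ∈ Icc 2 Y, (wt n : ℂ) * a n‖ ≤ 3 * M0 := by
  have hM0 : 0 ≤ M0 := (norm_nonneg _).trans (hA 0 (by omega))
  have key : ∀ y : ℕ, 2 ≤ y → y ≤ Y →
      ‖∑ n ∈ Icc 2 y, (wt n : ℂ) * a n - (wt y : ℂ) * ∑ n ∈ Icc 1 y, a n‖ ≤ M0 * (2 * wt 2 - wt y) := by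
    intro y hy
    induction y, hy using Nat.le_induction with
    | base =>
      intro _
      rw [Icc_self, sum_singleton, show Icc 1 2 = {1, 2} from rfl, sum_pair (by norm_num)]
      have e : (wt 2 : ℂ) * a 2 - (wt 2 : ℂ) * (a 1 + a 2) = -((wt 2 : ℂ) * a 1) := by ring
      rw [e, norm_neg, norm_mul, Complex.norm_real, Real.norm_of_nonneg (wt_nonneg 2)]
      have h1 := hA 1 (by omega)
      rw [Icc_self, sum_singleton] at h1
      have h2 : wt 2 * ‖a 1‖ ≤ wt 2 * M0 := mul_le_mul_of_nonneg_left h1 (wt_nonneg 2)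
      linarith
    | succ y hy ih =>
      intro hyY
      have h1 := ih (by omega)
      rw [sum_Icc_succ_top (by omega), sum_Icc_succ_top (by omega)]
      have e : (∑ n ∈ Icc 2 y, (wt n : ℂ) * a n + (wt (y + 1) : ℂ) * a (y + 1)) -
          (wt (y + 1) : ℂ) * (∑ n ∈ Icc 1 y, a n + a (y + 1)) =
          (∑ n ∈ Icc 2 y, (wt n : ℂ) * a n - (wt y : ℂ) * ∑ n ∈ Icc 1 y, a n) +
          ((wt y - wt (y + 1) : ℝ) : ℂ) * ∑ n ∈ Icc 1 y, a n := by
        push_cast; ring
      rw [e]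
      refine (norm_add_le _ _).trans ?_
      have hw : 0 ≤ wt y - wt (y + 1) := by
        have := wt_anti hy (Nat.le_succ y)
        linarith
      rw [norm_mul, Complex.norm_real, Real.norm_of_nonneg hw]
      have h2 : (wt y - wt (y + 1)) * ‖∑ n ∈ Icc 1 y, a n‖ ≤ (wt y - wt (y + 1)) * M0 :=
        mul_le_mul_of_nonneg_left (hA y (by omega)) hw
      linarith
  have h1 := key Y hY le_rfl
  have h2 : ‖(wt Y : ℂ) * ∑ n ∈ Icc 1 Y, a n‖ ≤ wt Y * M0 := by
    rw [norm_mul, Complex.norm_real, Real.norm_of_nonneg (wt_nonneg Y)]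
    exact mul_le_mul_of_nonneg_left (hA Y le_rfl) (wt_nonneg Y)
  have h3 := norm_add_le (∑ n ∈ Icc 2 Y, (wt n : ℂ) * a n - (wt Y : ℂ) * ∑ n ∈ Icc 1 Y, a n)
    ((wt Y : ℂ) * ∑ n ∈ Icc 1 Y, a n)
  rw [sub_add_cancel] at h3
  have h4 : wt 2 * M0 ≤ 3 / 2 * M0 := mul_le_mul_of_nonneg_right wt_two hM0
  linarith

/-- the primes minus the model -/
noncomputable def ffn (z n : ℕ) : ℝ := (if n.Prime then 1 else 0) - lamz z n * wt n

noncomputable def ff (z : ℕ) (y : ℤ) : ℝ := if 2 ≤ y then ffn z y.toNat else 0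

lemma lamz_nonneg (z n : ℕ) (hz : 1 ≤ z) : 0 ≤ lamz z n := by
  unfold lamz
  split_ifs
  · apply inv_nonneg.2
    have h := Vz_ge z hz
    have : (0 : ℝ) < 1 / (z : ℝ) := by
      have : (0 : ℝ) < z := by exact_mod_cast hz
      positivity
    linarith
  · exact le_rfl

lemma lamz_le (z n : ℕ) (hz : 1 ≤ z) : lamz z n ≤ (Vz z)⁻¹ := by
  unfold lamz
  split_ifs
  · exact le_rfl
  · apply inv_nonneg.2
    have h := Vz_ge z hz
    have : (0 : ℝ) < 1 / (z : ℝ) := by
      have : (0 : ℝ) < z := by exact_mod_cast hz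
      positivity
    linarith

/-- prime powers -/
lemma pp_sum (N : ℕ) (hN : 2 ≤ N) :
    ∑ n ∈ Icc 2 N, |(if n.Prime then (1 : ℝ) else 0) - ArithmeticFunction.vonMangoldt n * wt n| ≤
      3 * √N * Real.log N := by
  have h1 : ∑ n ∈ Icc 2 N, |(if n.Prime then (1 : ℝ) else 0) - ArithmeticFunction.vonMangoldt n * wt n| ≤
      ∑ n ∈ (Ioc 0 N).filter (fun n => ¬ n.Prime), 3 / 2 * ArithmeticFunction.vonMangoldt n := by
    have e1 : ∀ n ∈ Icc 2 N, |(if n.Prime then (1 : ℝ) else 0) - ArithmeticFunction.vonMangoldt n * wt n| =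
        if ¬ n.Prime then ArithmeticFunction.vonMangoldt n * wt n else 0 := by
      intro n hn
      rw [mem_Icc] at hn
      by_cases hp : n.Prime
      · rw [if_pos hp, if_neg (not_not.2 hp), ArithmeticFunction.vonMangoldt_apply_prime hp]
        unfold wt
        have : Real.log n ≠ 0 := (Real.log_pos (by exact_mod_cast hp.one_lt)).ne'
        rw [mul_one_div, div_self this, sub_self, abs_zero]
      · rw [if_neg hp, if_pos hp, zero_sub, abs_neg, abs_of_nonneg]
        exact mul_nonneg ArithmeticFunction.vonMangoldt_nonneg (wt_nonneg n)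
    rw [sum_congr rfl e1, ← sum_filter]
    calc ∑ n ∈ (Icc 2 N).filter (fun n => ¬ n.Prime), ArithmeticFunction.vonMangoldt n * wt n
        ≤ ∑ n ∈ (Icc 2 N).filter (fun n => ¬ n.Prime), 3 / 2 * ArithmeticFunction.vonMangoldt n := by
          refine sum_le_sum fun n hn => ?_
          rw [mem_filter, mem_Icc] at hn
          rw [mul_comm]
          exact mul_le_mul_of_nonneg_right (wt_le hn.1.1) ArithmeticFunction.vonMangoldt_nonneg
      _ ≤ _ := by
          apply sum_le_sum_of_subset_of_nonneg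
          · intro n hn
            rw [mem_filter, mem_Icc] at hn
            rw [mem_filter, mem_Ioc]
            exact ⟨⟨by omega, hn.1.2⟩, hn.2⟩
          · intro n _ _
            have := @ArithmeticFunction.vonMangoldt_nonneg n
            positivity
  have h2 := Chebyshev.psi_sub_theta_eq_sum_not_prime (N : ℝ)
  rw [Nat.floor_natCast] at h2
  have hN1 : (1 : ℝ) ≤ N := by exact_mod_cast (by omega : 1 ≤ N)
  have h3 := Chebyshev.psi_sub_theta_le hN1
  rw [← mul_sum, ← h2] at h1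
  linarith

lemma ee_eq (x : ℝ) : Pool.Agent.Helper112.ee x = Pool.Agent.H807R2.Dav.ee x := by
  unfold Pool.Agent.Helper112.ee Pool.Agent.H807R2.Dav.ee
  congr 1
  ring

lemma ES_nat (N : ℕ) (g : ℤ → ℂ) (α : ℝ) :
    ES 1 (N : ℤ) g α = ∑ n ∈ Icc 1 N, g n * Pool.Agent.H807R2.Dav.ee ((n : ℝ) * α) := by
  unfold ES
  symm
  refine sum_nbij' (fun n : ℕ => (n : ℤ)) (fun y : ℤ => y.toNat) ?_ ?_ ?_ ?_ ?_
  · intro n hn
    rw [mem_Icc] at hn ⊢
    constructor <;> omega
  · intro y hy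
    rw [mem_Icc] at hy ⊢
    constructor <;> omega
  · intro n _; simp
  · intro y hy
    rw [mem_Icc] at hy
    exact Int.toNat_of_nonneg (by omega)
  · intro n _
    rw [ee_eq]
    norm_cast

theorem sup_ff (U : ℕ) : ∃ B : ℕ, ∀ E : ℕ, ∃ N0 : ℕ, ∀ N : ℕ, N0 ≤ N → ∀ z : ℕ, Real.log N ^ B ≤ z →
    (z : ℝ) ≤ Real.log N ^ E → ∀ α : ℝ,
    ‖ES 1 (N : ℤ) (fun n => (ff z n : ℂ)) α‖ ≤ N / Real.log N ^ U := by
  obtain ⟨B, hB⟩ := sup_diff (U + 2)
  refine ⟨B, fun E => ?_⟩
  obtain ⟨N1, hN1⟩ := hB (E + 1)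
  obtain ⟨N2, hN2⟩ := Vz_inv_small E
  have hlog : ∀ᶠ N : ℕ in atTop, (2 : ℝ) ^ (U + E + 10) ≤ Real.log N :=
    (Real.tendsto_log_atTop.comp tendsto_natCast_atTop_atTop).eventually_ge_atTop _
  have hpow : ∀ᶠ N : ℕ in atTop, Real.log N ^ (U + 4) ≤ √(N : ℝ) := by
    have h1 := (isLittleO_log_rpow_atTop (show (0 : ℝ) < 1 / (2 * (U + 4)) by positivity)).bound (show (0 : ℝ) < 1 by norm_num)
    have h2 : ∀ᶠ N : ℕ in atTop, ‖Real.log (N : ℝ)‖ ≤ 1 * ‖(N : ℝ) ^ (1 / (2 * ((U : ℝ) + 4)))‖ :=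
      tendsto_natCast_atTop_atTop.eventually h1
    filter_upwards [h2, eventually_ge_atTop 1] with N h3 h4
    have hN : (1 : ℝ) ≤ N := by exact_mod_cast h4
    rw [Real.norm_of_nonneg (Real.log_nonneg hN), Real.norm_of_nonneg (by positivity), one_mul] at h3
    calc Real.log N ^ (U + 4) ≤ ((N : ℝ) ^ (1 / (2 * ((U : ℝ) + 4)))) ^ (U + 4) :=
          pow_le_pow_left₀ (Real.log_nonneg hN) h3 _
      _ = √(N : ℝ) := by
          rw [← Real.rpow_natCast, ← Real.rpow_mul (by positivity), Real.sqrt_eq_rpow]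
          congr 1
          push_cast
          field_simp
  obtain ⟨N3, hN3⟩ := eventually_atTop.1 (hlog.and hpow)
  refine ⟨max (max ((N1 + 1) ^ 2) N2) (max N3 4), fun N hN z hz1 hz2 α => ?_⟩
  have hNN1 : (N1 + 1) ^ 2 ≤ N := le_trans (le_trans (le_max_left _ _) (le_max_left _ _)) hN
  have hNN2 : N2 ≤ N := le_trans (le_trans (le_max_right _ _) (le_max_left _ _)) hN
  have hNN3 : N3 ≤ N := le_trans (le_trans (le_max_left _ _) (le_max_right _ _)) hN
  have hNN4 : 4 ≤ N := le_trans (le_trans (le_max_right _ _) (le_max_right _ _)) hN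
  obtain ⟨hL, hsq⟩ := hN3 N hNN3
  set L := Real.log N with hLd
  have h2U : (1 : ℝ) ≤ 2 ^ (U + E) := one_le_pow₀ (by norm_num)
  have hL1024 : 1024 ≤ L := by
    calc (1024 : ℝ) = 1 * 2 ^ 10 := by norm_num
      _ ≤ 2 ^ (U + E) * 2 ^ 10 := by gcongr
      _ = 2 ^ (U + E + 10) := by rw [← pow_add]
      _ ≤ L := hL
  have hL0 : 0 < L := by linarith
  have hL1 : 1 ≤ L := by linarith
  have hLp0 : ∀ n : ℕ, 0 < L ^ n := fun n => by positivity
  have hz1' : 1 ≤ z := by
    have : (1 : ℝ) ≤ z := (one_le_pow₀ hL1).trans hz1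
    exact_mod_cast this
  have hV := hN2 N hNN2 z hz1' hz2
  rw [← hLd] at hV
  have hNr : (4 : ℝ) ≤ N := by exact_mod_cast hNN4
  have hN0 : (0 : ℝ) < N := by linarith
  have hsqr : √(N : ℝ) * √(N : ℝ) = N := Real.mul_self_sqrt hN0.le
  have hs0 : 0 < √(N : ℝ) := Real.sqrt_pos.2 hN0
  -- partial sums
  set a : ℕ → ℂ := fun n => ((ArithmeticFunction.vonMangoldt n - lamz z n : ℝ) : ℂ) *
    Pool.Agent.H807R2.Dav.ee ((n : ℝ) * α) with ha
  have hA : ∀ y : ℕ, y ≤ N → ‖∑ n ∈ Icc 1 y, a n‖ ≤ N / L ^ (U + 1) := by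
    intro y hy
    rcases Nat.lt_or_ge (y ^ 2) N with hlt | hge
    · -- trivial
      have h1 : ‖∑ n ∈ Icc 1 y, a n‖ ≤ 6 * y + y * L := by
        refine (norm_sum_le _ _).trans ?_
        calc ∑ n ∈ Icc 1 y, ‖a n‖ ≤ ∑ n ∈ Icc 1 y, (ArithmeticFunction.vonMangoldt n + L) := by
              refine sum_le_sum fun n _ => ?_
              rw [ha]
              simp only
              rw [norm_mul, Pool.Agent.H807R2.Dav.norm_ee, mul_one, Complex.norm_real, Real.norm_eq_abs]
              refine (abs_sub _ _).trans ?_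
              rw [abs_of_nonneg ArithmeticFunction.vonMangoldt_nonneg, abs_of_nonneg (lamz_nonneg z n hz1')]
              have := (lamz_le z n hz1').trans hV
              linarith
          _ = lam1 y + y * L := by
              rw [sum_add_distrib, sum_const, Nat.card_Icc, nsmul_eq_mul, Nat.add_sub_cancel]
              rfl
          _ ≤ 6 * y + y * L := by
              have := lam1_le y
              linarith
      have hys : (y : ℝ) ≤ √(N : ℝ) := by
        apply Real.le_sqrt_of_sq_le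
        exact_mod_cast hlt.le
      refine h1.trans ?_
      calc 6 * (y : ℝ) + y * L ≤ y * (L * L ^ 0 + L) := by
            have : (0 : ℝ) ≤ y := Nat.cast_nonneg _
            rw [pow_zero, mul_one]
            nlinarith
        _ ≤ √(N : ℝ) * (L * L) := by
            rw [pow_zero, mul_one]
            apply mul_le_mul hys _ (by linarith) hs0.le
            nlinarith
        _ ≤ N / L ^ (U + 1) := by
            rw [le_div_iff₀ (hLp0 _)]
            calc √(N : ℝ) * (L * L) * L ^ (U + 1) = √(N : ℝ) * L ^ (U + 3) := by ring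
              _ ≤ √(N : ℝ) * √(N : ℝ) := by
                  apply mul_le_mul_of_nonneg_left _ hs0.le
                  exact (pow_le_pow_right₀ hL1 (by omega)).trans hsq
              _ = N := hsqr
    · have hyN1 : N1 ≤ y := by
        have h1 : (N1 + 1) ^ 2 ≤ y ^ 2 := hNN1.trans hge
        have := (Nat.pow_le_pow_iff_left (by norm_num)).1 h1
        omega
      have hy0 : 0 < y := by
        rcases Nat.eq_zero_or_pos y with h | h
        · rw [h] at hge; omega
        · exact h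
      have hyr : (0 : ℝ) < y := by exact_mod_cast hy0
      have hly1 : L / 2 ≤ Real.log y := by
        have h1 : (N : ℝ) ≤ (y : ℝ) ^ 2 := by exact_mod_cast hge
        have h2 := Real.log_le_log hN0 h1
        rw [Real.log_pow] at h2
        push_cast at h2
        linarith
      have hly2 : Real.log y ≤ L := Real.log_le_log hyr (by exact_mod_cast hy)
      have hly0 : 0 < Real.log y := by linarith
      have h1 := hN1 y hyN1 z ((pow_le_pow_left₀ hly0.le hly2 B).trans hz1) (by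
        refine hz2.trans ?_
        calc L ^ E ≤ (2 * Real.log y) ^ E := pow_le_pow_left₀ hL0.le (by linarith) _
          _ = 2 ^ E * Real.log y ^ E := mul_pow _ _ _
          _ ≤ Real.log y * Real.log y ^ E := by
              apply mul_le_mul_of_nonneg_right _ (by positivity)
              have h2 : (2 : ℝ) ^ E * 2 ^ 1 ≤ 2 ^ (U + E + 10) := by
                rw [← pow_add]
                exact pow_le_pow_right₀ (by norm_num) (by omega)
              linarith
          _ = Real.log y ^ (E + 1) := by ring) α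
      refine h1.trans ?_
      calc (y : ℝ) / Real.log y ^ (U + 2) ≤ N / (L / 2) ^ (U + 2) := by
            apply div_le_div₀ hN0.le (by exact_mod_cast hy) (by positivity)
            exact pow_le_pow_left₀ (by positivity) hly1 _
        _ = N / L ^ (U + 1) * (2 ^ (U + 2) / L) := by
            rw [div_pow, pow_succ L]
            field_simp
        _ ≤ N / L ^ (U + 1) * 1 := by
            apply mul_le_mul_of_nonneg_left _ (by positivity)
            rw [div_le_one hL0]
            exact (pow_le_pow_right₀ (by norm_num) (by omega)).trans hL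
        _ = _ := mul_one _
  have hab := abel_w a (N / L ^ (U + 1)) N (by omega) hA
  rw [ES_nat]
  have hsplit : ∑ n ∈ Icc 1 N, ((ff z (n : ℤ) : ℝ) : ℂ) * Pool.Agent.H807R2.Dav.ee ((n : ℝ) * α) =
      ∑ n ∈ Icc 2 N, (wt n : ℂ) * a n + ∑ n ∈ Icc 2 N,
        ((((if n.Prime then (1 : ℝ) else 0) - ArithmeticFunction.vonMangoldt n * wt n : ℝ)) : ℂ) *
        Pool.Agent.H807R2.Dav.ee ((n : ℝ) * α) := by
    rw [← sum_add_distrib]
    have h1 : Icc 1 N = insert 1 (Icc 2 N) := by
      ext n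
      rw [mem_insert, mem_Icc, mem_Icc]
      omega
    rw [h1, sum_insert (by rw [mem_Icc]; omega)]
    have h2 : ff z ((1 : ℕ) : ℤ) = 0 := by
      unfold ff
      rw [if_neg (by norm_num)]
    rw [h2, Complex.ofReal_zero, zero_mul, zero_add]
    refine sum_congr rfl fun n hn => ?_
    rw [mem_Icc] at hn
    have h3 : ff z (n : ℤ) = ffn z n := by
      unfold ff
      rw [if_pos (by omega), Int.toNat_natCast]
    rw [h3, ha]
    unfold ffn
    push_cast
    ring
  rw [hsplit]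
  refine (norm_add_le _ _).trans ?_
  have h2 : ‖∑ n ∈ Icc 2 N,
        ((((if n.Prime then (1 : ℝ) else 0) - ArithmeticFunction.vonMangoldt n * wt n : ℝ)) : ℂ) *
        Pool.Agent.H807R2.Dav.ee ((n : ℝ) * α)‖ ≤ 3 * √N * L := by
    refine (norm_sum_le _ _).trans (le_trans (le_of_eq ?_) (pp_sum N (by omega)))
    refine sum_congr rfl fun n _ => ?_
    rw [norm_mul, Pool.Agent.H807R2.Dav.norm_ee, mul_one, Complex.norm_real, Real.norm_eq_abs]
  have h3 : 3 * √(N : ℝ) * L ≤ N / L ^ (U + 1) := by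
    rw [le_div_iff₀ (hLp0 _)]
    calc 3 * √(N : ℝ) * L * L ^ (U + 1) = √(N : ℝ) * (3 * L ^ (U + 2)) := by ring
      _ ≤ √(N : ℝ) * (L * L ^ (U + 2)) := by gcongr; linarith
      _ = √(N : ℝ) * L ^ (U + 3) := by ring
      _ ≤ √(N : ℝ) * √(N : ℝ) := by
          apply mul_le_mul_of_nonneg_left _ hs0.le
          exact (pow_le_pow_right₀ hL1 (by omega)).trans hsq
      _ = N := hsqr
  have h4 : 4 * (N / L ^ (U + 1)) ≤ N / L ^ U := by
    rw [mul_div_assoc', div_le_div_iff₀ (hLp0 _) (hLp0 _), pow_succ]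
    have : 0 ≤ (N : ℝ) * L ^ U := by positivity
    nlinarith
  linarith

/-- the mean square -/
lemma sq_ff (E : ℕ) : ∃ N0 : ℕ, ∀ N : ℕ, N0 ≤ N → ∀ z : ℕ, 1 ≤ z → (z : ℝ) ≤ Real.log N ^ E →
    (∀ y : ℤ, |ff z y| ≤ 3 * Real.log N) ∧
    ∑ u ∈ Icc (1 : ℤ) N, ff z u ^ 2 ≤ 9 * N * Real.log N ^ 2 := by
  obtain ⟨N2, hN2⟩ := Vz_inv_small E
  obtain ⟨N3, hN3⟩ := eventually_atTop.1 ((Real.tendsto_log_atTop.comp tendsto_natCast_atTop_atTop).eventually_ge_atTop 1)
  refine ⟨max N2 N3, fun N hN z hz1 hz2 => ?_⟩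
  have hV := hN2 N ((le_max_left _ _).trans hN) z hz1 hz2
  have hL : (1 : ℝ) ≤ Real.log N := hN3 N ((le_max_right _ _).trans hN)
  set L := Real.log N
  have h1 : ∀ y : ℤ, |ff z y| ≤ 3 * L := by
    intro y
    unfold ff
    split_ifs with h
    · unfold ffn
      refine (abs_sub _ _).trans ?_
      have h2 : |(if y.toNat.Prime then (1 : ℝ) else 0)| ≤ 1 := by split_ifs <;> simp
      have h3 : |lamz z y.toNat * wt y.toNat| ≤ L * (3 / 2) := by
        rw [abs_of_nonneg (mul_nonneg (lamz_nonneg z _ hz1) (wt_nonneg _))]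
        exact mul_le_mul ((lamz_le z _ hz1).trans hV) (wt_le (by omega)) (wt_nonneg _) (by linarith)
      linarith
    · rw [abs_zero]; linarith
  refine ⟨h1, ?_⟩
  calc ∑ u ∈ Icc (1 : ℤ) N, ff z u ^ 2 ≤ ∑ _u ∈ Icc (1 : ℤ) N, (3 * L) ^ 2 := by
        refine sum_le_sum fun u _ => ?_
        rw [← sq_abs (ff z u)]
        exact pow_le_pow_left₀ (abs_nonneg _) (h1 u) 2
    _ = 9 * N * L ^ 2 := by
        rw [sum_const, Int.card_Icc, nsmul_eq_mul]
        have : (((N : ℤ) + 1 - 1).toNat : ℝ) = N := by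
          rw [add_sub_cancel_right, Int.toNat_natCast]
        rw [this]
        ring

end Pool.Agent.TH892.SW
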