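import Pool.Agent.TH892.SW.S3
import Pool.Agent.TH892.SW.S7

/-!
The model summed over a window with the weight `1 / log |n² - K|`.
-/

set_option autoImplicit false

namespace Pool.Agent.TH892.SW

open Finset
open Pool.Agent.H373R2.T7 (pz Vz lamz mem_pz Vz_ge)

/-- partial summation with a decreasing weight -/
lemma abel_anti (w b : ℕ → ℝ) (m N : ℕ) (hmN : m < N) (hw : ∀ n, 0 ≤ w n)
    (hanti : ∀ n, m < n → n < N → w (n + 1) ≤ w n) (δ R : ℝ) (hδ : 0 ≤ δ) (hR : 0 ≤ R)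
    (hb : ∀ n, m ≤ n → n ≤ N → |∑ i ∈ Ioc m n, b i| ≤ δ * ((n : ℝ) - m) + R) :
    |∑ i ∈ Ioc m N, w i * b i| ≤ δ * ∑ i ∈ Ioc m N, w i + R * w (m + 1) := by
  have key : ∀ n, m + 1 ≤ n → n ≤ N → |∑ i ∈ Ioc m n, w i * b i - w n * ∑ i ∈ Ioc m n, b i| ≤
      δ * (∑ i ∈ Ioc m n, w i - ((n : ℝ) - m) * w n) + R * (w (m + 1) - w n) := by
    intro n hn
    induction n, hn using Nat.le_induction with
    | base =>
      intro _
      rw [Nat.Ioc_succ_singleton, sum_singleton, sum_singleton, sum_singleton, sub_self, abs_zero]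
      push_cast
      have : δ * (w (m + 1) - ((m : ℝ) + 1 - m) * w (m + 1)) + R * (w (m + 1) - w (m + 1)) = 0 := by ring
      rw [this]
    | succ n hn ih =>
      intro hnN
      have h1 := ih (by omega)
      rw [sum_Ioc_succ_top (by omega), sum_Ioc_succ_top (by omega), sum_Ioc_succ_top (by omega)]
      have e : ∑ i ∈ Ioc m n, w i * b i + w (n + 1) * b (n + 1) -
          w (n + 1) * (∑ i ∈ Ioc m n, b i + b (n + 1)) =
          (∑ i ∈ Ioc m n, w i * b i - w n * ∑ i ∈ Ioc m n, b i) + (w n - w (n + 1)) * ∑ i ∈ Ioc m n, b i := by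
        ring
      rw [e]
      refine (abs_add_le _ _).trans ?_
      have hw1 : 0 ≤ w n - w (n + 1) := by
        have := hanti n (by omega) (by omega)
        linarith
      rw [abs_mul (w n - w (n + 1)), abs_of_nonneg hw1]
      have h2 := mul_le_mul_of_nonneg_left (hb n (by omega) (by omega)) hw1
      have e2 : δ * (∑ i ∈ Ioc m n, w i + w (n + 1) - (((n + 1 : ℕ) : ℝ) - m) * w (n + 1)) + R * (w (m + 1) - w (n + 1)) =
          δ * (∑ i ∈ Ioc m n, w i - ((n : ℝ) - m) * w n) + R * (w (m + 1) - w n) +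
          (w n - w (n + 1)) * (δ * ((n : ℝ) - m) + R) := by
        push_cast; ring
      rw [e2]
      linarith
  have h1 := key N hmN le_rfl
  have h2 : |w N * ∑ i ∈ Ioc m N, b i| ≤ w N * (δ * ((N : ℝ) - m) + R) := by
    rw [abs_mul, abs_of_nonneg (hw N)]
    exact mul_le_mul_of_nonneg_left (hb N hmN.le le_rfl) (hw N)
  have h3 := abs_add_le (∑ i ∈ Ioc m N, w i * b i - w N * ∑ i ∈ Ioc m N, b i) (w N * ∑ i ∈ Ioc m N, b i)
  rw [sub_add_cancel] at h3
  have e : δ * (∑ i ∈ Ioc m N, w i - ((N : ℝ) - m) * w N) + R * (w (m + 1) - w N) +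
      w N * (δ * ((N : ℝ) - m) + R) = δ * ∑ i ∈ Ioc m N, w i + R * w (m + 1) := by ring
  linarith

lemma reflect (f : ℕ → ℝ) (N c : ℕ) (hc : c ≤ N) :
    ∑ j ∈ Ioc 0 c, f (N + 1 - j) = ∑ i ∈ Ioc (N - c) N, f i := by
  refine sum_nbij' (fun j => N + 1 - j) (fun i => N + 1 - i) ?_ ?_ ?_ ?_ ?_
  · intro j hj
    rw [mem_Ioc] at hj ⊢
    omega
  · intro i hi
    rw [mem_Ioc] at hi ⊢
    omega
  · intro j hj
    rw [mem_Ioc] at hj
    omega
  · intro i hi
    rw [mem_Ioc] at hi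
    omega
  · intro j _; rfl

/-- partial summation with an increasing weight -/
lemma abel_mono (w b : ℕ → ℝ) (m N : ℕ) (hmN : m < N) (hw : ∀ n, 0 ≤ w n)
    (hmono : ∀ n, m < n → n < N → w n ≤ w (n + 1)) (δ R : ℝ) (hδ : 0 ≤ δ) (hR : 0 ≤ R)
    (hb : ∀ n, m ≤ n → n ≤ N → |∑ i ∈ Ioc n N, b i| ≤ δ * ((N : ℝ) - n) + R) :
    |∑ i ∈ Ioc m N, w i * b i| ≤ δ * ∑ i ∈ Ioc m N, w i + R * w N := by
  have h1 := abel_anti (fun j => w (N + 1 - j)) (fun j => b (N + 1 - j)) 0 (N - m) (by omega)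
    (fun n => hw _) (by
      intro n h1 h2
      have h3 := hmono (N + 1 - (n + 1)) (by omega) (by omega)
      have e : N + 1 - (n + 1) + 1 = N + 1 - n := by omega
      rw [e] at h3
      exact h3) δ R hδ hR (by
      intro n _ hn
      have h2 := reflect b N n (by omega)
      rw [h2]
      have h3 := hb (N - n) (by omega) (by omega)
      rw [Nat.cast_sub (by omega)] at h3
      push_cast
      refine h3.trans (le_of_eq ?_)
      ring)
  have e1 := reflect (fun i => w i * b i) N (N - m) (by omega)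
  have e2 := reflect w N (N - m) (by omega)
  have e3 : N - (N - m) = m := by omega
  rw [e3] at e1 e2
  rw [← e1, ← e2]
  have e4 : N + 1 - (0 + 1) = N := by omega
  rw [e4] at h1
  exact h1

/-- the value -/
def vn (K n : ℕ) : ℕ := ((n : ℤ) ^ 2 - K).natAbs

lemma HP_nonneg (K : ℤ) (z : ℕ) : 0 ≤ HP K z := by
  unfold HP
  apply prod_nonneg
  intro w hw
  rw [mem_filter] at hw
  have h3 : (3 : ℝ) ≤ w := by
    have := hw.2.1.two_le
    have h2 := hw.2.2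
    exact_mod_cast (by omega : 3 ≤ w)
  have h1 := (abs_le.1 (js_le K w)).2
  rw [sub_nonneg, div_le_one (by linarith)]
  linarith

lemma Vz_pos {z : ℕ} (hz : 1 ≤ z) : 0 < Vz z := by
  have h := Vz_ge z hz
  have h2 : (0 : ℝ) < 1 / (z : ℝ) := by
    have : (0 : ℝ) < z := by exact_mod_cast hz
    positivity
  linarith

open Classical in
lemma lam_sum (z K a n : ℕ) (han : a ≤ n) :
    ∑ i ∈ Ioc a n, lamz z (vn K i) = (Vz z)⁻¹ *
      ((((Icc 1 (n - a)).filter (fun t : ℕ => ∀ p ∈ pz z, ¬ (p : ℤ) ∣ ((a : ℤ) + t) ^ 2 - (K : ℤ))).card : ℕ) : ℝ) := by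
  have h1 : ∑ i ∈ Ioc a n, lamz z (vn K i) = ∑ t ∈ Icc 1 (n - a), lamz z (vn K (a + t)) := by
    refine sum_nbij' (fun i => i - a) (fun t => a + t) ?_ ?_ ?_ ?_ ?_
    · intro i hi
      rw [mem_Ioc] at hi; rw [mem_Icc]; omega
    · intro t ht
      rw [mem_Icc] at ht; rw [mem_Ioc]; omega
    · intro i hi
      rw [mem_Ioc] at hi; omega
    · intro t ht
      omega
    · intro i hi
      rw [mem_Ioc] at hi
      show lamz z (vn K i) = lamz z (vn K (a + (i - a)))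
      rw [show a + (i - a) = i by omega]
  rw [h1, card_filter]
  push_cast
  rw [mul_sum]
  refine sum_congr rfl fun t _ => ?_
  unfold lamz
  have h2 : (∀ p ∈ pz z, ¬ p ∣ vn K (a + t)) ↔ (∀ p ∈ pz z, ¬ (p : ℤ) ∣ ((a : ℤ) + t) ^ 2 - (K : ℤ)) := by
    have h3 : ∀ p : ℕ, (p ∣ vn K (a + t)) ↔ ((p : ℤ) ∣ ((a : ℤ) + t) ^ 2 - (K : ℤ)) := by
      intro p
      unfold vn
      rw [← Int.natCast_dvd]
      push_cast
      rfl
    constructor
    · intro h p hp hd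
      exact h p hp ((h3 p).2 hd)
    · intro h p hp hd
      exact h p hp ((h3 p).1 hd)
  by_cases h4 : ∀ p ∈ pz z, ¬ p ∣ vn K (a + t)
  · rw [if_pos h4, if_pos (h2.1 h4), mul_one]
  · rw [if_neg h4, if_neg (fun h => h4 (h2.2 h)), mul_zero]

/-- the model on short and long intervals -/
theorem model : ∃ C1 y0 : ℕ, 1 ≤ C1 ∧ 2 ≤ y0 ∧ ∀ b : ℕ, C1 ≤ b → ∀ z : ℕ, y0 ≤ z → ∀ K a n : ℕ, a ≤ n →
    |∑ i ∈ Ioc a n, (lamz z (vn K i) - HP K z)| ≤
      2 * (1 / 2 : ℝ) ^ b * HP K z * ((n : ℝ) - a) + 3 * (z : ℝ) ^ (C1 * b) * HP K z := by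
  classical
  obtain ⟨C1, y0, hC1, hy0, h⟩ := flq
  refine ⟨C1, y0, hC1, hy0, fun b hb z hz K a n han => ?_⟩
  have hz1 : 1 ≤ z := by omega
  have hV := Vz_pos hz1
  have hH := HP_nonneg K z
  have hbig : ∀ c : ℕ, z ^ (C1 * b) ≤ c →
      |∑ i ∈ Ioc a (a + c), lamz z (vn K i) - c * HP K z| ≤ 2 * (1 / 2 : ℝ) ^ b * HP K z * c := by
    intro c hc
    have h1 := h b hb z hz c hc a K
    rw [lam_sum z K a (a + c) (by omega), Nat.add_sub_cancel_left]
    set cd : ℝ := ((((Icc 1 c).filter (fun t : ℕ => ∀ p ∈ pz z, ¬ (p : ℤ) ∣ ((a : ℤ) + t) ^ 2 - (K : ℤ))).card : ℕ) : ℝ)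
    have e : (Vz z)⁻¹ * cd - c * HP K z = (Vz z)⁻¹ * (cd - c * (Vz z * HP K z)) := by
      field_simp
    rw [e, abs_mul, abs_of_pos (inv_pos.2 hV)]
    calc (Vz z)⁻¹ * |cd - c * (Vz z * HP K z)| ≤ (Vz z)⁻¹ * (2 * (1 / 2 : ℝ) ^ b * (c * (Vz z * HP K z))) :=
          mul_le_mul_of_nonneg_left h1 (inv_nonneg.2 hV.le)
      _ = _ := by field_simp
  rw [sum_sub_distrib, sum_const, Nat.card_Ioc, nsmul_eq_mul, Nat.cast_sub han]
  have h2b : 0 ≤ (1 / 2 : ℝ) ^ b := by positivity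
  have h2b1 : (1 / 2 : ℝ) ^ b ≤ 1 / 2 := by
    calc (1 / 2 : ℝ) ^ b ≤ (1 / 2 : ℝ) ^ 1 := pow_le_pow_of_le_one (by norm_num) (by norm_num) (by omega)
      _ = 1 / 2 := pow_one _
  have hna : (0 : ℝ) ≤ (n : ℝ) - a := by
    rw [sub_nonneg]; exact_mod_cast han
  have hzp : (0 : ℝ) ≤ (z : ℝ) ^ (C1 * b) := by positivity
  rcases Nat.lt_or_ge (n - a) (z ^ (C1 * b)) with hlt | hge
  · have h1 := hbig (z ^ (C1 * b)) le_rfl
    set c := z ^ (C1 * b) with hc
    have hcr : (c : ℝ) = (z : ℝ) ^ (C1 * b) := by rw [hc]; push_cast; rfl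
    have h2 : ∑ i ∈ Ioc a n, lamz z (vn K i) ≤ ∑ i ∈ Ioc a (a + c), lamz z (vn K i) := by
      apply sum_le_sum_of_subset_of_nonneg
      · intro i hi
        rw [mem_Ioc] at hi ⊢
        omega
      · intro i _ _
        exact lamz_nonneg z _ hz1
    have h3 : 0 ≤ ∑ i ∈ Ioc a n, lamz z (vn K i) := sum_nonneg fun i _ => lamz_nonneg z _ hz1
    have h4 := (abs_le.1 h1).2
    have h5 : ((n : ℝ) - a) ≤ c := by
      have : ((n - a : ℕ) : ℝ) ≤ c := by exact_mod_cast hlt.le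
      rwa [Nat.cast_sub han] at this
    have h6 : ((n : ℝ) - a) * HP K z ≤ c * HP K z := mul_le_mul_of_nonneg_right h5 hH
    have h7 : 0 ≤ ((n : ℝ) - a) * HP K z := mul_nonneg hna hH
    have h8 : 2 * (1 / 2 : ℝ) ^ b * HP K z * c ≤ c * HP K z := by
      have h9 : 2 * (1 / 2 : ℝ) ^ b * (HP K z * c) ≤ 1 * (HP K z * c) := by
        apply mul_le_mul_of_nonneg_right (by linarith)
        apply mul_nonneg hH (by rw [hcr]; exact hzp)
      linarith
    have h9 : 0 ≤ 2 * (1 / 2 : ℝ) ^ b * HP K z * ((n : ℝ) - a) := by positivity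
    have h10 : 0 ≤ (c : ℝ) * HP K z := mul_nonneg (by rw [hcr]; exact hzp) hH
    rw [abs_le]
    rw [← hcr]
    constructor <;> linarith
  · have h1 := hbig (n - a) hge
    rw [show a + (n - a) = n by omega, Nat.cast_sub han] at h1
    have : 0 ≤ 3 * (z : ℝ) ^ (C1 * b) * HP K z := by positivity
    linarith

lemma vn_right (K n : ℕ) (h : Nat.sqrt K < n) : vn K (n + 1) = vn K n + 2 * n + 1 ∧ K + vn K n = n ^ 2 := by
  rw [Nat.sqrt_lt'] at h
  unfold vn
  constructor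
  · zify
    have h1 : (K : ℤ) < (n : ℤ) ^ 2 := by exact_mod_cast h
    have hn0 : (0 : ℤ) ≤ n := Int.natCast_nonneg n
    have h2 : (K : ℤ) < ((n : ℤ) + 1) ^ 2 := by nlinarith
    rw [abs_of_pos (by linarith), abs_of_pos (by linarith)]
    ring
  · zify
    have h1 : (K : ℤ) < (n : ℤ) ^ 2 := by exact_mod_cast h
    rw [abs_of_pos (by linarith)]
    ring

lemma vn_left (K n : ℕ) (h : n ≤ Nat.sqrt K) : vn K n + n ^ 2 = K := by
  rw [Nat.le_sqrt'] at h
  unfold vn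
  zify
  have h1 : (n : ℤ) ^ 2 ≤ (K : ℤ) := by exact_mod_cast h
  rw [abs_of_nonpos (by linarith)]
  ring

theorem model_w : ∃ C1 y0 : ℕ, 1 ≤ C1 ∧ 2 ≤ y0 ∧ ∀ b : ℕ, C1 ≤ b → ∀ z : ℕ, y0 ≤ z → ∀ K a n : ℕ, a ≤ n →
    (∀ i : ℕ, 2 ≤ vn K i) →
    |∑ i ∈ Ioc a n, wt (vn K i) * (lamz z (vn K i) - HP K z)| ≤
      2 * (1 / 2 : ℝ) ^ b * HP K z * ∑ i ∈ Ioc a n, wt (vn K i) + 9 * (z : ℝ) ^ (C1 * b) * HP K z := by
  obtain ⟨C1, y0, hC1, hy0, h⟩ := model
  refine ⟨C1, y0, hC1, hy0, fun b hb z hz K a n han hv => ?_⟩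
  have hH := HP_nonneg K z
  set δ : ℝ := 2 * (1 / 2 : ℝ) ^ b * HP K z with hδ
  set R : ℝ := 3 * (z : ℝ) ^ (C1 * b) * HP K z with hR
  have hδ0 : 0 ≤ δ := by positivity
  have hR0 : 0 ≤ R := by positivity
  have hw32 : ∀ i, wt (vn K i) ≤ 3 / 2 := fun i => wt_le (hv i)
  have hR9 : 9 * (z : ℝ) ^ (C1 * b) * HP K z = 3 * R := by rw [hR]; ring
  rw [hR9]
  have right : ∀ c d : ℕ, Nat.sqrt K ≤ c → c ≤ d →
      |∑ i ∈ Ioc c d, wt (vn K i) * (lamz z (vn K i) - HP K z)| ≤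
        δ * ∑ i ∈ Ioc c d, wt (vn K i) + 3 / 2 * R := by
    intro c d hc hcd
    rcases Nat.eq_or_lt_of_le hcd with heq | hlt
    · rw [heq, Ioc_self, sum_empty, sum_empty, abs_zero, mul_zero, zero_add]
      positivity
    · refine (abel_anti (fun i => wt (vn K i)) (fun i => lamz z (vn K i) - HP K z) c d hlt
        (fun i => wt_nonneg _) ?_ δ R hδ0 hR0 (fun i h1 _ => h b hb z hz K c i h1)).trans ?_
      · intro i h1 _
        apply wt_anti (hv i)
        rw [(vn_right K i (by omega)).1]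
        omega
      · have := mul_le_mul_of_nonneg_left (hw32 (c + 1)) hR0
        linarith
  have left : ∀ c d : ℕ, c ≤ d → d ≤ Nat.sqrt K →
      |∑ i ∈ Ioc c d, wt (vn K i) * (lamz z (vn K i) - HP K z)| ≤
        δ * ∑ i ∈ Ioc c d, wt (vn K i) + 3 / 2 * R := by
    intro c d hcd hd
    rcases Nat.eq_or_lt_of_le hcd with heq | hlt
    · rw [heq, Ioc_self, sum_empty, sum_empty, abs_zero, mul_zero, zero_add]
      positivity
    · refine (abel_mono (fun i => wt (vn K i)) (fun i => lamz z (vn K i) - HP K z) c d hlt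
        (fun i => wt_nonneg _) ?_ δ R hδ0 hR0 (fun i _ h2 => h b hb z hz K i d h2)).trans ?_
      · intro i _ h2
        apply wt_anti (hv (i + 1))
        have h3 := vn_left K i (by omega)
        have h4 := vn_left K (i + 1) (by omega)
        have h5 : i ^ 2 ≤ (i + 1) ^ 2 := Nat.pow_le_pow_left (by omega) 2
        omega
      · have := mul_le_mul_of_nonneg_left (hw32 d) hR0
        linarith
  rcases Nat.le_total n (Nat.sqrt K) with h1 | h1
  · have := left a n han h1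
    linarith
  · rcases Nat.le_total (Nat.sqrt K) a with h2 | h2
    · have := right a n h2 han
      linarith
    · have h3 := left a _ h2 le_rfl
      have h4 := right _ n le_rfl h1
      rw [← sum_Ioc_consecutive _ h2 h1, ← sum_Ioc_consecutive (fun i => wt (vn K i)) h2 h1]
      refine (abs_add_le _ _).trans ?_
      linarith

/-- the difference function at `|n² - K|` -/
lemma gK_eq (z K n : ℕ) (h : 2 ≤ vn K n) :
    gK z K n = (if (vn K n).Prime then 1 else 0) - lamz z (vn K n) * wt (vn K n) := by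
  unfold gK ff
  have h1 : |(n : ℤ) ^ 2 - K| = (vn K n : ℤ) := by
    unfold vn
    rw [Int.abs_eq_natAbs]
  rw [h1, if_pos (by exact_mod_cast h), Int.toNat_natCast]
  rfl

/-- one number `K` -/
theorem one_window : ∃ C1 y0 : ℕ, 1 ≤ C1 ∧ 2 ≤ y0 ∧ ∀ b : ℕ, C1 ≤ b → ∀ z : ℕ, y0 ≤ z → ∀ K a n : ℕ, a ≤ n →
    (∀ i : ℕ, 2 ≤ vn K i) →
    |(((Ioc a n).filter (fun i => (vn K i).Prime)).card : ℝ) - HP K z * ∑ i ∈ Ioc a n, wt (vn K i)| ≤
      |∑ i ∈ Ioc a n, gK z K i| +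
      2 * (1 / 2 : ℝ) ^ b * HP K z * ∑ i ∈ Ioc a n, wt (vn K i) + 9 * (z : ℝ) ^ (C1 * b) * HP K z := by
  obtain ⟨C1, y0, hC1, hy0, h⟩ := model_w
  refine ⟨C1, y0, hC1, hy0, fun b hb z hz K a n han hv => ?_⟩
  have h1 := h b hb z hz K a n han hv
  have e : (((Ioc a n).filter (fun i => (vn K i).Prime)).card : ℝ) - HP K z * ∑ i ∈ Ioc a n, wt (vn K i) =
      ∑ i ∈ Ioc a n, gK z K i + ∑ i ∈ Ioc a n, wt (vn K i) * (lamz z (vn K i) - HP K z) := by
    rw [← sum_add_distrib, card_filter]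
    push_cast
    rw [mul_sum, ← sum_sub_distrib]
    refine sum_congr rfl fun i _ => ?_
    rw [gK_eq z K i (hv i)]
    ring
  rw [e]
  refine (abs_add_le _ _).trans ?_
  linarith

end Pool.Agent.TH892.SW
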