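import Pool.Agent.TH892.SW.S2
import Pool.Agent.H373R2.T7.LamZ

/-!
The sieve model summed over the values of `n² - K` on an interval.
-/

set_option autoImplicit false

namespace Pool.Agent.TH892.SW

open Finset
open Pool.Agent.W41 (JJ JJ_lt JJ_le JJ_small)
open Pool.Agent.H373R2.T7 (pz Vz lamz mem_pz)

/-- the product over the odd primes up to `X` -/
noncomputable def HP (K : ℤ) (X : ℕ) : ℝ :=
  ∏ w ∈ (Finset.range (X + 1)).filter (fun w => Nat.Prime w ∧ w ≠ 2),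
    (1 - (jacobiSym K w : ℝ) / ((w : ℝ) - 1))

lemma sq_two : ∀ k : ZMod 2, (univ.filter (fun x : ZMod 2 => x ^ 2 = k)).card = 1 := by decide

/-- number of roots -/
lemma root_zmod (p : ℕ) (hp : p.Prime) (K : ℤ) :
    haveI : Fact p.Prime := ⟨hp⟩
    (((univ.filter (fun x : ZMod p => x ^ 2 = (K : ZMod p))).card : ℕ) : ℤ) =
      if p = 2 then 1 else 1 + jacobiSym K p := by
  haveI : Fact p.Prime := ⟨hp⟩
  split_ifs with h
  · subst h
    rw [sq_two]; rfl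
  · have h1 := legendreSym.card_sqrts p h K
    rw [← jacobiSym.legendreSym.to_jacobiSym, add_comm, ← h1]
    congr 2
    ext x
    simp

lemma root_card (p : ℕ) (hp : p.Prime) (A K : ℤ) :
    ((((range p).filter (fun a : ℕ => (p : ℤ) ∣ (A + a) ^ 2 - K)).card : ℕ) : ℝ) =
      if p = 2 then 1 else 1 + (jacobiSym K p : ℝ) := by
  haveI : Fact p.Prime := ⟨hp⟩
  have h1 := root_zmod p hp K
  have h2 : ((range p).filter (fun a : ℕ => (p : ℤ) ∣ (A + a) ^ 2 - K)).card =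
      (univ.filter (fun x : ZMod p => x ^ 2 = (K : ZMod p))).card := by
    have key : ∀ a : ℕ, ((p : ℤ) ∣ (A + a) ^ 2 - K) ↔ ((A : ZMod p) + (a : ZMod p)) ^ 2 = (K : ZMod p) := by
      intro a
      rw [← ZMod.intCast_zmod_eq_zero_iff_dvd]
      push_cast
      exact sub_eq_zero
    refine card_nbij' (fun a : ℕ => (A : ZMod p) + (a : ZMod p)) (fun x => (x - (A : ZMod p)).val) ?_ ?_ ?_ ?_
    · intro a ha
      rw [mem_coe, mem_filter] at ha
      rw [mem_coe, mem_filter]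
      exact ⟨mem_univ _, (key a).1 ha.2⟩
    · intro x hx
      rw [mem_coe, mem_filter] at hx
      rw [mem_coe, mem_filter, mem_range]
      refine ⟨ZMod.val_lt _, ?_⟩
      rw [key, ZMod.natCast_zmod_val]
      rw [add_sub_cancel]
      exact hx.2
    · intro a ha
      rw [mem_coe, mem_filter, mem_range] at ha
      simp only [add_sub_cancel_left]
      exact ZMod.val_cast_of_lt ha.1
    · intro x _
      simp only [ZMod.natCast_zmod_val, add_sub_cancel]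
  rw [h2]
  have h3 : ((((univ.filter (fun x : ZMod p => x ^ 2 = (K : ZMod p))).card : ℕ) : ℤ) : ℝ) =
      ((if p = 2 then 1 else 1 + jacobiSym K p : ℤ) : ℝ) := by rw [h1]
  rw [Int.cast_natCast] at h3
  rw [h3]
  split_ifs <;> push_cast <;> rfl

/-- the local densities -/
noncomputable def rk (K : ℤ) (p : ℕ) : ℝ := if p = 2 then 1 else 1 + (jacobiSym K p : ℝ)

lemma js_le (K : ℤ) (p : ℕ) : |(jacobiSym K p : ℝ)| ≤ 1 := by
  have h := jacobiSym.trichotomy K p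
  rcases h with h | h | h <;> rw [h] <;> simp

lemma rk_le (K : ℤ) (p : ℕ) : rk K p ≤ 2 := by
  unfold rk
  have := (abs_le.1 (js_le K p)).2
  split_ifs <;> linarith

lemma rk_nonneg (K : ℤ) (p : ℕ) : 0 ≤ rk K p := by
  unfold rk
  have := (abs_le.1 (js_le K p)).1
  split_ifs <;> linarith

lemma prod_rk (K : ℤ) (y : ℕ) : ∏ p ∈ pz y, (1 - rk K p / p) = Vz y * HP K y := by
  have h1 : HP K y = ∏ p ∈ pz y, (if p ≠ 2 then (1 - (jacobiSym K p : ℝ) / ((p : ℝ) - 1)) else 1) := by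
    unfold HP
    rw [← prod_filter]
    apply prod_congr _ fun _ _ => rfl
    ext p
    rw [mem_filter, mem_filter, mem_range, mem_pz, Nat.lt_succ_iff]
    tauto
  rw [h1]
  unfold Vz
  rw [← prod_mul_distrib]
  apply prod_congr rfl
  intro p hp
  have hp2 : (2 : ℝ) ≤ p := by exact_mod_cast (mem_pz.1 hp).2.two_le
  unfold rk
  by_cases h : p = 2
  · rw [if_pos h, if_neg (not_not.2 h), mul_one]
  · rw [if_neg h, if_pos h]
    have h3 : (p : ℝ) - 1 ≠ 0 := by linarith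
    have h4 : (p : ℝ) ≠ 0 := by linarith
    field_simp
    ring

lemma pz_succ (y : ℕ) : pz (y + 1) = if (y + 1).Prime then insert (y + 1) (pz y) else pz y := by
  ext p
  split_ifs with h
  · rw [mem_insert, mem_pz, mem_pz]
    constructor
    · rintro ⟨h1, h2⟩
      rcases Nat.lt_or_ge p (y + 1) with h3 | h3
      · right; exact ⟨by omega, h2⟩
      · left; omega
    · rintro (h1 | ⟨h1, h2⟩)
      · rw [h1]; exact ⟨le_rfl, h⟩
      · exact ⟨by omega, h2⟩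
  · rw [mem_pz, mem_pz]
    constructor
    · rintro ⟨h1, h2⟩
      refine ⟨?_, h2⟩
      rcases Nat.lt_or_ge p (y + 1) with h3 | h3
      · omega
      · exfalso; apply h; rwa [show y + 1 = p by omega]
    · rintro ⟨h1, h2⟩; exact ⟨by omega, h2⟩

/-- crude lower bound -/
lemma prod_rk_ge (K : ℤ) (y : ℕ) (hy : 1 ≤ y) : 1 / (y : ℝ) ^ 3 ≤ ∏ p ∈ pz y, (1 - rk K p / p) := by
  induction y, hy using Nat.le_induction with
  | base =>
    have : pz 1 = ∅ := by
      rw [eq_empty_iff_forall_notMem]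
      intro p hp
      rw [mem_pz] at hp
      have := hp.2.two_le
      omega
    rw [this]; simp
  | succ y hy ih =>
    have hy1 : (1 : ℝ) ≤ y := by exact_mod_cast hy
    rw [pz_succ]
    split_ifs with h
    · have hn : y + 1 ∉ pz y := by rw [mem_pz]; omega
      rw [prod_insert hn]
      have hf : (y : ℝ) ^ 3 / ((y : ℝ) + 1) ^ 3 ≤ 1 - rk K (y + 1) / ((y + 1 : ℕ) : ℝ) := by
        rcases Nat.eq_or_lt_of_le hy with h2 | h2
        · rw [← h2]
          unfold rk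
          norm_num
        · have h3 := rk_le K (y + 1)
          have hy2 : (2 : ℝ) ≤ y := by exact_mod_cast h2
          have h4 : 1 - 2 / ((y : ℝ) + 1) ≤ 1 - rk K (y + 1) / ((y + 1 : ℕ) : ℝ) := by
            push_cast
            have : rk K (y + 1) / ((y : ℝ) + 1) ≤ 2 / ((y : ℝ) + 1) :=
              div_le_div_of_nonneg_right h3 (by positivity)
            linarith
          refine le_trans ?_ h4
          have h5 : 1 - 2 / ((y : ℝ) + 1) = ((y : ℝ) - 1) / ((y : ℝ) + 1) := by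
            field_simp; ring
          rw [h5, div_le_div_iff₀ (by positivity) (by positivity)]
          have h6 : ((y : ℝ) - 1) * ((y : ℝ) + 1) ^ 3 - (y : ℝ) ^ 3 * ((y : ℝ) + 1) = ((y : ℝ) + 1) * ((y : ℝ) ^ 2 - y - 1) := by ring
          have h7 : 0 ≤ ((y : ℝ) + 1) * ((y : ℝ) ^ 2 - y - 1) := by
            apply mul_nonneg (by linarith)
            nlinarith
          linarith
      have h1 : 1 / (((y + 1 : ℕ) : ℝ)) ^ 3 = (y : ℝ) ^ 3 / ((y : ℝ) + 1) ^ 3 * (1 / (y : ℝ) ^ 3) := by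
        push_cast
        field_simp
      rw [h1]
      apply mul_le_mul hf ih (by positivity)
      exact le_trans (by positivity) hf
    · refine le_trans ?_ ih
      apply one_div_le_one_div_of_le (by positivity)
      apply pow_le_pow_left₀ (by positivity)
      push_cast; linarith

open Classical in
theorem flq : ∃ C1 y0 : ℕ, 1 ≤ C1 ∧ 2 ≤ y0 ∧ ∀ b : ℕ, C1 ≤ b → ∀ y : ℕ, y0 ≤ y → ∀ X : ℕ, y ^ (C1 * b) ≤ X →
    ∀ (A K : ℤ), |((((Icc 1 X).filter (fun t : ℕ => ∀ p ∈ pz y, ¬ (p : ℤ) ∣ (A + t) ^ 2 - K)).card : ℕ) : ℝ) -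
      X * (Vz y * HP K y)| ≤ 2 * (1 / 2 : ℝ) ^ b * (X * (Vz y * HP K y)) := by
  obtain ⟨C0, K0, hC0, hK0, hfl⟩ := fl_set 2
  refine ⟨4 * C0 + 7, K0 + 3, by omega, by omega, fun b hb y hy X hX A K => ?_⟩
  have h1 := hfl b (by omega) y (by omega) X (pz y) (fun p a => (p : ℤ) ∣ (A + a) ^ 2 - K) (by
    intro p hp
    rw [mem_pz] at hp
    refine ⟨hp.2, hp.1, ?_⟩
    have h2 := root_card p hp.2 A K
    have h3 : ((((range p).filter (fun a : ℕ => (p : ℤ) ∣ (A + a) ^ 2 - K)).card : ℕ) : ℝ) ≤ 2 := by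
      rw [h2]; exact rk_le K p
    have h3' : ((range p).filter (fun a : ℕ => (p : ℤ) ∣ (A + a) ^ 2 - K)).card ≤ 2 := by exact_mod_cast h3
    convert h3')
  have hVe : ∏ p ∈ pz y, (1 - ((((range p).filter (fun a : ℕ => (p : ℤ) ∣ (A + a) ^ 2 - K)).card : ℕ) : ℝ) / p) =
      Vz y * HP K y := by
    rw [← prod_rk]
    apply prod_congr rfl
    intro p hp
    rw [root_card p (mem_pz.1 hp).2 A K]
    rfl
  have hmod : ∀ n p : ℕ, ((p : ℤ) ∣ (A + ((n % p : ℕ) : ℤ)) ^ 2 - K) ↔ ((p : ℤ) ∣ (A + (n : ℤ)) ^ 2 - K) := by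
    intro n p
    have h3 : (A + ((n % p : ℕ) : ℤ)) ^ 2 - K ≡ (A + (n : ℤ)) ^ 2 - K [ZMOD p] := by
      apply Int.ModEq.sub_right
      apply Int.ModEq.pow
      apply Int.ModEq.add_left
      rw [Int.natCast_mod]
      exact Int.mod_modEq _ _
    rw [Int.dvd_iff_emod_eq_zero, Int.dvd_iff_emod_eq_zero, h3]
  have hset : ((Icc 1 X).filter (fun t : ℕ => ∀ p ∈ pz y, ¬ (p : ℤ) ∣ (A + t) ^ 2 - K)) =
      ((Icc 1 X).filter (fun n : ℕ => ∀ p ∈ pz y, ¬ (p : ℤ) ∣ (A + ((n % p : ℕ) : ℤ)) ^ 2 - K)) := by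
    apply filter_congr
    intro n _
    constructor
    · intro h p hp hd
      exact h p hp ((hmod n p).1 hd)
    · intro h p hp hd
      exact h p hp ((hmod n p).2 hd)
  rw [hset]
  set V := Vz y * HP K y with hV
  have h2 : |((((Icc 1 X).filter (fun n : ℕ => ∀ p ∈ pz y, ¬ (p : ℤ) ∣ (A + ((n % p : ℕ) : ℤ)) ^ 2 - K)).card : ℕ) : ℝ) - X * V| ≤
      (1 / 2 : ℝ) ^ b * (X * V) + ((JJ y : ℝ) + 2) * ((y : ℝ) ^ (2 * (C0 * b)) * (K0 * (y : ℝ) ^ (2 * (C0 * b)))) := by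
    rw [← hVe]
    convert h1 using 6 <;> congr!
  refine h2.trans ?_
  have hy1 : (1 : ℝ) ≤ y := by exact_mod_cast (by omega : 1 ≤ y)
  have hy2 : (2 : ℝ) ≤ y := by exact_mod_cast (by omega : 2 ≤ y)
  have hy0 : (0 : ℝ) < y := by linarith
  have hVlow : 1 / (y : ℝ) ^ 3 ≤ V := by
    rw [hV, ← prod_rk]; exact prod_rk_ge K y (by omega)
  have hJ : ((JJ y : ℝ) + 2) ≤ y * y := by
    have h3 : ((JJ y : ℝ) + 2) ≤ 2 * y := by exact_mod_cast JJ_small y (by omega)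
    nlinarith
  have hK0 : (K0 : ℝ) ≤ y := by exact_mod_cast (by omega : K0 ≤ y)
  have h3 : ((JJ y : ℝ) + 2) * ((y : ℝ) ^ (2 * (C0 * b)) * (K0 * (y : ℝ) ^ (2 * (C0 * b)))) ≤
      (y : ℝ) ^ (4 * (C0 * b) + 3) := by
    calc ((JJ y : ℝ) + 2) * ((y : ℝ) ^ (2 * (C0 * b)) * (K0 * (y : ℝ) ^ (2 * (C0 * b))))
        ≤ (y * y) * ((y : ℝ) ^ (2 * (C0 * b)) * (y * (y : ℝ) ^ (2 * (C0 * b)))) := by gcongr
      _ = (y : ℝ) ^ (4 * (C0 * b) + 3) := by
          rw [show 4 * (C0 * b) + 3 = 2 * (C0 * b) + 2 * (C0 * b) + 1 + 1 + 1 by ring]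
          simp only [pow_succ, pow_add]
          ring
  have h4 : (y : ℝ) ^ (4 * (C0 * b) + 3) ≤ (1 / 2 : ℝ) ^ b * (X * V) := by
    have h5 : (y : ℝ) ^ ((4 * C0 + 7) * b) ≤ X := by exact_mod_cast hX
    have h6 : (2 : ℝ) ^ b ≤ (y : ℝ) ^ b := pow_le_pow_left₀ (by norm_num) hy2 b
    have h7 : (y : ℝ) ^ ((4 * C0 + 7) * b) * (1 / (y : ℝ) ^ 3) ≤ X * V :=
      mul_le_mul h5 hVlow (by positivity) (Nat.cast_nonneg _)
    have h8 : (y : ℝ) ^ (4 * (C0 * b) + 3) * (y : ℝ) ^ b ≤ (y : ℝ) ^ ((4 * C0 + 7) * b) * (1 / (y : ℝ) ^ 3) := by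
      rw [mul_one_div, le_div_iff₀ (by positivity), ← pow_add, ← pow_add]
      apply pow_le_pow_right₀ hy1
      have : 1 ≤ b := by omega
      nlinarith
    rw [one_div, inv_pow, ← div_eq_inv_mul, le_div_iff₀ (by positivity)]
    calc (y : ℝ) ^ (4 * (C0 * b) + 3) * 2 ^ b ≤ (y : ℝ) ^ (4 * (C0 * b) + 3) * (y : ℝ) ^ b := by gcongr
      _ ≤ _ := h8.trans h7
  linarith

end Pool.Agent.TH892.SW
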