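import Pool.Agent.TH892.SW.S4
import Pool.Agent.TH892.SW.S6
import Pool.Agent.TH892.SW.S8

/-!
All windows, for all but few `K`.
-/

set_option autoImplicit false

namespace Pool.Agent.TH892.SW

open Finset Filter Topology
open Pool.Agent.H373R2.T7 (pz Vz lamz mem_pz Vz_ge Vz_inv_small)
open Pool.Agent.H442R2.EHI (evt_log_pow evt_log_ge)

lemma HP_ge (K : ℤ) (z : ℕ) : Vz z ^ 2 ≤ HP K z := by
  have h1 : HP K z = ∏ p ∈ pz z, (if p ≠ 2 then (1 - (jacobiSym K p : ℝ) / ((p : ℝ) - 1)) else 1) := by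
    unfold HP
    rw [← prod_filter]
    apply prod_congr _ fun _ _ => rfl
    ext p
    rw [mem_filter, mem_filter, mem_range, mem_pz, Nat.lt_succ_iff]
    tauto
  rw [h1]
  unfold Vz
  rw [← prod_pow]
  apply Finset.prod_le_prod
  · intro p _; positivity
  · intro p hp
    have hp2 : (2 : ℝ) ≤ p := by exact_mod_cast (mem_pz.1 hp).2.two_le
    split_ifs with h
    · have h3n : 3 ≤ p := by
        have := (mem_pz.1 hp).2.two_le
        omega
      have h3 : (3 : ℝ) ≤ p := by exact_mod_cast h3n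
      have h4 := (abs_le.1 (js_le K p)).2
      have h5 : 1 - 1 / ((p : ℝ) - 1) ≤ 1 - (jacobiSym K p : ℝ) / ((p : ℝ) - 1) := by
        have := div_le_div_of_nonneg_right h4 (show (0 : ℝ) ≤ (p : ℝ) - 1 by linarith)
        linarith
      refine le_trans ?_ h5
      have e1 : (1 - 1 / (p : ℝ)) ^ 2 = ((p : ℝ) - 1) ^ 2 / (p : ℝ) ^ 2 := by
        field_simp
      have e2 : 1 - 1 / ((p : ℝ) - 1) = ((p : ℝ) - 2) / ((p : ℝ) - 1) := by
        have : (p : ℝ) - 1 ≠ 0 := by linarith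
        field_simp
        ring
      rw [e1, e2, div_le_div_iff₀ (by positivity) (by linarith)]
      have e3 : ((p : ℝ) - 2) * (p : ℝ) ^ 2 - ((p : ℝ) - 1) ^ 2 * ((p : ℝ) - 1) = (p : ℝ) * (p - 3) + 1 := by ring
      have e4 : 0 ≤ (p : ℝ) * (p - 3) := mul_nonneg (by linarith) (by linarith)
      linarith
    · have h6 : 0 ≤ 1 - 1 / (p : ℝ) := by
        rw [sub_nonneg, div_le_one (by linarith)]; linarith
      have h7 : 1 - 1 / (p : ℝ) ≤ 1 := by
        have : 0 ≤ 1 / (p : ℝ) := by positivity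
        linarith
      exact pow_le_one₀ h6 h7

lemma E_win (K X z n₁ : ℕ) (c0 γ ρ Ymin Ymax S Lc : ℝ) (hK1 : 1 ≤ K) (hKX : K ≤ X) (hsq : ¬ IsSquare K)
    (hγ : 2 ≤ γ) (hρ : 0 ≤ ρ) (hY1 : 1 ≤ Ymin) (hg : ∀ n, |gK z K n| ≤ c0)
    (hT : ∀ s : ℤ, (s = 1 ∨ s = -1) → ∀ j : ℕ, Ymin ≤ gr γ j → (gr γ j : ℝ) ≤ Ymax →
      |TT s (Nat.sqrt (X + gr γ j) + 1) (gr γ j) (ff z) K| ≤ gr γ j * ρ)
    (hS : 1 ≤ S) (hLc : 1 ≤ Lc) (hNKS : (Nat.sqrt K : ℝ) ≤ S) (hnS : (n₁ : ℝ) ≤ S * Lc)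
    (hSY : (S * Lc) ^ 2 ≤ Ymax) (hKmax : (K : ℝ) ≤ Ymax) :
    |∑ n ∈ Ioc 0 n₁, gK z K n - ∑ n ∈ Ioc 0 (Nat.sqrt K), gK z K n| ≤
      ρ * (3 * (S * Lc)) * (|(n₁ : ℝ) - Nat.sqrt K| + 1) + c0 * (2 * (|(n₁ : ℝ) - Nat.sqrt K| + 1) / γ + 3) +
        c0 * ((2 * Ymin + 2) / Nat.sqrt K) := by
  have hc0 : 0 ≤ c0 := (abs_nonneg _).trans (hg 0)
  have hγ0 : 0 < γ := by linarith
  rcases Nat.lt_or_ge (Nat.sqrt K) n₁ with hlt | hge
  · have h1 := plus_win K X z n₁ c0 γ ρ Ymin Ymax hK1 hKX hγ hρ hY1 hg (hT 1 (Or.inl rfl)) hlt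
      ((pow_le_pow_left₀ (Nat.cast_nonneg _) hnS 2).trans hSY)
    rw [← sum_Ioc_consecutive (gK z K) (Nat.zero_le _) hlt.le, add_sub_cancel_left]
    have hd : (0 : ℝ) ≤ (n₁ : ℝ) - Nat.sqrt K := by
      rw [sub_nonneg]; exact_mod_cast hlt.le
    rw [abs_of_nonneg hd]
    set d : ℝ := (n₁ : ℝ) - Nat.sqrt K with hdd
    refine h1.trans ?_
    have h2 : ρ * (2 * n₁ * d) ≤ ρ * (3 * (S * Lc)) * (d + 1) := by
      rw [mul_assoc ρ]
      apply mul_le_mul_of_nonneg_left _ hρ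
      have h0 : 0 ≤ S * Lc := by positivity
      calc 2 * (n₁ : ℝ) * d ≤ 2 * (S * Lc) * d := by gcongr
        _ ≤ 3 * (S * Lc) * (d + 1) := by nlinarith
    have h3 : 2 * d / γ ^ 2 ≤ 2 * (d + 1) / γ := by
      rw [div_le_div_iff₀ (by positivity) hγ0]
      have h4 : 2 * d ≤ 2 * (d + 1) * γ := by nlinarith
      calc 2 * d * γ ≤ 2 * (d + 1) * γ * γ := mul_le_mul_of_nonneg_right h4 hγ0.le
        _ = 2 * (d + 1) * γ ^ 2 := by ring
    have h4 : c0 * (2 * d / γ ^ 2 + 2) + c0 * ((2 * Ymin + 2) / (Nat.sqrt K : ℝ) + 1) ≤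
        c0 * (2 * (d + 1) / γ + 3) + c0 * ((2 * Ymin + 2) / (Nat.sqrt K : ℝ)) := by
      have := mul_le_mul_of_nonneg_left h3 hc0
      linarith
    linarith
  · have h1 := minus_win K X z n₁ c0 γ ρ Ymin Ymax hK1 hKX hsq hγ hρ hY1 hg (hT (-1) (Or.inr rfl)) hge hKmax
    rw [← sum_Ioc_consecutive (gK z K) (Nat.zero_le _) hge]
    have e : ∑ n ∈ Ioc 0 n₁, gK z K n - (∑ n ∈ Ioc 0 n₁, gK z K n + ∑ n ∈ Ioc n₁ (Nat.sqrt K), gK z K n) =
        -∑ n ∈ Ioc n₁ (Nat.sqrt K), gK z K n := by ring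
    rw [e, abs_neg]
    have hd : (n₁ : ℝ) - Nat.sqrt K ≤ 0 := by
      rw [sub_nonpos]; exact_mod_cast hge
    rw [abs_of_nonpos hd]
    set d : ℝ := -((n₁ : ℝ) - Nat.sqrt K) with hdd
    have e2 : (Nat.sqrt K : ℝ) + 1 - n₁ = d + 1 := by rw [hdd]; ring
    rw [e2] at h1
    have hd0 : 0 ≤ d := by rw [hdd]; linarith
    refine h1.trans ?_
    have hSL : S ≤ S * Lc := by nlinarith
    have h2 : ρ * ((2 * (Nat.sqrt K : ℝ) + 1) * (d + 1)) ≤ ρ * (3 * (S * Lc)) * (d + 1) := by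
      rw [mul_assoc ρ]
      apply mul_le_mul_of_nonneg_left _ hρ
      apply mul_le_mul_of_nonneg_right _ (by linarith)
      linarith
    have h3 : (d + 1) / γ ≤ 2 * (d + 1) / γ := by
      apply div_le_div_of_nonneg_right _ hγ0.le
      linarith
    have h4 := mul_le_mul_of_nonneg_left h3 hc0
    have h5 : c0 * ((d + 1) / γ + 1) ≤ c0 * (2 * (d + 1) / γ + 3) := by
      rw [mul_add, mul_add]
      linarith
    linarith

open Classical in
/-- few `K` near a square -/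
lemma near_sq (X : ℕ) : (((Icc 1 X).filter (fun K : ℕ => ∃ n : ℕ, vn K n ≤ 1)).card : ℝ) ≤
    3 * ((Nat.sqrt X : ℝ) + 3) := by
  have hsub : (Icc 1 X).filter (fun K : ℕ => ∃ n : ℕ, vn K n ≤ 1) ⊆
      (range (Nat.sqrt X + 3) ×ˢ range 3).image (fun p : ℕ × ℕ => p.1 ^ 2 + p.2 - 1) := by
    intro K hK
    rw [mem_filter, mem_Icc] at hK
    obtain ⟨⟨h1, h2⟩, n, hn⟩ := hK
    rw [mem_image]
    have h3 : n ^ 2 ≤ K + 1 ∧ K ≤ n ^ 2 + 1 := by
      unfold vn at hn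
      zify at hn ⊢
      rw [abs_le] at hn
      constructor <;> linarith
    refine ⟨(n, K + 1 - n ^ 2), ?_, ?_⟩
    · rw [mem_product, mem_range, mem_range]
      refine ⟨?_, by show K + 1 - n ^ 2 < 3; omega⟩
      show n < Nat.sqrt X + 3
      by_contra hcon
      push Not at hcon
      have h4 : X < (Nat.sqrt X + 1) ^ 2 := Nat.lt_succ_sqrt' X
      have h5 : (Nat.sqrt X + 3) ^ 2 ≤ n ^ 2 := Nat.pow_le_pow_left hcon 2
      have h6 : (Nat.sqrt X + 3) ^ 2 = (Nat.sqrt X + 1) ^ 2 + 4 * Nat.sqrt X + 8 := by ring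
      omega
    · show n ^ 2 + (K + 1 - n ^ 2) - 1 = K
      omega
  have h1 := (card_le_card hsub).trans card_image_le
  rw [card_product, card_range, card_range] at h1
  calc _ ≤ (((Nat.sqrt X + 3) * 3 : ℕ) : ℝ) := by exact_mod_cast h1
    _ = _ := by push_cast; ring

/-- one number `K`: the difference function in a window -/
lemma window_K (U C B : ℕ) (X K z m N : ℕ) (L S : ℝ) (hL : 10000 ≤ L) (hS1 : 1 ≤ S) (hSS : S * S = X)
    (hSbig : L ^ (2 * C + U + 2) ≤ S) (hK1 : 1 ≤ K) (hKX : K ≤ X) (hKlow : X / L ^ (U + 1) < K)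
    (hsq : ¬ IsSquare K) (hgb : ∀ n, |gK z K n| ≤ 3 * L)
    (hTj : ∀ s : ℤ, (s = 1 ∨ s = -1) → ∀ j : ℕ, S * L ^ B ≤ gr (L ^ (C + U + 10)) j →
      (gr (L ^ (C + U + 10)) j : ℝ) ≤ X * L ^ (2 * C) →
      |TT s (Nat.sqrt (X + gr (L ^ (C + U + 10)) j) + 1) (gr (L ^ (C + U + 10)) j) (ff z) K| ≤
        gr (L ^ (C + U + 10)) j * (1 / (S * L ^ (2 * C + U + 9))))
    (hmN : m < N) (hNS : (N : ℝ) ≤ S * L ^ C) (hmK : |(m : ℝ) - √K| ≤ ((N : ℝ) - m) * L ^ C)
    (hBf : L ^ (B + 2 * U + 14) ≤ (N : ℝ) - m) :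
    |∑ i ∈ Ioc m N, gK z K i| ≤ ((N : ℝ) - m) / L ^ (U + 5) := by
  have hL0 : 0 < L := by linarith
  have hL1 : 1 ≤ L := by linarith
  have hLp0 : ∀ n : ℕ, 0 < L ^ n := fun n => by positivity
  have hLp : ∀ n : ℕ, 1 ≤ L ^ n := fun n => one_le_pow₀ hL1
  have hS0 : 0 < S := by linarith
  have hX0' : (0 : ℝ) < X := by rw [← hSS]; positivity
  have hSX : √(X : ℝ) = S := by rw [← hSS]; exact Real.sqrt_mul_self hS0.le
  have hKr : (1 : ℝ) ≤ K := by exact_mod_cast hK1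
  have hKXr : (K : ℝ) ≤ X := by exact_mod_cast hKX
  obtain ⟨NK, hNK⟩ : ∃ NK, NK = Nat.sqrt K := ⟨_, rfl⟩
  have hNK1 : 1 ≤ NK := by rw [hNK, Nat.le_sqrt']; simpa using hK1
  have hNKsq : (NK : ℝ) ≤ √(K : ℝ) := by
    apply Real.le_sqrt_of_sq_le
    rw [hNK]
    exact_mod_cast Nat.sqrt_le' K
  have hNKsq2 : √(K : ℝ) ≤ NK + 1 := by
    rw [Real.sqrt_le_left (by positivity), hNK]
    exact_mod_cast (Nat.lt_succ_sqrt' K).le
  have hNKS : (NK : ℝ) ≤ S := by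
    rw [← hSX]; exact hNKsq.trans (Real.sqrt_le_sqrt hKXr)
  have hNKlow : S / L ^ (U + 1) ≤ NK := by
    have h1 : (2 * S / L ^ (U + 1)) ^ 2 ≤ K := by
      calc (2 * S / L ^ (U + 1)) ^ 2 = 4 * (S * S) / (L ^ (U + 1) * L ^ (U + 1)) := by ring
        _ = X / L ^ (U + 1) * (4 / L ^ (U + 1)) := by rw [hSS]; field_simp
        _ ≤ X / L ^ (U + 1) * 1 := by
            apply mul_le_mul_of_nonneg_left _ (by positivity)
            rw [div_le_one (hLp0 _)]
            have : L ≤ L ^ (U + 1) := le_self_pow₀ hL1 (by omega)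
            linarith
        _ ≤ K := by rw [mul_one]; exact hKlow.le
    have h2 : 2 * S / L ^ (U + 1) ≤ √(K : ℝ) := Real.le_sqrt_of_sq_le h1
    have h3 : 1 ≤ S / L ^ (U + 1) := by
      rw [one_le_div (hLp0 _)]
      exact (pow_le_pow_right₀ hL1 (by omega)).trans hSbig
    have h4 : 2 * S / L ^ (U + 1) = S / L ^ (U + 1) + S / L ^ (U + 1) := by ring
    linarith
  have hYmin1 : 1 ≤ S * L ^ B := one_le_mul_of_one_le_of_one_le hS1 (hLp B)
  have hYm : (2 * (S * L ^ B) + 2) / NK ≤ 4 * L ^ (B + U + 1) := by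
    have h1 : (0 : ℝ) < NK := by exact_mod_cast hNK1
    rw [div_le_iff₀ h1]
    calc 2 * (S * L ^ B) + 2 ≤ 4 * (S * L ^ B) := by linarith
      _ = 4 * L ^ (B + U + 1) * (S / L ^ (U + 1)) := by
          rw [show B + U + 1 = B + (U + 1) by ring, pow_add]
          have := (hLp0 (U + 1)).ne'
          field_simp
      _ ≤ 4 * L ^ (B + U + 1) * NK := mul_le_mul_of_nonneg_left hNKlow (by positivity)
  have hSY : (S * L ^ C) ^ 2 ≤ X * L ^ (2 * C) := by
    rw [mul_pow, sq S, hSS, ← pow_mul, mul_comm C 2]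
  have hKYm : (K : ℝ) ≤ X * L ^ (2 * C) := by
    have := mul_le_mul_of_nonneg_left (hLp (2 * C)) hX0'.le
    linarith
  have hγ2 : 2 ≤ L ^ (C + U + 10) := by
    have : L ≤ L ^ (C + U + 10) := le_self_pow₀ hL1 (by omega)
    linarith
  have hEw : ∀ n₁ : ℕ, (n₁ : ℝ) ≤ S * L ^ C →
      |∑ n ∈ Ioc 0 n₁, gK z K n - ∑ n ∈ Ioc 0 NK, gK z K n| ≤
      (|(n₁ : ℝ) - NK| + 1) / L ^ (C + U + 8) + L ^ (B + U + 3) := by
    intro n₁ hn₁
    have h1 := E_win K X z n₁ (3 * L) (L ^ (C + U + 10)) (1 / (S * L ^ (2 * C + U + 9))) (S * L ^ B)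
      (X * L ^ (2 * C)) S (L ^ C) hK1 hKX hsq hγ2 (by positivity) hYmin1 hgb hTj
      hS1 (hLp C) (by rw [← hNK]; exact hNKS) hn₁ hSY hKYm
    rw [← hNK] at h1
    refine h1.trans ?_
    generalize hd : |(n₁ : ℝ) - NK| + 1 = d
    have hd0 : 0 ≤ d := by rw [← hd]; positivity
    have h2 : 1 / (S * L ^ (2 * C + U + 9)) * (3 * (S * L ^ C)) * d = d * (3 / L ^ (C + U + 9)) := by
      rw [show 2 * C + U + 9 = C + (C + U + 9) by ring, pow_add L C]
      have := (hLp0 C).ne'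
      field_simp
    have h3 : 3 * L * (2 * d / L ^ (C + U + 10) + 3) = d * (6 / L ^ (C + U + 9)) + 9 * L := by
      rw [show C + U + 10 = (C + U + 9) + 1 by ring, pow_succ L (C + U + 9)]
      have := (hLp0 (C + U + 9)).ne'
      field_simp
      ring
    have h4 : 3 * L * ((2 * (S * L ^ B) + 2) / NK) ≤ 3 * L * (4 * L ^ (B + U + 1)) :=
      mul_le_mul_of_nonneg_left hYm (by positivity)
    have h5 : 9 * L + 3 * L * (4 * L ^ (B + U + 1)) ≤ L ^ (B + U + 3) := by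
      have e : L ^ (B + U + 3) = L ^ (B + U + 1) * L * L := by ring
      rw [e]
      have h6 := hLp (B + U + 1)
      have h7 : L ≤ L ^ (B + U + 1) * L := by nlinarith
      have h8 : 21 * (L ^ (B + U + 1) * L) ≤ L * (L ^ (B + U + 1) * L) := by
        apply mul_le_mul_of_nonneg_right (by linarith) (by positivity)
      linarith
    have h6 : d * (3 / L ^ (C + U + 9)) + d * (6 / L ^ (C + U + 9)) ≤ d / L ^ (C + U + 8) := by
      rw [show C + U + 9 = (C + U + 8) + 1 by ring, pow_succ L (C + U + 8)]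
      have e : d * (3 / (L ^ (C + U + 8) * L)) + d * (6 / (L ^ (C + U + 8) * L)) = d / L ^ (C + U + 8) * (9 / L) := by
        have := (hLp0 (C + U + 8)).ne'
        field_simp
        norm_num
      rw [e]
      calc d / L ^ (C + U + 8) * (9 / L) ≤ d / L ^ (C + U + 8) * 1 := by
            apply mul_le_mul_of_nonneg_left _ (by positivity)
            rw [div_le_one hL0]; linarith
        _ = _ := mul_one _
    rw [h2, h3]
    linarith
  -- the window
  generalize hH : (N : ℝ) - m = H at *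
  have hNmr : (1 : ℝ) ≤ H := by
    have : ((m : ℝ) + 1) ≤ N := by exact_mod_cast hmN
    linarith
  have hmS : (m : ℝ) ≤ S * L ^ C := by linarith
  have hLC := hLp C
  have hdm : |(m : ℝ) - NK| ≤ H * L ^ C + 1 := by
    have h1 : |(m : ℝ) - NK| ≤ |(m : ℝ) - √K| + |√(K : ℝ) - NK| := abs_sub_le _ _ _
    have h2 : |√(K : ℝ) - NK| ≤ 1 := by rw [abs_le]; constructor <;> linarith
    linarith
  have hdN : |(N : ℝ) - NK| ≤ H * L ^ C + 1 + H := by
    have h1 : |(N : ℝ) - NK| ≤ |(N : ℝ) - m| + |(m : ℝ) - NK| := abs_sub_le _ _ _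
    have h2 : |(N : ℝ) - m| = H := by rw [hH]; exact abs_of_nonneg (by linarith)
    linarith
  have h1 := hEw N hNS
  have h2 := hEw m hmS
  have e : ∑ i ∈ Ioc m N, gK z K i = (∑ n ∈ Ioc 0 N, gK z K n - ∑ n ∈ Ioc 0 NK, gK z K n) -
      (∑ n ∈ Ioc 0 m, gK z K n - ∑ n ∈ Ioc 0 NK, gK z K n) := by
    rw [← sum_Ioc_consecutive (gK z K) (Nat.zero_le m) hmN.le]
    ring
  rw [e]
  refine (abs_sub _ _).trans ?_
  have h3 : (|(N : ℝ) - NK| + 1) / L ^ (C + U + 8) + (|(m : ℝ) - NK| + 1) / L ^ (C + U + 8) ≤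
      (7 * H * L ^ C) / L ^ (C + U + 8) := by
    rw [← add_div]
    apply div_le_div_of_nonneg_right _ (hLp0 (C + U + 8)).le
    have h4 : H ≤ H * L ^ C := by nlinarith
    have h5 : 1 ≤ H * L ^ C := by linarith
    linarith
  have h4 : (7 * H * L ^ C) / L ^ (C + U + 8) ≤ H / L ^ (U + 5) * (1 / 2) := by
    have e2 : L ^ (C + U + 8) = L ^ C * L ^ (U + 5) * (L * L * L) := by ring
    rw [e2]
    have e3 : 7 * H * L ^ C / (L ^ C * L ^ (U + 5) * (L * L * L)) = H / L ^ (U + 5) * (7 / (L * L * L)) := by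
      have := (hLp0 C).ne'
      have := (hLp0 (U + 5)).ne'
      field_simp
    rw [e3]
    apply mul_le_mul_of_nonneg_left _ (by positivity)
    rw [div_le_div_iff₀ (by positivity) (by norm_num)]
    have h5 : 1 ≤ L * L := by nlinarith
    nlinarith
  have h5 : 2 * L ^ (B + U + 3) ≤ H / L ^ (U + 5) * (1 / 2) := by
    rw [mul_one_div, div_div, le_div_iff₀ (by positivity)]
    calc 2 * L ^ (B + U + 3) * (L ^ (U + 5) * 2) = 4 * L ^ (B + 2 * U + 8) := by ring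
      _ ≤ L * L ^ (B + 2 * U + 8) := by
          apply mul_le_mul_of_nonneg_right (by linarith) (hLp0 _).le
      _ = L ^ (B + 2 * U + 9) := by ring
      _ ≤ L ^ (B + 2 * U + 14) := pow_le_pow_right₀ hL1 (by omega)
      _ ≤ H := hBf
  linarith

/-- the lower bound for the main term -/
lemma low_w (C X K m N : ℕ) (L S : ℝ) (hL : L = Real.log X) (hL1 : 1 ≤ L) (hS1 : 1 ≤ S) (hSS : S * S = X)
    (hSbig : L ^ (2 * C) ≤ S) (hKX : K ≤ X) (hvn : ∀ i, 2 ≤ vn K i) (hmN : m < N) (hNS : (N : ℝ) ≤ S * L ^ C) :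
    ((N : ℝ) - m) / (2 * L) ≤ ∑ i ∈ Ioc m N, wt (vn K i) := by
  have hX0' : (0 : ℝ) < X := by rw [← hSS]; positivity
  have hKXr : (K : ℝ) ≤ X := by exact_mod_cast hKX
  have hSX2 : S ≤ X := by rw [← hSS]; nlinarith
  have h1 : ∀ i ∈ Ioc m N, 1 / (2 * L) ≤ wt (vn K i) := by
    intro i hi
    rw [mem_Ioc] at hi
    unfold wt
    have h2 := hvn i
    have h3 : (2 : ℝ) ≤ vn K i := by exact_mod_cast h2
    have h4 : (vn K i : ℝ) ≤ (X : ℝ) ^ 2 := by
      have h6 : vn K i ≤ max (i ^ 2) K := by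
        unfold vn; zify
        rw [abs_le]
        have h7 : (0 : ℤ) ≤ (i : ℤ) ^ 2 := by positivity
        have h8 : (0 : ℤ) ≤ (K : ℤ) := Int.natCast_nonneg K
        have h9 : (i : ℤ) ^ 2 ≤ max ((i : ℤ) ^ 2) (K : ℤ) := le_max_left _ _
        have h10 : (K : ℤ) ≤ max ((i : ℤ) ^ 2) (K : ℤ) := le_max_right _ _
        constructor <;> linarith
      have h7 : (vn K i : ℝ) ≤ max ((i : ℝ) ^ 2) K := by exact_mod_cast h6
      refine h7.trans ?_
      apply max_le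
      · have h8 : (i : ℝ) ≤ S * L ^ C := by
          have : (i : ℝ) ≤ N := by exact_mod_cast hi.2
          linarith
        have h9 := pow_le_pow_left₀ (Nat.cast_nonneg i) h8 2
        have h10 : (S * L ^ C) ^ 2 = X * L ^ (2 * C) := by
          rw [mul_pow, sq S, hSS, ← pow_mul, mul_comm C 2]
        have h11 : (X : ℝ) * L ^ (2 * C) ≤ X * X := mul_le_mul_of_nonneg_left (by linarith) hX0'.le
        rw [h10] at h9
        linarith
      · have : (X : ℝ) * 1 ≤ X * X := mul_le_mul_of_nonneg_left (by linarith) hX0'.le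
        linarith
    apply one_div_le_one_div_of_le (Real.log_pos (by linarith))
    have h5 := Real.log_le_log (by linarith) h4
    rw [Real.log_pow, ← hL] at h5
    exact_mod_cast h5
  calc ((N : ℝ) - m) / (2 * L) = ∑ _i ∈ Ioc m N, 1 / (2 * L) := by
        rw [sum_const, Nat.card_Ioc, nsmul_eq_mul, Nat.cast_sub hmN.le]
        ring
    _ ≤ _ := sum_le_sum h1

/-- arithmetic of the error terms -/
lemma fin_K (U k : ℕ) (L H Sw P h cnt G Z q : ℝ) (hL : 10000 ≤ L) (hH : 0 < H) (hSw : H / (2 * L) ≤ Sw)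
    (hP : 1 / L ^ 2 ≤ P) (hh : 0 < h) (hPh : |P - h| ≤ 1 / L ^ (U + 1) * h) (hG : G ≤ H / L ^ (U + 5))
    (hq : 0 ≤ q) (hZ : Z ≤ L ^ k) (hk : L ^ (k + U + 4) ≤ H)
    (hw : |cnt - P * Sw| ≤ G + 2 * q * P * Sw + 9 * Z * P) :
    |cnt - h * Sw| ≤ (4 * q + 1 / L ^ U) * (h * Sw) := by
  have hL0 : 0 < L := by linarith
  have hL1 : 1 ≤ L := by linarith
  have hLp0 : ∀ n : ℕ, 0 < L ^ n := fun n => by positivity
  have hLp : ∀ n : ℕ, 1 ≤ L ^ n := fun n => one_le_pow₀ hL1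
  have hSw0 : 0 < Sw := lt_of_lt_of_le (by positivity) hSw
  have hP0 : 0 < P := lt_of_lt_of_le (by positivity) hP
  have e1 : G ≤ P * Sw * (2 / (L ^ 2 * L ^ U)) := by
    refine hG.trans ?_
    have h1 : H / (2 * L) * (1 / L ^ 2) ≤ Sw * P := mul_le_mul hSw hP (by positivity) hSw0.le
    calc H / L ^ (U + 5) = (H / (2 * L) * (1 / L ^ 2)) * (2 / (L ^ 2 * L ^ U)) := by
          rw [show U + 5 = U + 1 + 2 + 2 by ring, pow_add, pow_add, pow_add, pow_one]
          have := (hLp0 U).ne'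
          field_simp
      _ ≤ (Sw * P) * (2 / (L ^ 2 * L ^ U)) := mul_le_mul_of_nonneg_right h1 (by positivity)
      _ = _ := by ring
  have e3 : 9 * Z * P ≤ P * Sw * (18 / (L ^ 3 * L ^ U)) := by
    have h2 : L ^ k * (L ^ 4 * L ^ U) ≤ H := by
      refine le_trans (le_of_eq ?_) hk
      ring
    have h3 : L ^ k * (L ^ 4 * L ^ U) ≤ Sw * (2 * L) := by
      have := (div_le_iff₀ (by positivity)).1 hSw
      linarith
    have h4 : L ^ k ≤ Sw * (2 / (L ^ 3 * L ^ U)) := by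
      rw [mul_div_assoc', le_div_iff₀ (by positivity)]
      have h5 : L ^ k * (L ^ 3 * L ^ U) * L ≤ Sw * 2 * L := by
        calc _ = L ^ k * (L ^ 4 * L ^ U) := by ring
          _ ≤ Sw * (2 * L) := h3
          _ = _ := by ring
      exact le_of_mul_le_mul_right h5 hL0
    calc 9 * Z * P ≤ 9 * (Sw * (2 / (L ^ 3 * L ^ U))) * P := by
          apply mul_le_mul_of_nonneg_right _ hP0.le
          linarith
      _ = _ := by ring
  have hs1 : 2 / (L ^ 2 * L ^ U) + 18 / (L ^ 3 * L ^ U) ≤ 1 / (4 * L ^ U) := by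
    have h1 : 2 / (L ^ 2 * L ^ U) ≤ 1 / (8 * L ^ U) := by
      rw [div_le_div_iff₀ (by positivity) (by positivity)]
      have : 16 * L ^ U ≤ L ^ 2 * L ^ U := by
        apply mul_le_mul_of_nonneg_right _ (hLp0 _).le
        nlinarith
      linarith
    have h2 : 18 / (L ^ 3 * L ^ U) ≤ 1 / (8 * L ^ U) := by
      rw [div_le_div_iff₀ (by positivity) (by positivity)]
      have : 144 * L ^ U ≤ L ^ 3 * L ^ U := by
        apply mul_le_mul_of_nonneg_right _ (hLp0 _).le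
        have : L ≤ L ^ 3 := le_self_pow₀ hL1 (by norm_num)
        linarith
      linarith
    have h3 : 1 / (4 * L ^ U) = 1 / (8 * L ^ U) + 1 / (8 * L ^ U) := by
      have := (hLp0 U).ne'
      field_simp
      norm_num
    linarith
  have hmain : |cnt - P * Sw| ≤ P * Sw * (2 * q + 1 / (4 * L ^ U)) := by
    refine hw.trans ?_
    have h1 : P * Sw * (2 / (L ^ 2 * L ^ U)) + P * Sw * (18 / (L ^ 3 * L ^ U)) ≤ P * Sw * (1 / (4 * L ^ U)) := by
      rw [← mul_add]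
      exact mul_le_mul_of_nonneg_left hs1 (by positivity)
    have h2 : 2 * q * P * Sw = P * Sw * (2 * q) := by ring
    rw [h2]
    have h3 : P * Sw * (2 * q + 1 / (4 * L ^ U)) = P * Sw * (2 * q) + P * Sw * (1 / (4 * L ^ U)) := by ring
    rw [h3]
    linarith
  have hPh' := abs_le.1 hPh
  have hPh2 : P ≤ 2 * h := by
    have h1 : 1 / L ^ (U + 1) * h ≤ 1 * h := by
      apply mul_le_mul_of_nonneg_right _ hh.le
      rw [div_le_one (hLp0 _)]; exact hLp _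
    linarith [hPh'.2]
  have e4 : cnt - h * Sw = (cnt - P * Sw) + (P - h) * Sw := by ring
  rw [e4]
  refine (abs_add_le _ _).trans ?_
  rw [abs_mul, abs_of_pos hSw0]
  have h5 : |P - h| * Sw ≤ 1 / L ^ (U + 1) * h * Sw := mul_le_mul_of_nonneg_right hPh hSw0.le
  have h6 : P * Sw * (2 * q + 1 / (4 * L ^ U)) ≤ (2 * h) * Sw * (2 * q + 1 / (4 * L ^ U)) := by
    apply mul_le_mul_of_nonneg_right _ (by positivity)
    exact mul_le_mul_of_nonneg_right hPh2 hSw0.le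
  have h7 : 1 / L ^ (U + 1) * h * Sw ≤ (h * Sw) * (1 / (2 * L ^ U)) := by
    have h8 : 1 / L ^ (U + 1) ≤ 1 / (2 * L ^ U) := by
      apply one_div_le_one_div_of_le (by positivity)
      rw [pow_succ]
      have := hLp0 U
      nlinarith
    calc 1 / L ^ (U + 1) * h * Sw = (h * Sw) * (1 / L ^ (U + 1)) := by ring
      _ ≤ _ := mul_le_mul_of_nonneg_left h8 (by positivity)
  have h8 : (4 * q + 1 / L ^ U) * (h * Sw) =
      (2 * h) * Sw * (2 * q + 1 / (4 * L ^ U)) + (h * Sw) * (1 / (2 * L ^ U)) := by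
    have := (hLp0 U).ne'
    field_simp
    ring
  rw [h8]
  linarith

end Pool.Agent.TH892.SW
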