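import Pool.Agent.TH892.SW.S10

/-!
The two forms of the theorem.
-/

set_option autoImplicit false

namespace Pool.Agent.TH892.SW

open Finset Filter Topology
open Pool.Agent.H442R2.EHI (evt_log_pow evt_log_ge)

theorem both (U C : ℕ) (ε : ℝ) (hε : 0 < ε) : ∃ B X0 : ℕ, ∀ X : ℕ, X0 ≤ X → ∃ Bad : Finset ℕ, Bad ⊆ Icc 1 X ∧
    (#Bad : ℝ) ≤ X / Real.log X ^ U ∧ ∀ K ∈ Icc 1 X, K ∉ Bad → (∀ i, 2 ≤ vn K i) ∧
    ∃ h : ℝ, 0 < h ∧ Tendsto (fun N => HP K N) atTop (𝓝 h) ∧
    ∀ m N : ℕ, m < N → (N : ℝ) ≤ √X * Real.log X ^ C →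
      |(m : ℝ) - √K| ≤ ((N : ℝ) - m) * Real.log X ^ C →
      (Real.log X ^ B ≤ (N : ℝ) - m →
        |(((Ioc m N).filter (fun i => (vn K i).Prime)).card : ℝ) - h * ∑ i ∈ Ioc m N, wt (vn K i)| ≤
          ε * (h * ∑ i ∈ Ioc m N, wt (vn K i))) ∧
      (Real.exp (B * Real.log (Real.log X) ^ 2) ≤ (N : ℝ) - m →
        |(((Ioc m N).filter (fun i => (vn K i).Prime)).card : ℝ) - h * ∑ i ∈ Ioc m N, wt (vn K i)| ≤
          (h * ∑ i ∈ Ioc m N, wt (vn K i)) / Real.log X ^ U) := by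
  obtain ⟨Bf, E, C1, X1, hX1⟩ := core (U + 1) C
  obtain ⟨b0, hb0⟩ := exists_pow_lt_of_lt_one (show (0 : ℝ) < ε / 8 by positivity) (show (1 / 2 : ℝ) < 1 by norm_num)
  obtain ⟨b, hb⟩ : ∃ b, b = max b0 C1 := ⟨_, rfl⟩
  have hbε : (1 / 2 : ℝ) ^ b ≤ ε / 8 :=
    (pow_le_pow_of_le_one (by norm_num) (by norm_num) (by omega)).trans hb0.le
  obtain ⟨k0, hk0⟩ : ∃ k0, k0 = E * (C1 * b) + (U + 1) + 4 := ⟨_, rfl⟩
  obtain ⟨k1, hk1⟩ : ∃ k1, k1 = E * (C1 * (C1 + 1 + 2 * (U + 2))) + (U + 1) + 4 := ⟨_, rfl⟩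
  obtain ⟨X2, hX2⟩ := eventually_atTop.1 (evt_log_ge (max (2 / ε) 100))
  refine ⟨Bf + k0 + k1, max X1 X2, fun X hX => ?_⟩
  obtain ⟨Bad, hB1, hB2, hB3⟩ := hX1 X ((le_max_left _ _).trans hX)
  have hL := hX2 X ((le_max_right _ _).trans hX)
  have hLε : 2 / ε ≤ Real.log X := (le_max_left _ _).trans hL
  have hL100 : 100 ≤ Real.log X := (le_max_right _ _).trans hL
  generalize Real.log X = L at *
  have hL0 : 0 < L := by linarith
  have hL1 : 1 ≤ L := by linarith
  have hLp0 : ∀ n : ℕ, 0 < L ^ n := fun n => by positivity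
  refine ⟨Bad, hB1, ?_, fun K hK hKB => ?_⟩
  · refine hB2.trans ?_
    apply div_le_div_of_nonneg_left (Nat.cast_nonneg _) (hLp0 _)
    exact pow_le_pow_right₀ hL1 (by omega)
  · obtain ⟨h1, h, hh, hlim, hwin⟩ := hB3 K hK hKB
    refine ⟨h1, h, hh, hlim, fun m N hmN hN hmK => ⟨fun hB => ?_, fun hB => ?_⟩⟩
    · refine (hwin b (by omega) m N hmN hN hmK ?_ ?_).trans ?_
      · exact (pow_le_pow_right₀ hL1 (by omega)).trans hB
      · exact (pow_le_pow_right₀ hL1 (by omega)).trans hB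
      · apply mul_le_mul_of_nonneg_right
        · have h2 : 1 / L ^ (U + 1) ≤ ε / 2 := by
            have h3 : L ≤ L ^ (U + 1) := le_self_pow₀ hL1 (by omega)
            have h4 : 1 / L ≤ ε / 2 := by
              rw [div_le_div_iff₀ hL0 (by norm_num)]
              rw [div_le_iff₀ hε] at hLε
              linarith
            exact (one_div_le_one_div_of_le hL0 h3).trans h4
          linarith
        · apply mul_nonneg hh.le
          exact sum_nonneg fun i _ => wt_nonneg _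
    · set l := Real.log L with hl
      have hl1 : 1 ≤ l := by
        rw [hl, Real.le_log_iff_exp_le hL0]
        have := Real.exp_one_lt_d9
        linarith
      have hLl : Real.exp l = L := Real.exp_log hL0
      obtain ⟨b', hb'⟩ : ∃ b', b' = C1 + ⌈2 * ((U : ℝ) + 2) * l⌉₊ := ⟨_, rfl⟩
      have hb'1 : (b' : ℝ) ≤ C1 + (2 * ((U : ℝ) + 2) * l + 1) := by
        rw [hb']; push_cast
        have := Nat.ceil_lt_add_one (show 0 ≤ 2 * ((U : ℝ) + 2) * l by positivity)
        linarith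
      have hb'2 : 2 * ((U : ℝ) + 2) * l ≤ b' := by
        rw [hb']; push_cast
        have := Nat.le_ceil (2 * ((U : ℝ) + 2) * l)
        have : (0 : ℝ) ≤ C1 := Nat.cast_nonneg _
        linarith
      have hpowL : ∀ n : ℕ, L ^ n = Real.exp (n * l) := by
        intro n
        rw [Real.exp_nat_mul, hLl]
      have hll : l ≤ l ^ 2 := by nlinarith
      refine (hwin b' (by omega) m N hmN hN hmK ?_ ?_).trans ?_
      · refine le_trans ?_ hB
        rw [hpowL]
        apply Real.exp_le_exp.2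
        have : ((Bf : ℝ)) * l ≤ ((Bf + k0 + k1 : ℕ) : ℝ) * l ^ 2 := by
          apply mul_le_mul _ hll (by linarith) (Nat.cast_nonneg _)
          exact_mod_cast (by omega : Bf ≤ Bf + k0 + k1)
        exact this
      · refine le_trans ?_ hB
        rw [hpowL]
        apply Real.exp_le_exp.2
        have h3 : ((E * (C1 * b') + (U + 1) + 4 : ℕ) : ℝ) ≤ (k1 : ℝ) * l := by
          rw [hk1]
          push_cast
          have h4 : (E : ℝ) * (C1 * b') ≤ E * (C1 * (C1 + (2 * ((U : ℝ) + 2) * l + 1))) := by gcongr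
          have h5 : (E : ℝ) * (C1 * (C1 + (2 * ((U : ℝ) + 2) * l + 1))) ≤
              E * (C1 * ((C1 + 1 + 2 * ((U : ℝ) + 2)) * l)) := by
            have h6 : (C1 : ℝ) + (2 * ((U : ℝ) + 2) * l + 1) ≤ (C1 + 1 + 2 * ((U : ℝ) + 2)) * l := by
              have h7 : (0 : ℝ) ≤ C1 := Nat.cast_nonneg _
              nlinarith
            gcongr
          have h6 : ((U : ℝ) + 1) + 4 ≤ (((U : ℝ) + 1) + 4) * l := by
            have : (0 : ℝ) ≤ (U : ℝ) := Nat.cast_nonneg _
            nlinarith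
          calc (E : ℝ) * (C1 * b') + (U + 1) + 4 ≤ E * (C1 * ((C1 + 1 + 2 * ((U : ℝ) + 2)) * l)) + (((U : ℝ) + 1) + 4) * l := by
                linarith
            _ = _ := by ring
        calc ((E * (C1 * b') + (U + 1) + 4 : ℕ) : ℝ) * l ≤ (k1 : ℝ) * l * l :=
              mul_le_mul_of_nonneg_right h3 (by linarith)
          _ = (k1 : ℝ) * l ^ 2 := by ring
          _ ≤ ((Bf + k0 + k1 : ℕ) : ℝ) * l ^ 2 := by
              apply mul_le_mul_of_nonneg_right _ (by positivity)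
              exact_mod_cast (by omega : k1 ≤ Bf + k0 + k1)
      · have hlast : 4 * (1 / 2 : ℝ) ^ b' + 1 / L ^ (U + 1) ≤ 1 / L ^ U := by
          have h3 : (1 / 2 : ℝ) ^ b' ≤ 1 / L ^ (U + 1) := by
            rw [one_div_pow]
            apply one_div_le_one_div_of_le (hLp0 _)
            rw [hpowL]
            have h4 : (2 : ℝ) ^ b' = Real.exp (b' * Real.log 2) := by
              rw [Real.exp_nat_mul, Real.exp_log (by norm_num)]
            rw [h4]
            apply Real.exp_le_exp.2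
            have h5 : (0.6 : ℝ) ≤ Real.log 2 := by have := Real.log_two_gt_d9; linarith
            have h6 : (2 * ((U : ℝ) + 2) * l) * 0.6 ≤ b' * Real.log 2 :=
              mul_le_mul hb'2 h5 (by norm_num) (Nat.cast_nonneg _)
            have h7 : (0 : ℝ) ≤ U := Nat.cast_nonneg _
            push_cast
            nlinarith
          have h4 : 5 * (1 / L ^ (U + 1)) ≤ 1 / L ^ U := by
            rw [mul_one_div, div_le_div_iff₀ (hLp0 _) (hLp0 _), pow_succ]
            have := hLp0 U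
            nlinarith
          linarith
        have hM : 0 ≤ h * ∑ i ∈ Ioc m N, wt (vn K i) :=
          mul_nonneg hh.le (sum_nonneg fun i _ => wt_nonneg _)
        calc _ ≤ (1 / L ^ U) * (h * ∑ i ∈ Ioc m N, wt (vn K i)) := mul_le_mul_of_nonneg_right hlast hM
          _ = _ := by ring

end Pool.Agent.TH892.SW
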