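import Pool.Agent.TH892.SW.S9

/-!
All windows, for all but few `K`: the exceptional set.
-/

set_option autoImplicit false

namespace Pool.Agent.TH892.SW

open Finset Filter Topology
open Pool.Agent.H373R2.T7 (pz Vz lamz mem_pz Vz_ge Vz_inv_small)
open Pool.Agent.H442R2.EHI (evt_log_pow evt_log_ge)

open Classical in
/-- the exceptional set for the grid -/
lemma bad_grid (X g U C B U1 z : ℕ) (L S : ℝ) (hL : 10000 ≤ L) (hS0 : 0 < S)
    (hTX : ∀ s : ℤ, (s = 1 ∨ s = -1) → ∀ Y : ℕ, S * L ^ B ≤ Y → (Y : ℝ) ≤ X * L ^ (2 * C) →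
      (((Icc 1 X).filter (fun K : ℕ => (Y : ℝ) / (S * L ^ U1) <
        |TT s (Nat.sqrt (X + Y) + 1) Y (ff z) K|)).card : ℝ) ≤ X / L ^ (U + 2 * g + 3))
    (hX2 : X * L ^ (2 * C) + 1 ≤ (X : ℝ) ^ 2) (hX0 : (0 : ℝ) < X) (hLX : L = Real.log X) :
    ∃ Bt : Finset ℕ, Bt ⊆ Icc 1 X ∧ (#Bt : ℝ) ≤ X / L ^ (U + 1) ∧ ∀ K ∈ Icc 1 X, K ∉ Bt →
      ∀ s : ℤ, (s = 1 ∨ s = -1) → ∀ j : ℕ, S * L ^ B ≤ gr (L ^ g) j → (gr (L ^ g) j : ℝ) ≤ X * L ^ (2 * C) →
        |TT s (Nat.sqrt (X + gr (L ^ g) j) + 1) (gr (L ^ g) j) (ff z) K| ≤ gr (L ^ g) j * (1 / (S * L ^ U1)) := by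
  have hL0 : 0 < L := by linarith
  have hL1 : 1 ≤ L := by linarith
  have hLp0 : ∀ n : ℕ, 0 < L ^ n := fun n => by positivity
  obtain ⟨J, hJ⟩ : ∃ J : ℕ, J = ⌊2 * (L ^ g) ^ 2 * L⌋₊ := ⟨_, rfl⟩
  obtain ⟨T0, hT0⟩ : ∃ T0, T0 = (({1, -1} : Finset ℤ) ×ˢ range (J + 1)).filter (fun p : ℤ × ℕ =>
    S * L ^ B ≤ gr (L ^ g) p.2 ∧ (gr (L ^ g) p.2 : ℝ) ≤ X * L ^ (2 * C)) := ⟨_, rfl⟩
  refine ⟨T0.biUnion (fun p => (Icc 1 X).filter (fun K : ℕ => ((gr (L ^ g) p.2 : ℕ) : ℝ) / (S * L ^ U1) <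
      |TT p.1 (Nat.sqrt (X + gr (L ^ g) p.2) + 1) (gr (L ^ g) p.2) (ff z) K|)), ?_, ?_, ?_⟩
  · exact biUnion_subset.2 fun p _ => filter_subset _ _
  · have h2 : (#T0 : ℝ) ≤ 2 * (2 * (L ^ g) ^ 2 * L + 1) := by
      have h3 : #T0 ≤ 2 * (J + 1) := by
        rw [hT0]
        refine (card_filter_le _ _).trans ?_
        rw [card_product, card_range, show #({1, -1} : Finset ℤ) = 2 from rfl]
      calc (#T0 : ℝ) ≤ 2 * ((J : ℝ) + 1) := by exact_mod_cast h3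
        _ ≤ _ := by
            have : (J : ℝ) ≤ 2 * (L ^ g) ^ 2 * L := by rw [hJ]; exact Nat.floor_le (by positivity)
            linarith
    have h1 : (#(T0.biUnion (fun p => (Icc 1 X).filter (fun K : ℕ => ((gr (L ^ g) p.2 : ℕ) : ℝ) / (S * L ^ U1) <
      |TT p.1 (Nat.sqrt (X + gr (L ^ g) p.2) + 1) (gr (L ^ g) p.2) (ff z) K|))) : ℝ) ≤
        (#T0 : ℝ) * (X / L ^ (U + 2 * g + 3)) := by
      rw [← nsmul_eq_mul, ← sum_const]
      refine le_trans (Nat.cast_le.2 card_biUnion_le) ?_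
      push_cast
      refine sum_le_sum fun p hp => ?_
      rw [hT0, mem_filter, mem_product, mem_insert, mem_singleton] at hp
      exact hTX p.1 hp.1.1 (gr (L ^ g) p.2) hp.2.1 hp.2.2
    refine h1.trans ?_
    calc (#T0 : ℝ) * (X / L ^ (U + 2 * g + 3)) ≤ (2 * (2 * (L ^ g) ^ 2 * L + 1)) * (X / L ^ (U + 2 * g + 3)) :=
          mul_le_mul_of_nonneg_right h2 (by positivity)
      _ ≤ (L ^ (2 * g + 2)) * (X / L ^ (U + 2 * g + 3)) := by
          apply mul_le_mul_of_nonneg_right _ (by positivity)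
          have h3 : L ^ (2 * g + 2) = (L ^ g) ^ 2 * L * L := by ring
          rw [h3]
          have h4 : 1 ≤ (L ^ g) ^ 2 * L := by
            have : 1 ≤ (L ^ g) ^ 2 := one_le_pow₀ (one_le_pow₀ hL1)
            nlinarith
          nlinarith
      _ = X / L ^ (U + 1) := by
          have e : L ^ (U + 2 * g + 3) = L ^ (2 * g + 2) * L ^ (U + 1) := by ring
          rw [e]
          have h5 := (hLp0 (2 * g + 2)).ne'
          have h6 := (hLp0 (U + 1)).ne'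
          field_simp
  · intro K hK hKB s hs j hj1 hj2
    by_contra hcon
    push Not at hcon
    apply hKB
    rw [mem_biUnion]
    refine ⟨(s, j), ?_, ?_⟩
    · rw [hT0, mem_filter, mem_product, mem_insert, mem_singleton, mem_range]
      refine ⟨⟨hs, ?_⟩, hj1, hj2⟩
      show j < J + 1
      rw [Nat.lt_succ_iff, hJ]
      apply Nat.le_floor
      have h1 : Real.exp ((j : ℝ) / (L ^ g) ^ 2) < gr (L ^ g) j + 1 := Nat.lt_floor_add_one _
      have h2 : Real.exp ((j : ℝ) / (L ^ g) ^ 2) ≤ (X : ℝ) ^ 2 := by linarith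
      rw [← Real.le_log_iff_exp_le (by positivity), Real.log_pow, ← hLX] at h2
      push_cast at h2
      rw [div_le_iff₀ (by positivity)] at h2
      linarith
    · rw [mem_filter]
      refine ⟨hK, ?_⟩
      show ((gr (L ^ g) j : ℕ) : ℝ) / (S * L ^ U1) < _
      rw [mul_one_div] at hcon
      exact hcon

theorem core (U C : ℕ) : ∃ Bf E C1 X0 : ℕ, ∀ X : ℕ, X0 ≤ X → ∃ Bad : Finset ℕ, Bad ⊆ Icc 1 X ∧
    (#Bad : ℝ) ≤ X / Real.log X ^ U ∧ ∀ K ∈ Icc 1 X, K ∉ Bad → (∀ i, 2 ≤ vn K i) ∧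
    ∃ h : ℝ, 0 < h ∧ Tendsto (fun N => HP K N) atTop (𝓝 h) ∧
    ∀ b : ℕ, C1 ≤ b → ∀ m N : ℕ, m < N → (N : ℝ) ≤ √X * Real.log X ^ C →
      |(m : ℝ) - √K| ≤ ((N : ℝ) - m) * Real.log X ^ C →
      Real.log X ^ Bf ≤ (N : ℝ) - m → Real.log X ^ (E * (C1 * b) + U + 4) ≤ (N : ℝ) - m →
      |(((Ioc m N).filter (fun i => (vn K i).Prime)).card : ℝ) - h * ∑ i ∈ Ioc m N, wt (vn K i)| ≤
        (4 * (1 / 2) ^ b + 1 / Real.log X ^ U) * (h * ∑ i ∈ Ioc m N, wt (vn K i)) := by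
  classical
  obtain ⟨B, E1, hTT⟩ := TT_most (2 * C + U + 9) (U + 2 * (C + U + 10) + 3) (2 * C)
  obtain ⟨E2, hKm⟩ := hK_most (U + 1) (U + 1)
  obtain ⟨C1, y0, hC1, hy0, hwin⟩ := one_window
  obtain ⟨E, hE⟩ : ∃ E, E = max E1 E2 + 1 := ⟨_, rfl⟩
  obtain ⟨X1, hX1⟩ := hTT E (by omega)
  obtain ⟨X2, hX2⟩ := hKm E (by omega)
  obtain ⟨X3, hX3⟩ := sq_ff E
  obtain ⟨X4, hX4⟩ := Vz_inv_small E
  have hev : ∀ᶠ X : ℕ in atTop, (10000 : ℝ) ≤ Real.log X ∧ Real.log X ^ (2 * C + U + 2) ≤ (X : ℝ) ^ (1 / 2 : ℝ) ∧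
      (y0 : ℝ) + 1 ≤ Real.log X := by
    filter_upwards [evt_log_ge 10000, evt_log_pow (2 * C + U + 2) (1 / 2) (by norm_num),
      evt_log_ge ((y0 : ℝ) + 1)] with X h1 h2 h3
    exact ⟨h1, h2, h3⟩
  obtain ⟨X5, hX5⟩ := eventually_atTop.1 hev
  refine ⟨B + 2 * U + 14, E, C1, max (max (max X1 X2) (max X3 X4)) (max X5 1), fun X hX => ?_⟩
  have g1 : X1 ≤ X := le_trans (le_trans (le_trans (le_max_left _ _) (le_max_left _ _)) (le_max_left _ _)) hX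
  have g2 : X2 ≤ X := le_trans (le_trans (le_trans (le_max_right _ _) (le_max_left _ _)) (le_max_left _ _)) hX
  have g3 : X3 ≤ X := le_trans (le_trans (le_trans (le_max_left _ _) (le_max_right _ _)) (le_max_left _ _)) hX
  have g4 : X4 ≤ X := le_trans (le_trans (le_trans (le_max_right _ _) (le_max_right _ _)) (le_max_left _ _)) hX
  have g5 : X5 ≤ X := le_trans (le_trans (le_max_left _ _) (le_max_right _ _)) hX
  have g6 : 1 ≤ X := le_trans (le_trans (le_max_right _ _) (le_max_right _ _)) hX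
  obtain ⟨hL, hLS, hLy⟩ := hX5 X g5
  rw [← Real.sqrt_eq_rpow] at hLS
  obtain ⟨Bk, hBk, hKgood⟩ := hX2 X g2
  have hTX := hX1 X g1
  have hV' := hX4 X g4
  have hff' := hX3 X g3
  clear hTT hKm hX1 hX2 hX3 hX4 hX5 hev hX g1 g2 g3 g4 g5
  obtain ⟨L, hLd⟩ : ∃ L, L = Real.log X := ⟨_, rfl⟩
  rw [← hLd] at hL hLS hLy hBk hKgood hTX hV' hff' ⊢
  obtain ⟨S, hS⟩ : ∃ S, S = √(X : ℝ) := ⟨_, rfl⟩
  rw [← hS] at hLS hTX ⊢
  obtain ⟨z, hz⟩ : ∃ z, z = ⌊L ^ E⌋₊ := ⟨_, rfl⟩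
  rw [← hz] at hKgood hTX
  have hL0 : 0 < L := by linarith
  have hL1 : 1 ≤ L := by linarith
  have hLp0 : ∀ n : ℕ, 0 < L ^ n := fun n => by positivity
  have hLp : ∀ n : ℕ, 1 ≤ L ^ n := fun n => one_le_pow₀ hL1
  have hXr : (1 : ℝ) ≤ X := by exact_mod_cast g6
  have hX0' : (0 : ℝ) < X := by linarith
  have hSS : S * S = X := by rw [hS]; exact Real.mul_self_sqrt hX0'.le
  have hS1 : 1 ≤ S := by rw [hS]; exact Real.one_le_sqrt.2 hXr
  have hS0 : 0 < S := by linarith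
  -- z
  have hzle : (z : ℝ) ≤ L ^ E := by rw [hz]; exact Nat.floor_le (by positivity)
  have hLE : L ≤ L ^ E := le_self_pow₀ hL1 (by omega)
  have hzge : L ^ E - 1 ≤ z := by
    have := Nat.lt_floor_add_one (L ^ E)
    rw [← hz] at this
    linarith
  have hzy : y0 ≤ z := by
    have : (y0 : ℝ) ≤ z := by linarith
    exact_mod_cast this
  have hz1 : 1 ≤ z := by omega
  have hV := hV' z hz1 hzle
  have hVpos := Vz_pos hz1
  have hVge : 1 / L ≤ Vz z := by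
    rw [div_le_iff₀ hL0]
    have := mul_le_mul_of_nonneg_right hV hVpos.le
    rw [inv_mul_cancel₀ hVpos.ne'] at this
    linarith
  obtain ⟨hffb, -⟩ := hff' z hz1 hzle
  have hX2' : X * L ^ (2 * C) + 1 ≤ (X : ℝ) ^ 2 := by
    have h1 : L ^ (2 * C) * 2 ≤ S := by
      calc L ^ (2 * C) * 2 ≤ L ^ (2 * C) * L ^ (U + 2) := by
            apply mul_le_mul_of_nonneg_left _ (hLp0 _).le
            have : L ≤ L ^ (U + 2) := le_self_pow₀ hL1 (by omega)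
            linarith
        _ = L ^ (2 * C + U + 2) := by rw [← pow_add]; ring_nf
        _ ≤ S := hLS
    have h2 : S ≤ X := by nlinarith
    calc X * L ^ (2 * C) + 1 ≤ X * L ^ (2 * C) + X * L ^ (2 * C) := by
          have := one_le_mul_of_one_le_of_one_le hXr (hLp (2 * C))
          linarith
      _ = X * (L ^ (2 * C) * 2) := by ring
      _ ≤ X * X := by
          apply mul_le_mul_of_nonneg_left _ hX0'.le
          linarith
      _ = (X : ℝ) ^ 2 := by ring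
  obtain ⟨Bt, hBts, hBtc, hBtg⟩ := bad_grid X (C + U + 10) U C B (2 * C + U + 9) z L S hL hS0 hTX hX2' hX0' hLd
  obtain ⟨Bs, hBs⟩ : ∃ Bs, Bs = (Icc 1 X).filter (fun K : ℕ => (K : ℝ) ≤ X / L ^ (U + 1)) := ⟨_, rfl⟩
  obtain ⟨Bn, hBn⟩ : ∃ Bn, Bn = (Icc 1 X).filter (fun K : ℕ => ∃ n : ℕ, vn K n ≤ 1) := ⟨_, rfl⟩
  have hBsc : (#Bs : ℝ) ≤ X / L ^ (U + 1) := by
    have h1 : Bs ⊆ Icc 1 ⌊(X : ℝ) / L ^ (U + 1)⌋₊ := by
      intro K hK
      rw [hBs, mem_filter, mem_Icc] at hK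
      rw [mem_Icc]
      exact ⟨hK.1.1, Nat.le_floor hK.2⟩
    have h2 := card_le_card h1
    rw [Nat.card_Icc, Nat.add_sub_cancel] at h2
    calc (#Bs : ℝ) ≤ (⌊(X : ℝ) / L ^ (U + 1)⌋₊ : ℝ) := by exact_mod_cast h2
      _ ≤ _ := Nat.floor_le (by positivity)
  have hBnc : (#Bn : ℝ) ≤ X / L ^ (U + 1) := by
    rw [hBn]
    refine (near_sq X).trans ?_
    have h1 : ((Nat.sqrt X : ℕ) : ℝ) ≤ S := by
      rw [hS]
      apply Real.le_sqrt_of_sq_le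
      exact_mod_cast Nat.sqrt_le' X
    rw [le_div_iff₀ (hLp0 _), ← hSS]
    calc 3 * (((Nat.sqrt X : ℕ) : ℝ) + 3) * L ^ (U + 1) ≤ 3 * (S + 3) * L ^ (U + 1) := by gcongr
      _ ≤ (L * S) * L ^ (U + 1) := by
          apply mul_le_mul_of_nonneg_right _ (hLp0 _).le
          nlinarith
      _ = S * L ^ (U + 2) := by ring
      _ ≤ S * S := by
          apply mul_le_mul_of_nonneg_left _ hS0.le
          exact (pow_le_pow_right₀ hL1 (by omega)).trans hLS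
  refine ⟨(Bk ∩ Icc 1 X) ∪ Bt ∪ Bs ∪ Bn, ?_, ?_, ?_⟩
  · refine union_subset (union_subset (union_subset inter_subset_right hBts) ?_) ?_
    · rw [hBs]; exact filter_subset _ _
    · rw [hBn]; exact filter_subset _ _
  · have h1 : (#((Bk ∩ Icc 1 X) ∪ Bt ∪ Bs ∪ Bn) : ℝ) ≤ #Bk + #Bt + #Bs + #Bn := by
      have h2 := (card_union_le ((Bk ∩ Icc 1 X) ∪ Bt ∪ Bs) Bn)
      have h3 := (card_union_le ((Bk ∩ Icc 1 X) ∪ Bt) Bs)
      have h4 := (card_union_le (Bk ∩ Icc 1 X) Bt)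
      have h5 : #(Bk ∩ Icc 1 X) ≤ #Bk := card_le_card inter_subset_left
      exact_mod_cast (by omega : #((Bk ∩ Icc 1 X) ∪ Bt ∪ Bs ∪ Bn) ≤ #Bk + #Bt + #Bs + #Bn)
    refine h1.trans ?_
    have h2 : 4 * (X / L ^ (U + 1)) ≤ X / L ^ U := by
      rw [mul_div_assoc', div_le_div_iff₀ (hLp0 _) (hLp0 _), pow_succ]
      have : 0 ≤ (X : ℝ) * L ^ U := by positivity
      nlinarith
    linarith
  · intro K hK hKB
    rw [mem_union, mem_union, mem_union, not_or, not_or, not_or] at hKB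
    obtain ⟨⟨⟨hb1, hb2⟩, hb3⟩, hb4⟩ := hKB
    have hK' := mem_Icc.1 hK
    have hvn : ∀ i, 2 ≤ vn K i := by
      intro i
      by_contra hcon
      apply hb4
      rw [hBn, mem_filter]
      exact ⟨hK, i, by omega⟩
    have hsq : ¬ IsSquare K := by
      rintro ⟨r, hr⟩
      have h1 := hvn r
      have h2 : vn K r = 0 := by
        unfold vn
        rw [hr]; push_cast
        have : (r : ℤ) ^ 2 - r * r = 0 := by ring
        rw [this]; rfl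
      omega
    have hsqZ : ¬ IsSquare (K : ℤ) := by
      rintro ⟨r, hr⟩
      apply hsq
      refine ⟨r.natAbs, ?_⟩
      zify
      rw [abs_mul_abs_self]
      exact hr
    refine ⟨hvn, ?_⟩
    obtain ⟨h, hh0, hlim, hHPh⟩ := hKgood K hK (fun hc => hb1 (mem_inter.2 ⟨hc, hK⟩)) hsqZ
    refine ⟨h, hh0, hlim, fun b hb m N hmN hNS hmK hBf hEb => ?_⟩
    have hKlow : X / L ^ (U + 1) < K := by
      by_contra hcon
      push Not at hcon
      exact hb3 (by rw [hBs, mem_filter]; exact ⟨hK, hcon⟩)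
    have hG := window_K U C B X K z m N L S hL hS1 hSS hLS hK'.1 hK'.2 hKlow hsq (fun n => hffb _)
      (hBtg K hK hb2) hmN hNS hmK hBf
    have hH0 : (0 : ℝ) < (N : ℝ) - m := by
      rw [sub_pos]; exact_mod_cast hmN
    have hw := hwin b hb z hzy K m N hmN.le hvn
    have hlow := low_w C X K m N L S hLd hL1 hS1 hSS ((pow_le_pow_right₀ hL1 (by omega)).trans hLS) hK'.2 hvn hmN hNS
    refine fin_K U (E * (C1 * b)) L ((N : ℝ) - m) _ (HP K z) h _ _ ((z : ℝ) ^ (C1 * b)) ((1 / 2) ^ b) hL hH0 hlow ?_ hh0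
      hHPh hG (by positivity) ?_ hEb ?_
    · refine le_trans ?_ (HP_ge K z)
      rw [← one_div_pow]
      exact pow_le_pow_left₀ (by positivity) hVge 2
    · rw [pow_mul L E]
      exact pow_le_pow_left₀ (Nat.cast_nonneg _) hzle _
    · exact hw

end Pool.Agent.TH892.SW
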