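import Pool.Agent.H20R2.EN.FLem
import Pool.Agent.H373R2.T7.Cnt
import Pool.Agent.W41.Sieve

/-!
The fundamental lemma for an interval and sets of residues with at most `κ` elements (after
`Pool.Agent.W333.MH.core`).
-/

set_option autoImplicit false

namespace Pool.Agent.TH892.SW

open Finset
open Pool.Agent.W41 (JJ JJ_lt JJ_le JJ_small)

open Classical in
theorem fl_set (κ : ℕ) : ∃ C0 K0 : ℕ, 1 ≤ C0 ∧ 1 ≤ K0 ∧ ∀ b : ℕ, C0 ≤ b → ∀ y : ℕ, 2 ≤ y →
    ∀ (X : ℕ) (P : Finset ℕ) (R : ℕ → ℕ → Prop),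
    (∀ p ∈ P, p.Prime ∧ p ≤ y ∧ ((range p).filter (fun a => R p a)).card ≤ κ) →
    |(((Icc 1 X).filter (fun n => ∀ p ∈ P, ¬ R p (n % p))).card : ℝ) -
        X * ∏ p ∈ P, (1 - (((range p).filter (fun a => R p a)).card : ℝ) / p)| ≤
      (1 / 2 : ℝ) ^ b * (X * ∏ p ∈ P, (1 - (((range p).filter (fun a => R p a)).card : ℝ) / p)) +
        ((JJ y : ℝ) + 2) * ((y : ℝ) ^ (2 * (C0 * b)) * (K0 * (y : ℝ) ^ (2 * (C0 * b)))) := by
  obtain ⟨C0, hC0, hFL⟩ := Pool.Agent.H20R2.fLem κ
  set z0 := C0 + κ + 1 with hz0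
  set K0 : ℕ := ∏ p ∈ (Icc 1 z0).filter Nat.Prime, p with hK0
  have hK01 : 1 ≤ K0 := Nat.pos_of_ne_zero (prod_ne_zero_iff.2 fun p hp => (mem_filter.1 hp).2.ne_zero)
  refine ⟨C0, K0, hC0, hK01, fun b hbC y hy X P R hP => ?_⟩
  have hPp : ∀ p ∈ P, p.Prime := fun p hp => (hP p hp).1
  set r : ℕ → ℕ := fun p => ((range p).filter (fun a => R p a)).card with hr
  have hrp : ∀ p, r p ≤ p := by
    intro p
    rw [hr]
    exact (card_filter_le _ _).trans (card_range p).le
  have hrκ : ∀ p ∈ P, r p ≤ κ := fun p hp => (hP p hp).2.2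
  set V : Finset ℕ → ℝ := fun S => ∏ p ∈ S, (1 - (r p : ℝ) / p) with hVd
  have hfac : ∀ p : ℕ, 0 ≤ 1 - (r p : ℝ) / p := by
    intro p
    rw [sub_nonneg]
    apply div_le_one_of_le₀ _ (Nat.cast_nonneg _)
    exact_mod_cast hrp p
  have hV0 : ∀ S, 0 ≤ V S := fun S => prod_nonneg fun p _ => hfac p
  show |(((Icc 1 X).filter (fun n => ∀ p ∈ P, ¬ R p (n % p))).card : ℝ) - X * V P| ≤
      (1 / 2 : ℝ) ^ b * (X * V P) + _
  set J := JJ y with hJ
  set Y : ℕ := 2 ^ 2 ^ J with hY
  have hyY : y < Y := JJ_lt y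
  have hYy : Y ≤ y ^ 2 := JJ_le y (by omega)
  obtain ⟨D, hD⟩ : ∃ D : ℕ, D = (2 ^ 2 ^ J) ^ (C0 * b) := ⟨_, rfl⟩
  have hDy : D ≤ y ^ (2 * (C0 * b)) := by
    calc D ≤ (y ^ 2) ^ (C0 * b) := by rw [hD]; exact Nat.pow_le_pow_left hYy _
      _ = y ^ (2 * (C0 * b)) := by rw [← pow_mul]
  set P0 : Finset ℕ := P.filter (fun p => p ≤ z0) with hP0
  set P1 : Finset ℕ := P.filter (fun p => ¬ p ≤ z0) with hP1
  have hPu : P = P0 ∪ P1 := (filter_union_filter_not_eq _ _).symm
  have hdisj : Disjoint P0 P1 := disjoint_filter_filter_not _ _ _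
  have hPp1 : ∀ p ∈ P1, p.Prime ∧ z0 < p ∧ p ≤ Y := by
    intro p hp
    rw [hP1, mem_filter] at hp
    exact ⟨hPp p hp.1, by omega, (((hP p hp.1).2.1).trans hyY.le)⟩
  have hPp0 : ∀ p ∈ P0, p.Prime ∧ p ≤ z0 := by
    intro p hp
    rw [hP0, mem_filter] at hp
    exact ⟨hPp p hp.1, hp.2⟩
  have hV : V P = V P0 * V P1 := by
    show ∏ p ∈ P, (1 - (r p : ℝ) / p) = _
    conv_lhs => rw [hPu]
    rw [prod_union hdisj]
  have key := hFL b J z0 P1 (fun p => (r p : ℝ) / p) hbC (by omega) hPp1 (fun p hp => by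
      have hp0 : (0 : ℝ) < p := by exact_mod_cast (hPp1 p hp).1.pos
      have hp1 : (1 : ℝ) < p := by exact_mod_cast (hPp1 p hp).1.one_lt
      refine ⟨div_nonneg (Nat.cast_nonneg _) hp0.le, ?_⟩
      apply div_le_div₀ (Nat.cast_nonneg _) _ (by linarith) (by linarith)
      exact_mod_cast hrκ p (mem_filter.1 hp).1)
    ((Icc 1 X).filter (fun n => ∀ p ∈ P0, ¬ R p (n % p))) (fun _ => (1 : ℝ))
    (fun p n => R p (n % p)) ((X : ℝ) * V P0) (fun _ => (K0 * D : ℝ))
    (fun _ _ => zero_le_one) (mul_nonneg (Nat.cast_nonneg _) (hV0 _)) (by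
      intro T hT hTD
      have hTp : ∀ p ∈ T, p.Prime := fun p hp => (hPp1 p (hT hp)).1
      have hdT : Disjoint P0 T := disjoint_of_subset_right hT hdisj
      have hTP : ∀ p ∈ P0 ∪ T, p ∈ P := by
        intro p hp
        rcases mem_union.1 hp with h | h
        · exact (mem_filter.1 h).1
        · exact (mem_filter.1 (hT h)).1
      have h3 := Pool.Agent.H373R2.T7.count_sys (fun p a => if p ≤ z0 then ¬ R p a else R p a) X (P0 ∪ T)
        (fun p hp => hPp p (hTP p hp)) 1 le_rfl (fun p hp => (hPp p (hTP p hp)).one_lt.ne' ∘ Nat.dvd_one.1) 0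
      have hTz : ∀ p ∈ T, ¬ p ≤ z0 := fun p hp => by have := (hPp1 p (hT hp)).2.1; omega
      have c1 : ∀ p ∈ P0, (((range p).filter (fun a => if p ≤ z0 then ¬ R p a else R p a)).card : ℝ) = p - r p := by
        intro p hp
        simp only [if_pos (hPp0 p hp).2]
        have h4 := card_filter_add_card_filter_not (s := range p) (fun a => R p a)
        rw [card_range] at h4
        have h7 : ((r p : ℕ) : ℝ) + (((range p).filter (fun a => ¬ R p a)).card : ℝ) = p := by exact_mod_cast h4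
        linarith
      have c2 : ∀ p ∈ T, (((range p).filter (fun a => if p ≤ z0 then ¬ R p a else R p a)).card : ℝ) = r p := by
        intro p hp
        simp only [if_neg (hTz p hp)]
        rfl
      rw [prod_union hdT, prod_union hdT] at h3
      have e1 : ∏ p ∈ P0, ((((range p).filter (fun a => if p ≤ z0 then ¬ R p a else R p a)).card : ℝ) / p) = V P0 := by
        apply prod_congr rfl
        intro p hp
        rw [c1 p hp]
        have hp0 : (p : ℝ) ≠ 0 := by exact_mod_cast (hPp0 p hp).1.ne_zero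
        field_simp
      have e2 : ∏ p ∈ T, ((((range p).filter (fun a => if p ≤ z0 then ¬ R p a else R p a)).card : ℝ) / p) =
          ∏ p ∈ T, ((r p : ℝ) / p) := by
        apply prod_congr rfl
        intro p hp
        rw [c2 p hp]
      have e3 : ∏ p ∈ P0, (((range p).filter (fun a => if p ≤ z0 then ¬ R p a else R p a)).card : ℝ) ≤ K0 := by
        rw [hK0]
        push_cast
        have h5 : ∏ p ∈ P0, (((range p).filter (fun a => if p ≤ z0 then ¬ R p a else R p a)).card : ℝ) ≤ ∏ p ∈ P0, (p : ℝ) := by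
          apply prod_le_prod (fun _ _ => Nat.cast_nonneg _)
          intro p hp
          rw [c1 p hp]
          have : (0 : ℝ) ≤ r p := Nat.cast_nonneg _
          linarith
        refine h5.trans ?_
        apply prod_le_prod_of_subset_of_one_le
        · intro p hp
          rw [mem_filter, mem_Icc]
          exact ⟨⟨(hPp0 p hp).1.one_lt.le, (hPp0 p hp).2⟩, (hPp0 p hp).1⟩
        · intro p _; exact Nat.cast_nonneg _
        · intro p hp _
          exact_mod_cast (mem_filter.1 hp).2.one_lt.le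
      have e4 : ∏ p ∈ T, (((range p).filter (fun a => if p ≤ z0 then ¬ R p a else R p a)).card : ℝ) ≤ D := by
        calc ∏ p ∈ T, (((range p).filter (fun a => if p ≤ z0 then ¬ R p a else R p a)).card : ℝ)
            ≤ ∏ p ∈ T, (p : ℝ) := by
              apply prod_le_prod (fun _ _ => Nat.cast_nonneg _)
              intro p hp
              rw [c2 p hp]
              exact_mod_cast hrp p
          _ = ((∏ p ∈ T, p : ℕ) : ℝ) := by push_cast; rfl
          _ ≤ D := by
              rw [hD]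
              exact_mod_cast hTD
      rw [e1, e2, Nat.cast_one, div_one] at h3
      have e5 : ∑ m ∈ ((Icc 1 X).filter (fun n => ∀ p ∈ P0, ¬ R p (n % p))).filter (fun m => ∀ p ∈ T, R p (m % p)), (1 : ℝ) =
          (((Icc 1 X).filter (fun n => n ≡ 0 [MOD 1] ∧ ∀ p ∈ P0 ∪ T, if p ≤ z0 then ¬ R p (n % p) else R p (n % p))).card : ℝ) := by
        rw [sum_const, nsmul_eq_mul, mul_one, filter_filter]
        congr 2
        apply filter_congr
        intro n _
        constructor
        · rintro ⟨h5, h6⟩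
          refine ⟨Nat.modEq_one, fun p hp => ?_⟩
          rcases mem_union.1 hp with h | h
          · rw [if_pos (hPp0 p h).2]
            exact h5 p h
          · rw [if_neg (hTz p h)]
            exact h6 p h
        · rintro ⟨_, h5⟩
          refine ⟨?_, ?_⟩
          · intro p hp
            have h8 := h5 p (mem_union_left _ hp)
            rwa [if_pos (hPp0 p hp).2] at h8
          · intro p hp
            have h8 := h5 p (mem_union_right _ hp)
            rwa [if_neg (hTz p hp)] at h8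
      have h6 := h3.trans (mul_le_mul e3 e4 (prod_nonneg fun _ _ => Nat.cast_nonneg _) (Nat.cast_nonneg _))
      rw [← e5] at h6
      rw [mul_assoc]
      refine le_trans (le_of_eq ?_) h6
      congr 2)
  have f1 : ∑ m ∈ ((Icc 1 X).filter (fun n => ∀ p ∈ P0, ¬ R p (n % p))).filter (fun m => ∀ p ∈ P1, ¬ R p (m % p)), (1 : ℝ) =
      ((((Icc 1 X).filter (fun n : ℕ => ∀ p ∈ P, ¬ R p (n % p))).card : ℕ) : ℝ) := by
    rw [sum_const, nsmul_eq_mul, mul_one, filter_filter]
    congr 2
    apply filter_congr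
    intro n _
    conv_rhs => rw [hPu]
    constructor
    · rintro ⟨h5, h6⟩
      intro p hp
      rcases mem_union.1 hp with h | h
      · exact h5 p h
      · exact h6 p h
    · intro h
      exact ⟨fun p hp => h p (mem_union_left _ hp), fun p hp => h p (mem_union_right _ hp)⟩
  have f2 : (X : ℝ) * V P0 * ∏ p ∈ P1, (1 - (r p : ℝ) / p) = (X : ℝ) * V P := by
    rw [hV, mul_assoc]
  rw [f2] at key
  have key2 : |((((Icc 1 X).filter (fun n : ℕ => ∀ p ∈ P, ¬ R p (n % p))).card : ℕ) : ℝ) - (X : ℝ) * V P| ≤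
      (1 / 2 : ℝ) ^ b * ((X : ℝ) * V P) + ((J : ℝ) + 2) *
        ∑ T ∈ P1.powerset.filter (fun T : Finset ℕ => ∏ p ∈ T, p ≤ (2 ^ 2 ^ J) ^ (C0 * b)), (K0 * D : ℝ) := by
    rw [← f1]
    refine le_trans (le_of_eq ?_) key
    congr 2
  refine key2.trans ?_
  have hcard : (P1.powerset.filter (fun T : Finset ℕ => ∏ p ∈ T, p ≤ D)).card ≤ D := by
    calc _ ≤ (Icc 1 D).card := by
          apply card_le_card_of_injOn (fun T : Finset ℕ => ∏ p ∈ T, p)
          · intro T hT
            rw [mem_coe, mem_filter, mem_powerset] at hT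
            have h5 : 1 ≤ ∏ p ∈ T, p := Nat.pos_of_ne_zero (prod_ne_zero_iff.2 fun p hp => (hPp1 p (hT.1 hp)).1.ne_zero)
            exact mem_coe.2 (mem_Icc.2 ⟨h5, hT.2⟩)
          · intro S hS S' hS' h
            rw [mem_coe, mem_filter, mem_powerset] at hS hS'
            have hSp : ∀ p ∈ S, p.Prime := fun p hp => (hPp1 p (hS.1 hp)).1
            have hSp' : ∀ p ∈ S', p.Prime := fun p hp => (hPp1 p (hS'.1 hp)).1
            simp only at h
            ext p
            constructor
            · intro hp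
              have h1 : p ∣ ∏ p ∈ S', p := h ▸ dvd_prod_of_mem _ hp
              obtain ⟨p', hp', hd⟩ := (Nat.Prime.prime (hSp p hp)).exists_mem_finset_dvd h1
              rw [Nat.prime_dvd_prime_iff_eq (hSp p hp) (hSp' p' hp')] at hd
              exact hd ▸ hp'
            · intro hp
              have h1 : p ∣ ∏ p ∈ S, p := h ▸ dvd_prod_of_mem _ hp
              obtain ⟨p', hp', hd⟩ := (Nat.Prime.prime (hSp' p hp)).exists_mem_finset_dvd h1
              rw [Nat.prime_dvd_prime_iff_eq (hSp' p hp) (hSp p' hp')] at hd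
              exact hd ▸ hp'
      _ = D := by simp
  apply add_le_add_right
  apply mul_le_mul_of_nonneg_left _ (by positivity)
  rw [sum_const, nsmul_eq_mul]
  have hDr : (D : ℝ) ≤ (y : ℝ) ^ (2 * (C0 * b)) := by exact_mod_cast hDy
  apply mul_le_mul _ _ (by positivity) (by positivity)
  · refine le_trans ?_ hDr
    rw [← hD]
    exact_mod_cast hcard
  · exact mul_le_mul_of_nonneg_left hDr (Nat.cast_nonneg _)

end Pool.Agent.TH892.SW
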