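import Pool.Agent.TH892.CF3
import Pool.Agent.TH892.SW.S3

/-!
For all but few `K`, the product over the odd primes of `1 - (K / w) / (w - 1)` is close to its cut
product.
-/

set_option autoImplicit false

namespace Pool.Agent.TH892.SW
open Finset Filter Topology
open Pool.Agent.W468.ConjF
open Pool.Agent.TH892
open Pool.Agent.H307R2.OP (J PB badCount)
open Pool.Agent.H442R2.EHI (evt_log_pow evt_log_ge)

lemma js_four (K : ℤ) (p : ℕ) (hp : p.Prime) (h2 : p ≠ 2) :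
    jacobiSym (0 ^ 2 - 4 * 1 * -K) p = jacobiSym K p := by
  have e : (0 ^ 2 - 4 * 1 * -K : ℤ) = 2 ^ 2 * K := by ring
  rw [e, jacobiSym.mul_left, jacobiSym.pow_left]
  have h : jacobiSym 2 p ^ 2 = 1 := by
    apply jacobiSym.sq_one
    have h3 : Nat.Coprime 2 p := (Nat.coprime_primes Nat.prime_two hp).2 (Ne.symm h2)
    exact_mod_cast h3
  rw [h, one_mul]

lemma CF_HP (K : ℤ) (z : ℕ) : HP K z = 2 * CF 1 0 (-K) z := by
  unfold CF HP
  rw [if_neg (by norm_num)]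
  have h1 : (range (z + 1)).filter (fun p : ℕ => p.Prime ∧ 3 ≤ p ∧ (p : ℤ) ∣ 1 ∧ (p : ℤ) ∣ 0) = ∅ := by
    apply filter_eq_empty_iff.2
    rintro p _ ⟨h1, h2, h3, _⟩
    have h4 : p ∣ 1 := by exact_mod_cast h3
    have := Nat.le_of_dvd one_pos h4
    omega
  rw [h1, prod_empty, mul_one, ← mul_assoc, show (2 : ℝ) * (1 / 2) = 1 by norm_num, one_mul]
  have h2 : (range (z + 1)).filter (fun w => Nat.Prime w ∧ w ≠ 2) =
      (range (z + 1)).filter (fun p : ℕ => p.Prime ∧ 3 ≤ p ∧ ¬ (p : ℤ) ∣ 1) := by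
    apply filter_congr
    intro p _
    constructor
    · rintro ⟨h3, h4⟩
      refine ⟨h3, ?_, ?_⟩
      · have := h3.two_le
        omega
      · intro h5
        have h6 : p ∣ 1 := by exact_mod_cast h5
        exact h3.one_lt.ne' (Nat.dvd_one.1 h6)
    · rintro ⟨h3, h4, _⟩
      exact ⟨h3, by omega⟩
  rw [h2]
  apply prod_congr rfl
  intro p hp
  rw [mem_filter] at hp
  rw [js_four K p hp.2.1 (by omega)]

/-- all but few `K` are good on all blocks -/
theorem mid_countK (W X i0 I m : ℕ) (hi0 : 1 ≤ i0) (hm : 1 ≤ m) (hΔ3 : (4 * X) ^ 3 ≤ (2 * 2 ^ i0) ^ m) :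
    ∃ E : Finset ℕ,
      (#E : ℝ) ≤ 4 * (2 * (Nat.sqrt X : ℝ) + 3) * ((I : ℝ) * (8 * (2 * m * (I : ℝ) ^ (2 * W)) ^ m)) ∧
      ∀ K ∈ Icc 1 X, K ∉ E → ∀ i ∈ Icc i0 I,
        |∑ p ∈ Blk i, (jacobiSym (0 ^ 2 - 4 * 1 * -(K : ℤ)) p : ℝ) / p| ≤
          4 * (1 / (i : ℝ) ^ W) + 4 * (Nat.log 2 (4 * X) / 2 ^ i) := by
  classical
  set Δ := 4 * X with hΔ
  set T := ({1, -1, 2, -2} : Finset ℤ) ×ˢ range (2 * Nat.sqrt X + 3) ×ˢ BadW W Δ i0 I with hT
  set E := (Icc 1 X).filter (fun K : ℕ => ∃ s ∈ T, (4 * K : ℤ) = s.1 * (s.2.1 : ℤ) ^ 2 * s.2.2) with hE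
  refine ⟨E, ?_, ?_⟩
  · have h1 : #E ≤ #T := by
      have hex : ∀ K ∈ E, ∃ s ∈ T, (4 * K : ℤ) = s.1 * (s.2.1 : ℤ) ^ 2 * s.2.2 := by
        intro K hK
        rw [hE, mem_filter] at hK
        exact hK.2
      choose! φ hφ1 hφ2 using hex
      refine card_le_card_of_injOn φ (fun K hK => hφ1 K hK) ?_
      intro K hK K' hK' he
      have h2 := hφ2 K hK
      have h3 := hφ2 K' hK'
      rw [he, ← h3] at h2
      omega
    have h2 : #T = 4 * (2 * Nat.sqrt X + 3) * #(BadW W Δ i0 I) := by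
      rw [hT, card_product, card_product, card_range, show #({1, -1, 2, -2} : Finset ℤ) = 4 from rfl]
      ring
    calc (#E : ℝ) ≤ #T := by exact_mod_cast h1
      _ = 4 * (2 * (Nat.sqrt X : ℝ) + 3) * #(BadW W Δ i0 I) := by rw [h2]; push_cast; ring
      _ ≤ _ := mul_le_mul_of_nonneg_left (badW_card W Δ i0 I m hi0 hm hΔ3) (by positivity)
  · intro K hK hKE i hi
    have hK' := mem_Icc.1 hK
    have hDe : (0 ^ 2 - 4 * 1 * -(K : ℤ)) = 4 * (K : ℤ) := by ring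
    have hD0 : (0 ^ 2 - 4 * 1 * -(K : ℤ)) ≠ 0 := by rw [hDe]; omega
    obtain ⟨δ, s, u, hu, hD, hδ1, hδ2⟩ := kernel _ hD0
    have hle : (0 ^ 2 - 4 * 1 * -(K : ℤ)).natAbs ≤ Δ := by
      rw [hDe, hΔ]; omega
    rw [mem_Icc] at hi
    refine block_bound _ Δ hle δ s u hu hD0 hD hδ2 i (by omega) _ ?_
    by_contra hcon
    push Not at hcon
    obtain ⟨r, hr, hrτ⟩ := hcon
    apply hKE
    have hab : (0 ^ 2 - 4 * 1 * -(K : ℤ)).natAbs = u.natAbs * s ^ 2 * δ := by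
      rw [hD, Int.natAbs_mul, Int.natAbs_mul, Int.natAbs_pow]
      simp
    have hu1 : 1 ≤ u.natAbs := by
      simp only [mem_insert, mem_singleton] at hu
      rcases hu with rfl | rfl | rfl | rfl <;> norm_num
    have hδ0 : 1 ≤ δ := by omega
    have hs0 : s ≠ 0 := by
      rintro rfl
      apply hD0; rw [hD]; simp
    rw [hab] at hle
    rw [hE, mem_filter]
    refine ⟨hK, (u, s, δ), ?_, ?_⟩
    · rw [hT, mem_product, mem_product]
      refine ⟨hu, ?_, ?_⟩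
      · rw [mem_range]
        have h1 : s ^ 2 ≤ 4 * X := by
          calc s ^ 2 = 1 * s ^ 2 * 1 := by ring
            _ ≤ u.natAbs * s ^ 2 * δ := by gcongr
            _ ≤ 4 * X := hle
        have h2 : X < (Nat.sqrt X + 1) ^ 2 := Nat.lt_succ_sqrt' X
        have h3 : s ^ 2 < (2 * (Nat.sqrt X + 1)) ^ 2 := by
          calc s ^ 2 ≤ 4 * X := h1
            _ < 4 * (Nat.sqrt X + 1) ^ 2 := by omega
            _ = (2 * (Nat.sqrt X + 1)) ^ 2 := by ring
        have h4 := (Nat.pow_lt_pow_iff_left (by norm_num : 2 ≠ 0)).1 h3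
        show s < 2 * Nat.sqrt X + 3
        omega
      · show δ ∈ BadW W Δ i0 I
        rw [BadW, mem_filter, mem_range, Nat.lt_succ_iff]
        refine ⟨?_, hδ1, hδ2, i, mem_Icc.2 hi, r, hr, hrτ⟩
        have hs1 : 1 ≤ s ^ 2 := Nat.one_le_pow _ _ (Nat.pos_of_ne_zero hs0)
        calc δ = 1 * 1 * δ := by ring
          _ ≤ u.natAbs * s ^ 2 * δ := by gcongr
          _ ≤ Δ := hle
    · rw [← hD, hDe]

lemma low_K (X z Z : ℕ) (hz : 2 ≤ z) (τ : ℝ) (hτ : 0 < τ) :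
    (#((Icc 1 X).filter (fun K : ℕ => τ < |LOW 1 (0 ^ 2 - 4 * 1 * -(K : ℤ)) z Z|)) : ℝ) ≤
      (((X + 1 : ℕ) : ℝ) / z + (Z : ℝ) ^ 2) / τ ^ 2 := by
  classical
  set P := (Ioc z Z).filter (fun p : ℕ => p.Prime ∧ ¬ (p : ℤ) ∣ 1) with hP
  have hPp : ∀ p ∈ P, p.Prime ∧ p ≠ 2 ∧ z < p ∧ p ≤ Z ∧ ¬ (p : ℤ) ∣ (4 : ℤ) := by
    intro p hp
    rw [hP, mem_filter, mem_Ioc] at hp
    refine ⟨hp.2.1, by omega, hp.1.1, hp.1.2, ?_⟩
    intro h2
    have h3 : p ∣ 2 ^ 2 := by exact_mod_cast h2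
    have := Nat.le_of_dvd (by norm_num) (hp.2.1.dvd_of_dvd_pow h3)
    omega
  refine le_trans ?_ (low_count 0 4 P z Z (X + 1) (by omega) hPp τ hτ)
  have hle : (Icc 1 X).filter (fun K : ℕ => τ < |LOW 1 (0 ^ 2 - 4 * 1 * -(K : ℤ)) z Z|) ⊆
      (range (X + 1)).filter (fun c : ℕ => τ < |∑ p ∈ P, (jacobiSym (0 + 4 * c) p : ℝ) / p|) := by
    intro c hc
    rw [mem_filter, mem_Icc] at hc
    rw [mem_filter, mem_range]
    refine ⟨by omega, ?_⟩
    have e : (0 + 4 * (c : ℤ)) = 0 ^ 2 - 4 * 1 * -(c : ℤ) := by ring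
    rw [e]
    exact hc.2
  exact_mod_cast card_le_card hle

theorem hp_most (U V : ℕ) : ∃ E1 : ℕ, ∀ E : ℕ, E1 ≤ E → ∃ X0 : ℕ, ∀ X : ℕ, X0 ≤ X →
    ∃ B : Finset ℕ, (#B : ℝ) ≤ (X : ℝ) / Real.log X ^ U ∧
    ∀ K ∈ Icc 1 X, K ∉ B → ¬ IsSquare (K : ℤ) →
      ∀ᶠ N in atTop, |Real.log (CF 1 0 (-(K : ℤ)) N) -
        Real.log (CF 1 0 (-(K : ℤ)) ⌊Real.log X ^ E⌋₊)| ≤ 1 / Real.log X ^ V := by
  classical
  set W : ℕ := V + 2 with hW
  have hW1 : 1 ≤ W := by omega
  obtain ⟨n₁, hn₁⟩ := tail (2 * (200 * W + 1))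
  set C2 : ℝ := 16 * 20 ^ 10 * 2 ^ (20 * W) with hC2
  have hC20 : 0 < C2 := by positivity
  refine ⟨2 * V + U + 3, fun E hE => ?_⟩
  have hWr : (0:ℝ) < 200 * W := by positivity
  set κ : ℝ := 1 / (200 * W) with hκ
  have hκ0 : 0 < κ := by positivity
  have hev : ∀ᶠ H : ℕ in atTop, 5000 + 64 * 3 ^ (V + 1) + 64 * C2 + n₁ ≤ Real.log H ∧
      Real.log H ^ (E + 1) ≤ (H:ℝ) ^ κ ∧ Real.log H ^ (U + 1) ≤ (H:ℝ) ^ κ ∧
      Real.log H ^ (V + 2) ≤ (H:ℝ) ^ κ ∧ 1 ≤ H := by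
    filter_upwards [evt_log_ge (5000 + 64 * 3 ^ (V + 1) + 64 * C2 + n₁),
      evt_log_pow (E + 1) κ hκ0, evt_log_pow (U + 1) κ hκ0, evt_log_pow (V + 2) κ hκ0,
      eventually_ge_atTop 1] with H h1 h2 h3 h4 h5
    exact ⟨h1, h2, h3, h4, h5⟩
  obtain ⟨H0, hH0⟩ := eventually_atTop.mp hev
  refine ⟨H0, fun H hH => ?_⟩
  obtain ⟨hL, hLE, hLU, hLV, hH1⟩ := hH0 H hH
  set L := Real.log H with hLd
  set z := ⌊L ^ E⌋₊ with hz
  set t : ℝ := (H:ℝ) ^ κ with ht
  have h3V : (0:ℝ) < 64 * 3 ^ (V + 1) := by positivity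
  have hCC : (0:ℝ) < 64 * C2 := by positivity
  have hn₁0 : (0:ℝ) ≤ n₁ := Nat.cast_nonneg _
  have hL5 : 5000 ≤ L := by linarith
  have hL0 : 0 < L := by linarith
  have hL1 : 1 ≤ L := by linarith
  have hLp0 : ∀ n : ℕ, 0 < L ^ n := fun n => by positivity
  have hLp : ∀ n : ℕ, 1 ≤ L ^ n := fun n => one_le_pow₀ hL1
  have hHr : (1:ℝ) ≤ H := by exact_mod_cast hH1
  have hH0' : (0:ℝ) < H := by linarith
  -- t
  have hLt : L ≤ t := by
    refine le_trans ?_ hLV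
    exact le_self_pow₀ hL1 (by omega)
  have ht1 : 1 ≤ t := hL1.trans hLt
  have ht0 : 0 < t := by linarith
  have htp : ∀ n : ℕ, 1 ≤ t ^ n := fun n => one_le_pow₀ ht1
  have ht200 : t ^ (200 * W) = H := by
    rw [ht, ← Real.rpow_natCast, ← Real.rpow_mul hH0'.le, hκ]
    push_cast
    rw [one_div, inv_mul_cancel₀ hWr.ne', Real.rpow_one]
  -- I
  set I := ⌈t⌉₊ with hI
  have htI : t ≤ I := Nat.le_ceil t
  have hI2t : (I : ℝ) ≤ 2 * t := by
    have := Nat.ceil_lt_add_one (show 0 ≤ t by linarith)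
    linarith
  have hI20 : 20 ≤ I := by
    have : (20:ℝ) ≤ I := by linarith
    exact_mod_cast this
  have hn₁I : n₁ ≤ I := by
    have : (n₁:ℝ) ≤ I := by linarith
    exact_mod_cast this
  -- i0
  set i0 := Nat.log 2 H / 3 with hi0
  have hlog1 := natlog_le H hH1
  have hlog2 := le_natlog H hH1
  rw [← hLd] at hlog1 hlog2
  have hdm : Nat.log 2 H < 3 * (i0 + 1) := by
    have := Nat.div_add_mod (Nat.log 2 H) 3
    have := Nat.mod_lt (Nat.log 2 H) (show 0 < 3 by norm_num)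
    omega
  have hi0L : L / 3 ≤ (i0:ℝ) - 1 := by
    have h1 : (Nat.log 2 H : ℝ) ≤ 3 * (i0 + 1) := by exact_mod_cast hdm.le
    linarith
  have hi0le : (i0:ℝ) ≤ L := by
    have h1 : ((Nat.log 2 H / 3 : ℕ) : ℝ) ≤ (Nat.log 2 H : ℝ) / 3 := by
      exact_mod_cast Nat.cast_div_le
    rw [hi0]
    linarith [(Nat.cast_nonneg (Nat.log 2 H) : (0:ℝ) ≤ _)]
  have hi02 : 2 ≤ i0 := by
    have : (2:ℝ) ≤ i0 := by linarith
    exact_mod_cast this
  have hi0I : i0 ≤ I := by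
    have : (i0:ℝ) ≤ I := by linarith
    exact_mod_cast this
  have hp1 : (2 ^ i0) ^ 3 ≤ H := by
    rw [← pow_mul]
    calc 2 ^ (i0 * 3) ≤ 2 ^ Nat.log 2 H := Nat.pow_le_pow_right (by norm_num) (Nat.div_mul_le_self _ _)
      _ ≤ H := Nat.pow_log_le_self 2 (by omega)
  have hp2 : H ≤ (2 * 2 ^ i0) ^ 3 := by
    have h1 : H < 2 ^ (Nat.log 2 H + 1) := Nat.lt_pow_succ_log_self (by norm_num) H
    calc H ≤ 2 ^ (Nat.log 2 H + 1) := h1.le
      _ ≤ 2 ^ (3 * (i0 + 1)) := Nat.pow_le_pow_right (by norm_num) (by omega)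
      _ = (2 * 2 ^ i0) ^ 3 := by rw [← pow_succ', ← pow_mul]; ring_nf
  -- 2^i0 is at least t^2/2
  have h2i : t ^ (66 * W) ≤ 2 * 2 ^ i0 := by
    have h1 : (t ^ (66 * W)) ^ 3 ≤ (2 * (2:ℝ) ^ i0) ^ 3 := by
      calc (t ^ (66 * W)) ^ 3 = t ^ (198 * W) := by rw [← pow_mul]; ring_nf
        _ ≤ t ^ (200 * W) := pow_le_pow_right₀ ht1 (by omega)
        _ = H := ht200
        _ ≤ (2 * (2:ℝ) ^ i0) ^ 3 := by exact_mod_cast hp2
    exact (pow_le_pow_iff_left₀ (by positivity) (by positivity) (by norm_num)).1 h1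
  have ht2i : t ^ 2 ≤ 2 * 2 ^ i0 := (pow_le_pow_right₀ ht1 (by omega)).trans h2i
  have htt : 5000 * t ≤ t ^ 2 := by
    rw [sq]; exact mul_le_mul_of_nonneg_right (by linarith) ht0.le
  have ht2 : t ≤ 2 ^ i0 := by linarith
  -- z
  have hLE1 : L ≤ L ^ E := le_self_pow₀ hL1 (by omega)
  have hzlow : L ^ E / 2 ≤ z := by
    have := Nat.lt_floor_add_one (L ^ E)
    rw [← hz] at this
    linarith
  have hz0 : (0:ℝ) < z := by linarith
  have hz2 : 2 ≤ z := by
    have : (2:ℝ) ≤ z := by linarith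
    exact_mod_cast this
  have hzt : (z:ℝ) ≤ t := by
    have h1 : (z:ℝ) ≤ L ^ E := Nat.floor_le (by positivity)
    exact (h1.trans (pow_le_pow_right₀ hL1 (by omega))).trans hLE
  have hzZ : z ≤ 2 ^ i0 := by
    have : (z:ℝ) ≤ ((2 ^ i0 : ℕ) : ℝ) := by push_cast; linarith
    exact_mod_cast this
  -- the first exceptional set
  set τ : ℝ := 1 / (4 * L ^ V) with hτ
  have hτ0 : 0 < τ := by positivity
  set X1 := (Icc 1 H).filter (fun K : ℕ => τ < |LOW 1 (0 ^ 2 - 4 * 1 * -(K : ℤ)) z (2 ^ i0)|) with hX1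
  have hX1c : (#X1 : ℝ) ≤ (H : ℝ) / (2 * L ^ U) := by
    refine (low_K H z (2 ^ i0) hz2 τ hτ0).trans ?_
    set Y : ℝ := ((H + 1 : ℕ) : ℝ) with hY
    have hYH : (H:ℝ) ≤ Y := by rw [hY]; push_cast; linarith
    have hY2 : Y ≤ 2 * H := by rw [hY]; push_cast; linarith
    have hY0 : 0 < Y := by linarith
    have h1 : (((2 ^ i0 : ℕ) : ℝ)) ^ 2 ≤ Y / z := by
      rw [le_div_iff₀ hz0]
      have h3 : (2 ^ i0) ^ 2 * z ≤ H := by
        calc (2 ^ i0) ^ 2 * z ≤ (2 ^ i0) ^ 2 * 2 ^ i0 := Nat.mul_le_mul_left _ hzZ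
          _ = (2 ^ i0) ^ 3 := by ring
          _ ≤ H := hp1
      have h4 : (((2 ^ i0 : ℕ) : ℝ)) ^ 2 * z ≤ H := by exact_mod_cast h3
      linarith
    have h2 : 1 / (z:ℝ) ≤ 2 / L ^ (2 * V + U + 3) := by
      rw [div_le_div_iff₀ hz0 (hLp0 _)]
      have : L ^ (2 * V + U + 3) ≤ L ^ E := pow_le_pow_right₀ hL1 hE
      linarith
    calc (Y / z + (((2 ^ i0 : ℕ) : ℝ)) ^ 2) / τ ^ 2 ≤ (2 * (Y * (1 / z))) / τ ^ 2 := by
          apply div_le_div_of_nonneg_right _ (by positivity)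
          have : Y / z = Y * (1 / z) := by ring
          linarith
      _ ≤ (2 * ((2 * H) * (2 / L ^ (2 * V + U + 3)))) / τ ^ 2 := by gcongr
      _ = H / (2 * L ^ U) * (256 / L ^ 3) := by
          rw [hτ, show 2 * V + U + 3 = V + V + U + 3 by ring, pow_add, pow_add, pow_add]
          field_simp
          ring
      _ ≤ H / (2 * L ^ U) * 1 := by
          apply mul_le_mul_of_nonneg_left _ (by positivity)
          rw [div_le_one (by positivity)]
          have : L ≤ L ^ 3 := le_self_pow₀ hL1 (by norm_num)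
          linarith
      _ = _ := mul_one _
  -- the second exceptional set
  have hΔ3 : (4 * H) ^ 3 ≤ (2 * 2 ^ i0) ^ 10 := by
    have h1 : 64 ≤ 2 * 2 ^ i0 := by
      have h2 : (64:ℝ) ≤ 2 * 2 ^ i0 := by linarith
      exact_mod_cast h2
    calc (4 * H) ^ 3 = 64 * H ^ 3 := by ring
      _ ≤ (2 * 2 ^ i0) * ((2 * 2 ^ i0) ^ 3) ^ 3 := Nat.mul_le_mul h1 (Nat.pow_le_pow_left hp2 3)
      _ = (2 * 2 ^ i0) ^ 10 := by ring
  obtain ⟨X2, hX2c, hX2⟩ := mid_countK W H i0 I 10 (by omega) (by norm_num) hΔ3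
  have hIt : (I : ℝ) * (8 * (2 * ((10 : ℕ) : ℝ) * (I : ℝ) ^ (2 * W)) ^ 10) ≤ C2 * t ^ (21 * W) := by
    calc (I : ℝ) * (8 * (2 * ((10 : ℕ) : ℝ) * (I : ℝ) ^ (2 * W)) ^ 10)
        ≤ (2 * t) * (8 * (2 * ((10 : ℕ) : ℝ) * (2 * t) ^ (2 * W)) ^ 10) := by gcongr
      _ = C2 * (t * t ^ (20 * W)) := by
          have h1 : ((2 * t) ^ (2 * W)) ^ 10 = 2 ^ (20 * W) * t ^ (20 * W) := by
            rw [← pow_mul, show 2 * W * 10 = 20 * W by ring, mul_pow]
          have h2 : (2 * ((10 : ℕ) : ℝ) * (2 * t) ^ (2 * W)) ^ 10 =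
              20 ^ 10 * ((2 * t) ^ (2 * W)) ^ 10 := by
            rw [← mul_pow]; norm_num
          rw [h2, h1, hC2]
          ring
      _ ≤ C2 * (t ^ W * t ^ (20 * W)) := by
          have : t ≤ t ^ W := le_self_pow₀ ht1 (by omega)
          gcongr
      _ = C2 * t ^ (21 * W) := by rw [← pow_add]; ring_nf
  have hsqrt : (Nat.sqrt H : ℝ) ≤ t ^ (100 * W) := by
    have h1 : ((Nat.sqrt H : ℕ) : ℝ) ^ 2 ≤ (t ^ (100 * W)) ^ 2 := by
      rw [← pow_mul, show 100 * W * 2 = 200 * W by ring, ht200]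
      exact_mod_cast Nat.sqrt_le' H
    exact (pow_le_pow_iff_left₀ (by positivity) (by positivity) (by norm_num)).1 h1
  have hX2c' : (#X2 : ℝ) ≤ (H : ℝ) / (2 * L ^ U) := by
    refine hX2c.trans ?_
    have hkey : 40 * C2 * t ^ (121 * W) * L ^ U ≤ H := by
      have h1 : 40 * C2 * L ^ U ≤ t := by
        calc 40 * C2 * L ^ U ≤ L * L ^ U := by
              apply mul_le_mul_of_nonneg_right _ (hLp0 _).le
              linarith
          _ = L ^ (U + 1) := by ring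
          _ ≤ t := hLU
      calc 40 * C2 * t ^ (121 * W) * L ^ U = (40 * C2 * L ^ U) * t ^ (121 * W) := by ring
        _ ≤ t * t ^ (121 * W) := by gcongr
        _ = t ^ (1 + 121 * W) := by rw [pow_add, pow_one]
        _ ≤ t ^ (200 * W) := pow_le_pow_right₀ ht1 (by omega)
        _ = H := ht200
    have h5 : 2 * (Nat.sqrt H : ℝ) + 3 ≤ 5 * t ^ (100 * W) := by
      have := htp (100 * W)
      linarith
    calc 4 * (2 * (Nat.sqrt H : ℝ) + 3) * ((I : ℝ) * (8 * (2 * ((10 : ℕ) : ℝ) * (I : ℝ) ^ (2 * W)) ^ 10))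
        ≤ 4 * (5 * t ^ (100 * W)) * (C2 * t ^ (21 * W)) := by gcongr
      _ = 20 * C2 * t ^ (121 * W) := by
          rw [show 121 * W = 100 * W + 21 * W by ring, pow_add]
          ring
      _ ≤ H / (2 * L ^ U) := by
          rw [le_div_iff₀ (by positivity)]
          linarith
  refine ⟨X1 ∪ X2, ?_, ?_⟩
  · calc (#(X1 ∪ X2) : ℝ) ≤ #X1 + #X2 := by exact_mod_cast card_union_le _ _
      _ ≤ (H : ℝ) / (2 * L ^ U) + (H : ℝ) / (2 * L ^ U) := add_le_add hX1c hX2c'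
      _ = _ := by field_simp; ring
  · intro K hK hKX hsq0
    rw [mem_union, not_or] at hKX
    have hK' := mem_Icc.1 hK
    set D : ℤ := 0 ^ 2 - 4 * 1 * -(K : ℤ) with hDd
    have hDe : D = 4 * (K : ℤ) := by rw [hDd]; ring
    have hsq : ¬ IsSquare D := by
      intro h
      apply hsq0
      rw [hDe] at h
      obtain ⟨r, hr⟩ := h
      have h2 : (2 : ℤ) ∣ r := by
        have h3 : (2 : ℤ) ∣ r * r := by rw [← hr]; exact ⟨2 * K, by ring⟩
        rcases Int.prime_two.dvd_or_dvd h3 with h4 | h4 <;> exact h4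
      obtain ⟨k, rfl⟩ := h2
      exact ⟨k, by linarith⟩
    have b1 : |LOW 1 D z (2 ^ i0)| ≤ τ := by
      by_contra hcon
      push Not at hcon
      exact hKX.1 (by rw [hX1, mem_filter]; exact ⟨hK, hcon⟩)
    -- logs
    have hlogΔ : (Nat.log 2 (4 * H) : ℝ) ≤ 4 * L := by
      have h1 := natlog_le (4 * H) (by omega)
      have h2 : Real.log ((4 * H : ℕ) : ℝ) = Real.log 4 + L := by
        push_cast
        rw [Real.log_mul (by norm_num) (by positivity)]
      have h3 : Real.log 4 ≤ 3 := by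
        have := Real.log_le_sub_one_of_pos (show (0:ℝ) < 4 by norm_num)
        linarith
      rw [h2] at h1
      linarith
    have hI0 : (i0:ℝ) - 1 > 0 := by linarith
    have b2 : |SJ D (2 ^ i0) (2 ^ (I + 1))| ≤ 1 / (8 * L ^ V) := by
      refine (mid_sumW D V i0 I (Nat.log 2 (4 * H)) (by positivity) hi02 hi0I
        (hX2 K hK hKX.2)).trans ?_
      have h1 : 4 / ((i0:ℝ) - 1) ^ (V + 1) ≤ 1 / (16 * L ^ V) := by
        calc 4 / ((i0:ℝ) - 1) ^ (V + 1) ≤ 4 / (L / 3) ^ (V + 1) := by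
              apply div_le_div_of_nonneg_left (by norm_num) (by positivity)
              exact pow_le_pow_left₀ (by positivity) hi0L _
          _ = 1 / (16 * L ^ V) * (64 * 3 ^ (V + 1) / L) := by
              rw [div_pow, pow_succ L]
              field_simp
              norm_num
          _ ≤ 1 / (16 * L ^ V) * 1 := by
              apply mul_le_mul_of_nonneg_left _ (by positivity)
              rw [div_le_one hL0]
              linarith
          _ = _ := mul_one _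
      have h2 : 8 * (Nat.log 2 (4 * H) : ℝ) / 2 ^ i0 ≤ 1 / (16 * L ^ V) := by
        calc 8 * (Nat.log 2 (4 * H) : ℝ) / 2 ^ i0 ≤ 8 * (4 * L) / (t ^ 2 / 2) := by
              apply div_le_div₀ (by positivity) (by linarith) (by positivity) (by linarith)
          _ ≤ 1 / (16 * L ^ V) := by
              rw [div_le_div_iff₀ (by positivity) (by positivity)]
              have h3 : L ^ (V + 1) ≤ t := (pow_le_pow_right₀ hL1 (by omega)).trans hLV
              have h4 : 8 * (4 * L) * (16 * L ^ V) = 512 * L ^ (V + 1) := by ring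
              rw [h4]
              linarith
      have h3 : 1 / (8 * L ^ V) = 1 / (16 * L ^ V) + 1 / (16 * L ^ V) := by
        field_simp
        norm_num
      rw [h3]
      linarith
    have hII : 2 ^ i0 ≤ 2 ^ (I + 1) := Nat.pow_le_pow_right (by norm_num) (by omega)
    have hIlt : I + 1 < 2 ^ (I + 1) := Nat.lt_two_pow_self
    filter_upwards [eventually_ge_atTop (2 ^ (I + 1))] with N hN
    have b3 : |SJ D (2 ^ (I + 1)) N| ≤ 1 / (16 * L ^ V) := by
      refine (hn₁ (2 ^ (I + 1)) (by omega) D hsq ?_ N hN).trans ?_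
      · have h1 : (4 * D.natAbs : ℝ) ≤ 16 * t ^ (200 * W) := by
          have h2 : 4 * D.natAbs ≤ 16 * H := by
            rw [hDe]; omega
          calc (4 * D.natAbs : ℝ) ≤ 16 * (H:ℝ) := by exact_mod_cast h2
            _ = 16 * t ^ (200 * W) := by rw [← ht200]
        have h3 : Real.log ((2 ^ (I + 1) : ℕ) : ℝ) = ((I + 1 : ℕ) : ℝ) * Real.log 2 := by
          push_cast
          rw [Real.log_pow]
          push_cast
          ring
        rw [h3]
        refine h1.trans ?_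
        set y : ℝ := ((I + 1 : ℕ) : ℝ) with hy
        have hy20 : 20 ≤ y := by
          rw [hy]; exact_mod_cast (by omega : 20 ≤ I + 1)
        have hyt : t ≤ y := by rw [hy]; push_cast; linarith
        have h8 : (0.6 : ℝ) < Real.log 2 := by have := Real.log_two_gt_d9; linarith
        have h4 : y ≤ (y * Real.log 2) ^ 2 := by
          have h5 : y * 0.6 ≤ y * Real.log 2 := mul_le_mul_of_nonneg_left h8.le (by linarith)
          have h6 : (y * 0.6) ^ 2 ≤ (y * Real.log 2) ^ 2 := pow_le_pow_left₀ (by positivity) h5 2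
          have h7 : 20 * y ≤ y * y := mul_le_mul_of_nonneg_right hy20 (by linarith)
          have h9 : (y * 0.6) ^ 2 = 0.36 * (y * y) := by ring
          linarith
        calc 16 * t ^ (200 * W) ≤ y * y ^ (200 * W) := by
              gcongr
              linarith
          _ = y ^ (200 * W + 1) := by ring
          _ ≤ ((y * Real.log 2) ^ 2) ^ (200 * W + 1) := pow_le_pow_left₀ (by linarith) h4 _
          _ = (y * Real.log 2) ^ (2 * (200 * W + 1)) := by rw [← pow_mul]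
      · have h1 : t / 2 ≤ Real.log (((2 ^ (I + 1) : ℕ) : ℝ) - 1) := by
          have h2 : (2:ℝ) ^ I ≤ ((2 ^ (I + 1) : ℕ) : ℝ) - 1 := by
            push_cast
            rw [pow_succ]
            have : (1:ℝ) ≤ 2 ^ I := one_le_pow₀ (by norm_num)
            linarith
          have h3 := Real.log_le_log (by positivity) h2
          rw [Real.log_pow] at h3
          have h8 : (0.6 : ℝ) < Real.log 2 := by have := Real.log_two_gt_d9; linarith
          have h9 : t * 0.6 ≤ I * Real.log 2 := by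
            apply mul_le_mul htI h8.le (by norm_num) (by positivity)
          linarith
        calc 140 / Real.log (((2 ^ (I + 1) : ℕ) : ℝ) - 1) ≤ 140 / (t / 2) := by
              apply div_le_div_of_nonneg_left (by norm_num) (by positivity) h1
          _ ≤ 1 / (16 * L ^ V) := by
              rw [div_le_div_iff₀ (by positivity) (by positivity)]
              have h3 : L ^ (V + 1) * 1 ≤ t := by
                rw [mul_one]; exact (pow_le_pow_right₀ hL1 (by omega)).trans hLV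
              have h4 : 5000 * L ^ V ≤ L ^ (V + 1) := by
                rw [pow_succ, mul_comm (L ^ V) L]
                exact mul_le_mul_of_nonneg_right hL5 (hLp0 V).le
              linarith
    have hcmp : |Real.log (CF 1 0 (-(K : ℤ)) N) - Real.log (CF 1 0 (-(K : ℤ)) z)| ≤
        |LOW 1 D z (2 ^ i0)| + |SJ D (2 ^ i0) N| + 12 / (z:ℝ) + 3 * (Nat.log 2 (1 : ℤ).toNat) / z :=
      CF_compare 1 0 (-(K : ℤ)) one_pos z (2 ^ i0) N hz2 hzZ (hII.trans hN)
    refine hcmp.trans ?_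
    have hSJ : |SJ D (2 ^ i0) N| ≤ 1 / (8 * L ^ V) + 1 / (16 * L ^ V) := by
      rw [SJ_add D (2 ^ i0) (2 ^ (I + 1)) N hII hN]
      exact (abs_add_le _ _).trans (add_le_add b2 b3)
    have hlast : 12 / (z:ℝ) + 3 * (Nat.log 2 (1 : ℤ).toNat) / z ≤ 1 / (16 * L ^ V) := by
      have h1 : 12 / (z:ℝ) + 3 * (Nat.log 2 (1 : ℤ).toNat) / z = 12 / z := by simp
      rw [h1]
      calc (12 : ℝ) / z ≤ (7 * L) / (L ^ (V + 3) / 2) := by
            apply div_le_div₀ (by positivity) (by linarith) (by positivity)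
            refine le_trans ?_ hzlow
            have : L ^ (V + 3) ≤ L ^ E := pow_le_pow_right₀ hL1 (by omega)
            linarith
        _ ≤ 1 / (16 * L ^ V) := by
            rw [div_le_div_iff₀ (by positivity) (by positivity), pow_add]
            have h3 : 7 * L * (16 * L ^ V) = 112 * L * L ^ V := by ring
            have h4 : 1 * (L ^ V * L ^ 3 / 2) = (L ^ 3 / 2) * L ^ V := by ring
            rw [h3, h4]
            apply mul_le_mul_of_nonneg_right _ (hLp0 _).le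
            have h5 : 5000 * L ≤ L ^ 2 := by
              rw [sq]; exact mul_le_mul_of_nonneg_right hL5 hL0.le
            have h6 : L ^ 2 ≤ L ^ 3 := pow_le_pow_right₀ hL1 (by norm_num)
            linarith
    have e1 : |LOW 1 D z (2 ^ i0)| ≤ 1 / (4 * L ^ V) := b1
    have e2 : 1 / L ^ V = 16 * (1 / (16 * L ^ V)) := by field_simp
    have e3 : 1 / (4 * L ^ V) = 4 * (1 / (16 * L ^ V)) := by field_simp; norm_num
    have e4 : 1 / (8 * L ^ V) = 2 * (1 / (16 * L ^ V)) := by field_simp; norm_num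
    have e5 : 0 < 1 / (16 * L ^ V) := by positivity
    rw [e2]
    rw [e3] at e1
    rw [e4] at hSJ
    linarith

/-- the constant and its cut product -/
theorem hK_most (U V : ℕ) : ∃ E1 : ℕ, ∀ E : ℕ, E1 ≤ E → ∃ X0 : ℕ, ∀ X : ℕ, X0 ≤ X →
    ∃ B : Finset ℕ, (#B : ℝ) ≤ (X : ℝ) / Real.log X ^ U ∧
    ∀ K ∈ Icc 1 X, K ∉ B → ¬ IsSquare (K : ℤ) → ∃ h : ℝ, 0 < h ∧
      Tendsto (fun N => HP K N) atTop (𝓝 h) ∧
      |HP K ⌊Real.log X ^ E⌋₊ - h| ≤ 1 / Real.log X ^ V * h := by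
  obtain ⟨E1, h1⟩ := hp_most U (V + 1)
  refine ⟨E1, fun E hE => ?_⟩
  obtain ⟨X0, h2⟩ := h1 E hE
  obtain ⟨X1, hX1⟩ := eventually_atTop.mp (evt_log_ge 3)
  refine ⟨max X0 X1, fun X hX => ?_⟩
  obtain ⟨B, hB, h3⟩ := h2 X ((le_max_left _ _).trans hX)
  have hL := hX1 X ((le_max_right _ _).trans hX)
  refine ⟨B, hB, fun K hK hKB hsq => ?_⟩
  have hsq' : ¬ IsSquare (0 ^ 2 - 4 * 1 * -(K : ℤ)) := by
    intro h
    apply hsq
    have hDe : (0 ^ 2 - 4 * 1 * -(K : ℤ)) = 4 * (K : ℤ) := by ring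
    rw [hDe] at h
    obtain ⟨r, hr⟩ := h
    have h2 : (2 : ℤ) ∣ r := by
      have h3 : (2 : ℤ) ∣ r * r := by rw [← hr]; exact ⟨2 * K, by ring⟩
      rcases Int.prime_two.dvd_or_dvd h3 with h4 | h4 <;> exact h4
    obtain ⟨k, rfl⟩ := h2
    exact ⟨k, by linarith⟩
  obtain ⟨h, hh0, hlim⟩ := CF_tendsto 1 0 (-(K : ℤ)) one_pos hsq'
  have h5 := CF_limit 1 0 (-(K : ℤ)) h hh0 hlim ⌊Real.log X ^ E⌋₊ (1 / Real.log X ^ (V + 1))
    (by rw [div_le_one (by positivity)]; exact one_le_pow₀ (by linarith)) (h3 K hK hKB hsq)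
  refine ⟨2 * h, by positivity, ?_, ?_⟩
  · have h6 := hlim.const_mul 2
    refine h6.congr fun N => ?_
    rw [CF_HP]
  · rw [CF_HP, ← mul_sub, abs_mul, abs_of_pos (show (0 : ℝ) < 2 by norm_num)]
    have h6 : 1 / Real.log X ^ (V + 1) * 2 ≤ 1 / Real.log X ^ V := by
      rw [pow_succ, one_div_mul_eq_div, div_le_div_iff₀ (by positivity) (by positivity)]
      have : 0 < Real.log X ^ V := by positivity
      nlinarith
    have h7 : 2 * (1 / Real.log X ^ (V + 1)) * h ≤ 1 / Real.log X ^ V * h := by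
      apply mul_le_mul_of_nonneg_right _ hh0.le
      linarith
    linarith

end Pool.Agent.TH892.SW
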